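import Pool.Agent.Lib.MP_770ffc_an.Main

/-! Tools for weak `H¹` functions: restriction, approximation, bracketing. -/

set_option autoImplicit false

open MeasureTheory Set Filter Topology Metric
open scoped ContDiff NNReal ENNReal

namespace Pool.Agent.Lib.NV46

open Pool.Agent.Lib.MP_770ffc_an

variable {E : Type} [NormedAddCommGroup E] [InnerProductSpace ℝ E]
  [FiniteDimensional ℝ E] [MeasurableSpace E] [BorelSpace E]

lemma h1_mono {Ω Ω' : Set E} (hs : Ω' ⊆ Ω) (hm : MeasurableSet Ω) {u : E → ℝ} {g : E → E}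
    (h : IsH1 Ω u g) : IsH1 Ω' u g := by
  refine ⟨h.1.mono_measure (Measure.restrict_mono hs le_rfl),
    h.2.1.mono_measure (Measure.restrict_mono hs le_rfl), fun φ hφ hφc hφs v => ?_⟩
  have h1 := h.2.2 φ hφ hφc (hφs.trans hs) v
  rw [setIntegral_eq_of_subset_of_forall_sdiff_eq_zero hm hs,
    setIntegral_eq_of_subset_of_forall_sdiff_eq_zero hm hs] at h1
  · exact h1
  · intro x hx
    rw [image_eq_zero_of_notMem_tsupport fun h => hx.2 (hφs h), mul_zero]
  · intro x hx
    have : fderiv ℝ φ x = 0 := by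
      by_contra h0
      exact hx.2 (hφs (support_fderiv_subset ℝ h0))
    simp [this]

lemma adm_nonneg {Ω : Set E} {k : ℕ} {t : ℝ} (ht : t ∈ Adm Ω k) : 0 ≤ t := by
  obtain ⟨V, hV, hV'⟩ := ht
  have : FiniteDimensional ℝ V := Module.finite_of_finrank_pos (by omega)
  have : Nontrivial V := Module.nontrivial_of_finrank_pos (R := ℝ) (by omega)
  obtain ⟨p, hp⟩ := exists_ne (0 : V)
  obtain ⟨-, h2, h3⟩ := hV' p.1 p.2
  have h4 : 0 < ∫ x in Ω, p.1.1 x ^ 2 :=
    lt_of_le_of_ne (integral_nonneg fun _ => sq_nonneg _) (h2 fun h0 => hp (Subtype.ext h0)).symm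
  have h5 : 0 ≤ ∫ x in Ω, ‖p.1.2 x‖ ^ 2 := integral_nonneg fun _ => sq_nonneg _
  by_contra hlt
  push Not at hlt
  nlinarith

lemma eig_le {Ω : Set E} {k : ℕ} {t : ℝ} (ht : t ∈ Adm Ω k) : neumannEig Ω k ≤ t :=
  csInf_le ⟨0, fun _ h => adm_nonneg h⟩ ht

lemma eig_nonneg (Ω : Set E) (k : ℕ) : 0 ≤ neumannEig Ω k :=
  Real.sInf_nonneg fun _ h => adm_nonneg h

/-- A family of `C¹` test functions gives an admissible value. -/
lemma adm_of_family {Ω : Set E} (hΩm : MeasurableSet Ω) (hΩb : Bornology.IsBounded Ω) {k : ℕ}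
    (f : Fin (k + 1) → E → ℝ) (hf : ∀ i, ContDiff ℝ 1 (f i)) {t : ℝ}
    (hne : ∀ c : Fin (k + 1) → ℝ, c ≠ 0 → ∫ x in Ω, (∑ i, c i * f i x) ^ 2 ≠ 0)
    (hle : ∀ c : Fin (k + 1) → ℝ, ∫ x in Ω, ‖∑ i, c i • fderiv ℝ (f i) x‖ ^ 2 ≤
      t * ∫ x in Ω, (∑ i, c i * f i x) ^ 2) : t ∈ Adm Ω k := by
  let T : (Fin (k + 1) → ℝ) →ₗ[ℝ] ((E → ℝ) × (E → E)) :=
    { toFun := fun c => (fun x => ∑ i, c i * f i x, fun x => ∑ i, c i • gradient (f i) x)
      map_add' := fun c c' => by
        ext x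
        · simp [add_mul, Finset.sum_add_distrib]
        · simp [Finset.sum_add_distrib, add_smul]
      map_smul' := fun a c => by
        ext x
        · simp [Finset.mul_sum, mul_assoc]
        · simp [Finset.smul_sum, smul_smul] }
  have hgr : ∀ i x, innerSL ℝ (gradient (f i) x) = fderiv ℝ (f i) x := by
    intro i x
    ext v
    rw [innerSL_apply_apply, gradient, InnerProductSpace.toDual_symm_apply]
  have hsum : ∀ c x, innerSL ℝ ((T c).2 x) = ∑ i, c i • fderiv ℝ (f i) x := by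
    intro c x
    change innerSL ℝ (∑ i, c i • gradient (f i) x) = _
    rw [map_sum]
    refine Finset.sum_congr rfl fun i _ => ?_
    rw [← hgr]
    ext v
    simp
  have hH1 : ∀ c, IsH1 Ω (T c).1 (T c).2 := by
    intro c
    refine isH1_of_contDiff hΩm hΩb ?_ fun x => ?_
    · change Continuous fun x => ∑ i, c i • gradient (f i) x
      refine continuous_finsetSum _ fun i _ => Continuous.const_smul ?_ _
      exact (InnerProductSpace.toDual ℝ E).symm.continuous.comp
        ((hf i).continuous_fderiv (by simp))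
    · rw [hsum]
      change HasFDerivAt (fun y => ∑ i, c i * f i y) _ x
      exact HasFDerivAt.fun_sum fun i _ =>
        ((hf i).differentiable (by simp) x).hasFDerivAt.const_mul (c i)
  have hinj : Function.Injective T := by
    rw [← LinearMap.ker_eq_bot, LinearMap.ker_eq_bot']
    intro c hc
    by_contra h0
    have h1 : ∀ x, ∑ i, c i * f i x = 0 := fun x => congrFun (congrArg Prod.fst hc) x
    exact hne c h0 (by simp [h1])
  refine ⟨T.range, by rw [LinearMap.finrank_range_of_inj hinj]; simp, ?_⟩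
  rintro _ ⟨c, rfl⟩
  refine ⟨hH1 c, fun h => hne c (by rintro rfl; exact h (map_zero T)), ?_⟩
  have h2 : ∀ x, ‖(T c).2 x‖ = ‖∑ i, c i • fderiv ℝ (f i) x‖ := fun x => by
    rw [← hsum, innerSL_apply_norm]
  simp only [h2]
  exact hle c

/-- Test functions with disjoint supports. -/
lemma adm_of_disjoint {Ω : Set E} (hΩm : MeasurableSet Ω) (hΩb : Bornology.IsBounded Ω) {k : ℕ}
    (f : Fin (k + 1) → E → ℝ) (hf : ∀ i, ContDiff ℝ 1 (f i)) {t : ℝ}
    (hd : ∀ x i j, i ≠ j → (f i x = 0 ∧ fderiv ℝ (f i) x = 0) ∨ (f j x = 0 ∧ fderiv ℝ (f j) x = 0))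
    (hpos : ∀ i, 0 < ∫ x in Ω, f i x ^ 2)
    (hle : ∀ i, ∫ x in Ω, ‖fderiv ℝ (f i) x‖ ^ 2 ≤ t * ∫ x in Ω, f i x ^ 2) : t ∈ Adm Ω k := by
  have hK : IsCompact (closure Ω) := hΩb.isCompact_closure
  have hint : ∀ F : E → ℝ, Continuous F → IntegrableOn F Ω := fun F hF =>
    (hF.continuousOn.integrableOn_compact hK).mono_set subset_closure
  have hpt : ∀ (c : Fin (k + 1) → ℝ) x, (∑ i, c i * f i x) ^ 2 = ∑ i, c i ^ 2 * f i x ^ 2 ∧
      ‖∑ i, c i • fderiv ℝ (f i) x‖ ^ 2 = ∑ i, c i ^ 2 * ‖fderiv ℝ (f i) x‖ ^ 2 := by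
    intro c x
    by_cases h : ∀ i, f i x = 0 ∧ fderiv ℝ (f i) x = 0
    · simp [fun i => (h i).1, fun i => (h i).2]
    · obtain ⟨i, hi⟩ := not_forall.mp h
      have h0 : ∀ j, j ≠ i → f j x = 0 ∧ fderiv ℝ (f j) x = 0 := fun j hj =>
        (hd x j i hj).resolve_right hi
      rw [Finset.sum_eq_single i (fun j _ hj => by simp [(h0 j hj).1]) (by simp),
        Finset.sum_eq_single i (fun j _ hj => by simp [(h0 j hj).1]) (by simp),
        Finset.sum_eq_single i (fun j _ hj => by simp [(h0 j hj).2]) (by simp),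
        Finset.sum_eq_single i (fun j _ hj => by simp [(h0 j hj).2]) (by simp),
        norm_smul, mul_pow, mul_pow, Real.norm_eq_abs, sq_abs]
      exact ⟨rfl, rfl⟩
  have hc1 : ∀ i, Continuous fun x => f i x ^ 2 := fun i => (hf i).continuous.pow 2
  have hc2 : ∀ i, Continuous fun x => ‖fderiv ℝ (f i) x‖ ^ 2 := fun i =>
    ((hf i).continuous_fderiv (by simp)).norm.pow 2
  have e1 : ∀ c : Fin (k + 1) → ℝ, ∫ x in Ω, (∑ i, c i * f i x) ^ 2 =
      ∑ i, c i ^ 2 * ∫ x in Ω, f i x ^ 2 := by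
    intro c
    simp only [fun x => (hpt c x).1]
    rw [integral_finsetSum _ fun i _ => (hint _ (hc1 i)).const_mul _]
    simp only [integral_const_mul]
  refine adm_of_family hΩm hΩb f hf (fun c hc => ?_) fun c => ?_
  · obtain ⟨j, hj⟩ := Function.ne_iff.mp hc
    rw [e1]
    refine (Finset.sum_pos' (fun i _ => mul_nonneg (sq_nonneg _) (hpos i).le)
      ⟨j, Finset.mem_univ _, mul_pos (sq_pos_of_ne_zero hj) (hpos j)⟩).ne'
  · simp only [fun x => (hpt c x).2]
    rw [e1, integral_finsetSum _ fun i _ => (hint _ (hc2 i)).const_mul _, Finset.mul_sum]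
    refine Finset.sum_le_sum fun i _ => ?_
    rw [integral_const_mul]
    nlinarith [mul_le_mul_of_nonneg_left (hle i) (sq_nonneg (c i))]

/-- Mollification. -/
lemma approx {Ω : Set E} (hΩ : IsOpen Ω) {u : E → ℝ} {g : E → E} (h : IsH1 Ω u g) :
    ∃ (U G : ℕ → E → ℝ) (r : ℕ → ℝ), Tendsto r atTop (𝓝 0) ∧ (∀ n, ContDiff ℝ 1 (U n)) ∧
      (∀ n, Continuous (G n)) ∧ (∀ n z, 0 ≤ G n z) ∧
      (∀ n, Integrable (G n) ∧ ∫ z, G n z = ∫ x in Ω, ‖g x‖ ^ 2) ∧
      (∀ n z, closedBall z (r n) ⊆ Ω → ‖fderiv ℝ (U n) z‖ ^ 2 ≤ G n z) ∧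
      ∀ᵐ x, x ∈ Ω → Tendsto (fun n => U n x) atTop (𝓝 (u x)) := by
  have hm := hΩ.measurableSet
  let φ : ℕ → ContDiffBump (0 : E) := fun n =>
    ⟨1 / (2 * ((n : ℝ) + 1)), 1 / ((n : ℝ) + 1), by positivity, by
      apply one_div_lt_one_div_of_lt <;> nlinarith [(Nat.cast_nonneg n : (0 : ℝ) ≤ n)]⟩
  have hr : Tendsto (fun n => (φ n).rOut) atTop (𝓝 0) := tendsto_one_div_add_atTop_nhds_zero_nat
  have hconv := ContDiffBump.ae_convolution_tendsto_right_of_locallyIntegrable (K := 2) hr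
    (Eventually.of_forall fun n => le_of_eq (by simp only [φ]; field_simp)) (h.locInt hm)
  have hgi : Integrable (Ω.indicator fun x => ‖g x‖ ^ 2) volume :=
    (integrable_indicator_iff hm).mpr h.int_sq
  have hG0 : ∀ n z, 0 ≤ mol (Ω.indicator fun x => ‖g x‖ ^ 2) ((φ n).normed volume) z := by
    intro n z
    rw [mol_indicator hm]
    exact integral_nonneg fun t => mul_nonneg (sq_nonneg _) ((φ n).nonneg_normed _)
  refine ⟨fun n => mol (Ω.indicator u) ((φ n).normed volume),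
    fun n => mol (Ω.indicator fun x => ‖g x‖ ^ 2) ((φ n).normed volume), fun n => (φ n).rOut, hr,
    fun n => (φ n).hasCompactSupport_normed.contDiff_convolution_right (n := 1) _ (h.locInt hm)
      (φ n).contDiff_normed,
    fun n => (φ n).hasCompactSupport_normed.continuous_convolution_right _ hgi.locallyIntegrable
      (φ n).continuous_normed, hG0,
    fun n => ⟨hgi.integrable_convolution _ (φ n).integrable_normed, ?_⟩, fun n z hz => ?_, ?_⟩
  · simp only [mol]
    rw [integral_convolution _ hgi (φ n).integrable_normed, (φ n).integral_normed,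
      integral_indicator hm]
    simp
  · rw [← Real.le_sqrt (norm_nonneg _) (hG0 n z)]
    refine ContinuousLinearMap.opNorm_le_bound _ (Real.sqrt_nonneg _) fun v => ?_
    have h1 := mol_fderiv_sq_le hΩ h (φ n) hz v
    rw [Real.norm_eq_abs]
    refine abs_le.2 (abs_le_of_sq_le_sq' ?_ (by positivity))
    rw [mul_pow, Real.sq_sqrt (hG0 n z), mul_comm]
    exact h1
  · filter_upwards [hconv] with x h1 hx
    rw [indicator_of_mem hx] at h1
    refine h1.congr fun n => ?_
    rw [convolution_lsmul_swap, mol_apply]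
    congr 1; ext t; rw [smul_eq_mul, mul_comm]

omit [FiniteDimensional ℝ E] [MeasurableSpace E] [BorelSpace E] in
lemma seg_sq_le {U G : E → ℝ} (hU : ContDiff ℝ 1 U) (hG : Continuous G) {x v : E}
    (h : ∀ t ∈ Icc (0 : ℝ) 1, ‖fderiv ℝ U (x + t • v)‖ ^ 2 ≤ G (x + t • v)) :
    (U (x + v) - U x) ^ 2 ≤ ‖v‖ ^ 2 * ∫ t in (0 : ℝ)..1, G (x + t • v) := by
  have hc : Continuous fun t : ℝ => x + t • v := by fun_prop
  have hd : ∀ t : ℝ, HasDerivAt (fun t : ℝ => U (x + t • v)) (fderiv ℝ U (x + t • v) v) t := by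
    intro t
    have h2 : HasDerivAt (fun t : ℝ => x + t • v) v t := by
      simpa using ((hasDerivAt_id t).smul_const v).const_add x
    exact (hU.differentiable (by simp) _).hasFDerivAt.comp_hasDerivAt t h2
  have hc' : Continuous fun t : ℝ => fderiv ℝ U (x + t • v) v :=
    ((hU.continuous_fderiv (by simp)).comp hc).clm_apply continuous_const
  have h1 := intervalIntegral.integral_eq_sub_of_hasDerivAt (a := 0) (b := 1)
    (fun t _ => hd t) (hc'.intervalIntegrable _ _)
  simp only [one_smul, zero_smul, add_zero] at h1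
  set A := U (x + v) - U x
  have h2 : ∫ t in (0 : ℝ)..1, 2 * A * fderiv ℝ U (x + t • v) v ≤
      ∫ t in (0 : ℝ)..1, (‖v‖ ^ 2 * G (x + t • v) + A ^ 2) := by
    refine intervalIntegral.integral_mono_on (by norm_num)
      ((continuous_const.mul hc').intervalIntegrable _ _)
      (((continuous_const.mul (hG.comp hc)).add continuous_const).intervalIntegrable _ _)
      fun t ht => ?_
    have h3 : (fderiv ℝ U (x + t • v) v) ^ 2 ≤ ‖v‖ ^ 2 * G (x + t • v) := by
      have h4 := (fderiv ℝ U (x + t • v)).le_opNorm v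
      rw [Real.norm_eq_abs] at h4
      have h5 := pow_le_pow_left₀ (abs_nonneg _) h4 2
      rw [sq_abs, mul_pow] at h5
      nlinarith [mul_le_mul_of_nonneg_left (h t ht) (sq_nonneg ‖v‖)]
    nlinarith [sq_nonneg (fderiv ℝ U (x + t • v) v - A)]
  have hc2 : Continuous fun t : ℝ => ‖v‖ ^ 2 * G (x + t • v) := continuous_const.mul (hG.comp hc)
  rw [intervalIntegral.integral_const_mul, h1, intervalIntegral.integral_add
    (hc2.intervalIntegrable _ _)
    (continuous_const.intervalIntegrable _ _), intervalIntegral.integral_const_mul] at h2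
  simp only [intervalIntegral.integral_const, smul_eq_mul] at h2
  nlinarith

omit [NormedAddCommGroup E] [InnerProductSpace ℝ E] [FiniteDimensional ℝ E] [BorelSpace E] in
/-- The mean minimises the quadratic deviation. -/
lemma mean_split (μ : Measure E) [IsFiniteMeasure μ] {u : E → ℝ} (hu : MemLp u 2 μ) :
    ∃ m : ℝ, ∫ x, (u x - m) ∂μ = 0 ∧ ∀ c : ℝ, ∫ x, (u x - m) ^ 2 ∂μ + μ.real univ * (m - c) ^ 2 =
      ∫ x, (u x - c) ^ 2 ∂μ := by
  have hi : Integrable u μ := hu.integrable (by norm_num)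
  have h0 : ∫ x, (u x - ⨍ y, u y ∂μ) ∂μ = 0 := integral_sub_average μ u
  refine ⟨⨍ y, u y ∂μ, h0, fun c => ?_⟩
  set m := ⨍ y, u y ∂μ
  have h1 : ∀ x, (u x - c) ^ 2 = (u x - m) ^ 2 + 2 * (m - c) * (u x - m) + (m - c) ^ 2 :=
    fun x => by ring
  simp only [h1]
  have h2 : Integrable (fun x => (u x - m) ^ 2) μ := (hu.sub (memLp_const m)).integrable_sq
  have h3 : Integrable (fun x => 2 * (m - c) * (u x - m)) μ :=
    (hi.sub (integrable_const m)).const_mul _
  have h4 : Integrable (fun x => (u x - m) ^ 2 + 2 * (m - c) * (u x - m)) μ := h2.add h3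
  rw [integral_add h4 (integrable_const _), integral_add h2 h3, integral_const_mul, h0]
  simp

omit [NormedAddCommGroup E] [InnerProductSpace ℝ E] [FiniteDimensional ℝ E] [BorelSpace E] in
/-- Passing to the limit in a variance bound. -/
lemma var_limit (μ : Measure E) [IsFiniteMeasure μ] {u : E → ℝ} (hu : MemLp u 2 μ)
    (U : ℕ → E → ℝ) (hU : ∀ n, Measurable (U n)) (K : ℕ → Set E) (hK : ∀ n, MeasurableSet (K n))
    (hlim : ∀ᵐ x ∂μ, (∀ᶠ n in atTop, x ∈ K n) ∧ Tendsto (fun n => U n x) atTop (𝓝 (u x)))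
    {B : ℝ} (hB : 0 ≤ B) (c : ℕ → ℝ)
    (h : ∀ n, ∫⁻ x in K n, ENNReal.ofReal ((U n x - c n) ^ 2) ∂μ ≤ ENNReal.ofReal B) :
    ∃ c : ℝ, ∫ x, (u x - c) ^ 2 ∂μ ≤ B := by
  let F : ℕ → E → ℝ≥0∞ := fun n => (K n).indicator fun x => ENNReal.ofReal ((U n x - c n) ^ 2)
  have hF : ∀ n, Measurable (F n) := fun n =>
    (((hU n).sub_const _).pow_const 2).ennreal_ofReal.indicator (hK n)
  have hF' : ∀ n, ∫⁻ x, F n x ∂μ ≤ ENNReal.ofReal B := fun n => by
    simp only [F]
    rw [lintegral_indicator (hK n)]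
    exact h n
  have key : ∀ (ψ : ℕ → ℕ) (Z : E → ℝ≥0∞),
      (∀ᵐ x ∂μ, Tendsto (fun n => F (ψ n) x) atTop (𝓝 (Z x))) →
        ∫⁻ x, Z x ∂μ ≤ ENNReal.ofReal B := by
    intro ψ Z hZ
    have h1 : ∀ᵐ x ∂μ, Z x ≤ liminf (fun n => F (ψ n) x) atTop := by
      filter_upwards [hZ] with x hx
      rw [hx.liminf_eq]
    exact (lintegral_mono_ae h1).trans ((lintegral_liminf_le fun n => hF _).trans
      (liminf_le_of_frequently_le' (Frequently.of_forall fun n => hF' _)))
  by_cases hb : ∃ M : ℝ, ∃ᶠ n in atTop, c n ∈ closedBall (0 : ℝ) M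
  · obtain ⟨M, hM⟩ := hb
    obtain ⟨a, -, ψ, hψ, hψa⟩ := tendsto_subseq_of_frequently_bounded isBounded_closedBall hM
    refine ⟨a, ?_⟩
    have h1 := key ψ (fun x => ENNReal.ofReal ((u x - a) ^ 2)) (by
      filter_upwards [hlim] with x hx
      have h2 : Tendsto (fun n => ENNReal.ofReal ((U (ψ n) x - c (ψ n)) ^ 2)) atTop
          (𝓝 (ENNReal.ofReal ((u x - a) ^ 2))) :=
        (ENNReal.continuous_ofReal.tendsto _).comp
          (((hx.2.comp hψ.tendsto_atTop).sub hψa).pow 2)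
      refine h2.congr' ?_
      filter_upwards [hψ.tendsto_atTop.eventually hx.1] with n hn
      simp only [F]
      rw [indicator_of_mem hn])
    rw [← ofReal_integral_eq_lintegral_ofReal (f := fun x => (u x - a) ^ 2)
      (hu.sub (memLp_const a)).integrable_sq (Eventually.of_forall fun _ => sq_nonneg _)] at h1
    exact (ENNReal.ofReal_le_ofReal_iff hB).mp h1
  · have h1 := key id (fun _ => ⊤) (by
      filter_upwards [hlim] with x hx
      have h2 : Tendsto (fun n => (U n x - c n) ^ 2) atTop atTop := by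
        refine tendsto_atTop.mpr fun M => ?_
        have h3 := not_exists.mp hb (|u x| + 1 + (|M| + 1))
        rw [not_frequently] at h3
        filter_upwards [h3, hx.2.eventually (ball_mem_nhds _ one_pos)] with n h4 h5
        rw [mem_closedBall, dist_zero_right, Real.norm_eq_abs, not_le] at h4
        rw [Real.dist_eq] at h5
        have h6 : |M| + 1 ≤ |U n x - c n| := by
          have := abs_sub_abs_le_abs_sub (c n) (U n x)
          have := abs_sub_abs_le_abs_sub (U n x) (u x)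
          rw [abs_sub_comm (U n x) (c n)]
          linarith
        rw [← sq_abs (U n x - c n)]
        nlinarith [le_abs_self M, abs_nonneg M]
      refine (ENNReal.tendsto_ofReal_atTop.comp h2).congr' ?_
      filter_upwards [hx.1] with n hn
      simp only [F, id, Function.comp]
      rw [indicator_of_mem hn])
    rw [lintegral_const] at h1
    have h0 : μ univ = 0 := by
      by_contra h0
      rw [ENNReal.top_mul h0] at h1
      exact ENNReal.ofReal_ne_top (top_le_iff.mp h1)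
    rw [Measure.measure_univ_eq_zero.mp h0]
    exact ⟨0, by simpa using hB⟩

/-- Neumann bracketing. -/
lemma bracket {Ω : Set E} (hΩ : MeasurableSet Ω) (hΩ1 : volume Ω ≠ ⊤) {ι : Type} (s : Finset ι)
    {k : ℕ} (hk : s.card ≤ k) (C : ι → Set E) (hCm : ∀ i, MeasurableSet (C i))
    (hC : ∀ i ∈ s, C i ⊆ Ω) (hcov : ∀ᵐ x, x ∈ Ω → ∃ i ∈ s, x ∈ C i) {η : ℝ} (hη : 0 < η)
    (h : ∀ u g, IsH1 Ω u g → ∃ c : ι → ℝ,
      ∑ i ∈ s, ∫ x in C i, (u x - c i) ^ 2 ≤ η * ∫ x in Ω, ‖g x‖ ^ 2)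
    {t : ℝ} (ht : t ∈ Adm Ω k) : 1 / η ≤ t := by
  obtain ⟨V, hV, hV'⟩ := ht
  have hfin : ∀ i ∈ s, IsFiniteMeasure (volume.restrict (C i)) := fun i hi =>
    isFiniteMeasure_restrict.mpr (ne_top_of_le_ne_top hΩ1 (measure_mono (hC i hi)))
  have hL : ∀ p ∈ V, ∀ i ∈ s, MemLp p.1 2 (volume.restrict (C i)) := fun p hp i hi =>
    (hV' p hp).1.1.mono_measure (Measure.restrict_mono (hC i hi) le_rfl)
  have hint : ∀ p ∈ V, ∀ i ∈ s, Integrable p.1 (volume.restrict (C i)) := fun p hp i hi =>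
    haveI := hfin i hi
    (hL p hp i hi).integrable (by norm_num)
  let F : V →ₗ[ℝ] (s → ℝ) :=
    { toFun := fun p i => ∫ x in C i, p.1.1 x
      map_add' := fun p q => funext fun i => integral_add (hint _ p.2 _ i.2) (hint _ q.2 _ i.2)
      map_smul' := fun a p => funext fun i => integral_smul a _ }
  have : FiniteDimensional ℝ V := Module.finite_of_finrank_pos (by omega)
  have hker : F.ker ≠ ⊥ := LinearMap.ker_ne_bot_of_finrank_lt (by simp; omega)
  obtain ⟨p, hp, hp0⟩ := Submodule.exists_mem_ne_zero_of_ne_bot hker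
  have hmean : ∀ i ∈ s, ∫ x in C i, p.1.1 x = 0 := fun i hi => congrFun hp ⟨i, hi⟩
  obtain ⟨h1, h2, h3⟩ := hV' p.1 p.2
  obtain ⟨c, hc⟩ := h _ _ h1
  have h4 : 0 < ∫ x in Ω, p.1.1 x ^ 2 :=
    lt_of_le_of_ne (integral_nonneg fun _ => sq_nonneg _)
      (h2 fun h0 => hp0 (Subtype.ext h0)).symm
  have h5 : ∀ i ∈ s, ∫ x in C i, p.1.1 x ^ 2 ≤ ∫ x in C i, (p.1.1 x - c i) ^ 2 := by
    intro i hi
    have := hfin i hi
    have hL' := hL _ p.2 i hi
    have h6 : ∫ x in C i, (p.1.1 x ^ 2 - 2 * c i * p.1.1 x) ≤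
        ∫ x in C i, (p.1.1 x - c i) ^ 2 := by
      refine integral_mono (hL'.integrable_sq.sub ((hint _ p.2 i hi).const_mul _))
        (hL'.sub (memLp_const (c i))).integrable_sq fun x => ?_
      simp only
      nlinarith [sq_nonneg (c i)]
    rw [integral_sub hL'.integrable_sq ((hint _ p.2 i hi).const_mul _), integral_const_mul,
      hmean i hi] at h6
    simpa using h6
  have h6 : ∫ x in Ω, p.1.1 x ^ 2 ≤ ∑ i ∈ s, ∫ x in C i, p.1.1 x ^ 2 := by
    have hi : ∀ i ∈ s, Integrable ((C i).indicator fun x => p.1.1 x ^ 2) volume := fun i hi =>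
      (integrable_indicator_iff (hCm i)).mpr (hL _ p.2 i hi).integrable_sq
    rw [← integral_indicator hΩ]
    simp only [← integral_indicator (hCm _)]
    rw [← integral_finsetSum _ hi]
    refine integral_mono_ae ((integrable_indicator_iff hΩ).mpr h1.1.integrable_sq)
      (integrable_finsetSum _ hi) ?_
    filter_upwards [hcov] with x hx'
    have hnn : ∀ j ∈ s, 0 ≤ (C j).indicator (fun x => p.1.1 x ^ 2) x :=
      fun j _ => indicator_nonneg (fun _ _ => sq_nonneg _) x
    by_cases hx : x ∈ Ω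
    · obtain ⟨j, hj, hxj⟩ := hx' hx
      refine le_trans (le_of_eq ?_) (Finset.single_le_sum hnn hj)
      rw [indicator_of_mem hx, indicator_of_mem hxj]
    · rw [indicator_of_notMem hx]
      exact Finset.sum_nonneg hnn
  rw [div_le_iff₀ hη]
  have h7 := h6.trans ((Finset.sum_le_sum h5).trans
    (hc.trans (mul_le_mul_of_nonneg_left h3 hη.le)))
  by_contra hlt
  push Not at hlt
  nlinarith

/-- Hyperplanes are null sets. -/
lemma null_hyper {n : E} (hn : n ≠ 0) (t : ℝ) : ∀ᵐ x : E, inner ℝ n x ≠ t := by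
  have h1 : volume ((LinearMap.ker (innerSL ℝ n : E →ₗ[ℝ] ℝ) : Submodule ℝ E) : Set E) = 0 := by
    refine Measure.addHaar_submodule _ _ fun h => hn ?_
    have : n ∈ LinearMap.ker (innerSL ℝ n : E →ₗ[ℝ] ℝ) := by rw [h]; trivial
    simpa using this
  have h2 : ∀ᵐ x : E, inner ℝ n x ≠ 0 := by
    rw [ae_iff]
    refine measure_mono_null (fun x hx => ?_) h1
    simpa using hx
  have hnn : inner ℝ n n ≠ (0 : ℝ) := by simpa using hn
  filter_upwards [(measurePreserving_add_right volume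
    (-(t / inner ℝ n n) • n)).quasiMeasurePreserving.ae h2] with x hx h
  apply hx
  rw [inner_add_right, inner_smul_right, h]
  field_simp
  ring

end Pool.Agent.Lib.NV46
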