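import Pool.Agent.Lib.NV46.PW3

/-! Covering radius: Voronoi cells, diameter, doubling points. -/

set_option autoImplicit false

open MeasureTheory Set Filter Topology Metric
open scoped ContDiff NNReal ENNReal

namespace Pool.Agent.Lib.NV46

open Pool.Agent.Lib.MP_770ffc_an

variable {d : ℕ}

/-- `Ω` is covered by at most `k` open balls of radius `r`. -/
def Cov (Ω : Set (ES d)) (k : ℕ) (r : ℝ) : Prop :=
  ∃ Y : Finset (ES d), Y.card ≤ k ∧ ∀ x ∈ Ω, ∃ y ∈ Y, dist x y < r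

lemma voronoi (hd : 0 < d) {Ω : Set (ES d)} (ho : IsOpen Ω) (hc : Convex ℝ Ω)
    (hb : Bornology.IsBounded Ω) {k : ℕ} {r κ : ℝ} (hcov : Cov Ω k r)
    (hκ : (2 * r) ^ 2 / Real.pi ^ 2 < κ) {t : ℝ} (ht : t ∈ Adm Ω k) : 1 / κ ≤ t := by
  classical
  obtain ⟨Y, hY, hcov⟩ := hcov
  have hκ0 : 0 < κ := lt_of_le_of_lt (by positivity) hκ
  have hid : ∀ x y y' : ES d, 2 * inner ℝ (y' - y) x - (‖y'‖ ^ 2 - ‖y‖ ^ 2) =
      dist x y ^ 2 - dist x y' ^ 2 := by
    intro x y y'
    rw [dist_eq_norm, dist_eq_norm, norm_sub_sq_real, norm_sub_sq_real, inner_sub_left,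
      real_inner_comm y x, real_inner_comm y' x]
    ring
  set C : ES d → Set (ES d) := fun y => Ω ∩ ⋂ y' ∈ Y.erase y,
    {x | 2 * inner ℝ (y' - y) x < ‖y'‖ ^ 2 - ‖y‖ ^ 2} with hC
  have hmem : ∀ y x, x ∈ C y ↔ x ∈ Ω ∧ ∀ y' ∈ Y, y' ≠ y → dist x y < dist x y' := by
    intro y x
    simp only [hC, mem_inter_iff, mem_iInter, Finset.mem_erase, mem_ofPred_eq]
    refine and_congr_right fun _ => ⟨fun h y' h1 h2 => ?_, fun h y' h1 => ?_⟩
    · have h3 := h y' ⟨h2, h1⟩
      have h4 := hid x y y'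
      exact lt_of_pow_lt_pow_left₀ 2 dist_nonneg (by linarith)
    · have h3 := pow_lt_pow_left₀ (h y' h1.2 h1.1) dist_nonneg two_ne_zero
      have h4 := hid x y y'
      linarith
  have hCo : ∀ y, IsOpen (C y) := fun y => ho.inter (isOpen_biInter_finset fun y' _ =>
    isOpen_lt (by fun_prop) continuous_const)
  have hCc : ∀ y, Convex ℝ (C y) := by
    intro y
    refine hc.inter (convex_iInter₂ fun y' _ => ?_)
    intro a ha b hb s t hs ht hst
    have := convex_Iio (‖y'‖ ^ 2 - ‖y‖ ^ 2) ha hb hs ht hst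
    simp only [mem_ofPred_eq, inner_add_right, real_inner_smul_right]
    simp only [mem_Iio, smul_eq_mul] at this
    linarith
  have hCr : ∀ y, ∀ x ∈ C y, dist x y < r := by
    intro y x hx
    obtain ⟨h1, h2⟩ := (hmem y x).mp hx
    obtain ⟨y', h3, h4⟩ := hcov x h1
    by_cases h : y' = y
    · rwa [← h]
    · exact (h2 y' h3 h).trans h4
  refine bracket ho.measurableSet hb.measure_lt_top.ne Y hY C (fun y => (hCo y).measurableSet)
    (fun y _ => inter_subset_left) ?_ hκ0 (fun u g h => ?_) ht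
  · have h1 : ∀ᵐ x : ES d, ∀ y ∈ Y, ∀ y' ∈ Y, y' ≠ y →
        inner ℝ (y' - y) x ≠ (‖y'‖ ^ 2 - ‖y‖ ^ 2) / 2 := by
      refine (ae_ball_iff Y.countable_toSet).mpr fun y _ =>
        (ae_ball_iff Y.countable_toSet).mpr fun y' _ => ?_
      by_cases h : y' = y
      · exact Eventually.of_forall fun x h' => absurd h h'
      · filter_upwards [null_hyper (sub_ne_zero.mpr h) ((‖y'‖ ^ 2 - ‖y‖ ^ 2) / 2)] with x hx _
          using hx
    filter_upwards [h1] with x hx hxΩ
    obtain ⟨y₀, hy₀, -⟩ := hcov x hxΩ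
    obtain ⟨y, hy, hmin⟩ := Y.exists_min_image (fun y => dist x y) ⟨y₀, hy₀⟩
    refine ⟨y, hy, (hmem y x).mpr ⟨hxΩ, fun y' h1 h2 => lt_of_le_of_ne (hmin y' h1) fun h => ?_⟩⟩
    apply hx y hy y' h1 h2
    have h4 := hid x y y'
    rw [h] at h4
    linarith
  · have hex : ∀ y, ∃ c : ℝ, ∫ x in C y, (u x - c) ^ 2 ≤ κ * ∫ x in C y, ‖g x‖ ^ 2 := fun y =>
      payne_weinberger hd (hCo y) (hCc y) (hb.subset inter_subset_left) (D := 2 * r)
        (fun a ha b hb => by
          rw [← dist_eq_norm]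
          linarith [dist_triangle_right a b y, hCr y a ha, hCr y b hb]) hκ u g
        (h1_mono inter_subset_left ho.measurableSet h)
    choose c hc' using hex
    refine ⟨c, (Finset.sum_le_sum fun y _ => hc' y).trans ?_⟩
    rw [← Finset.mul_sum]
    refine mul_le_mul_of_nonneg_left ?_ hκ0.le
    have hi : IntegrableOn (fun x => ‖g x‖ ^ 2) Ω := h.int_sq
    rw [← integral_biUnion_finset _ (fun y _ => (hCo y).measurableSet) ?_
      fun y _ => hi.mono_set inter_subset_left]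
    · exact setIntegral_mono_set hi (Eventually.of_forall fun _ => sq_nonneg _)
        (iUnion₂_subset fun y _ => inter_subset_left).eventuallyLE
    · intro y hy y' hy' hne
      rw [Function.onFun, Set.disjoint_left]
      intro x h1 h2
      exact lt_asymm (((hmem y x).mp h1).2 y' hy' hne.symm) (((hmem y' x).mp h2).2 y hy hne)

lemma diam_of_cov {Ω : Set (ES d)} (hc : Convex ℝ Ω) {k : ℕ} (hk : 1 ≤ k) {r : ℝ}
    (hcov : Cov Ω k r) {x y : ES d} (hx : x ∈ Ω) (hy : y ∈ Ω) : ‖y - x‖ ≤ 2 * k * r := by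
  classical
  obtain ⟨Y, hY, hcov⟩ := hcov
  have hk0 : (0 : ℝ) < k := by exact_mod_cast hk
  have hex : ∀ i : ℕ, ∃ z, i ∈ Finset.range (k + 1) →
      z ∈ Y ∧ dist (x + ((i : ℝ) / k) • (y - x)) z < r := by
    intro i
    by_cases hi : i ∈ Finset.range (k + 1)
    · have hi' : (i : ℝ) ≤ k := by exact_mod_cast Nat.lt_succ_iff.mp (Finset.mem_range.mp hi)
      obtain ⟨z, h1, h2⟩ := hcov _ (hc.add_smul_sub_mem hx hy (t := (i : ℝ) / k)
        ⟨by positivity, by rwa [div_le_one hk0]⟩)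
      exact ⟨z, fun _ => ⟨h1, h2⟩⟩
    · exact ⟨0, fun h => absurd h hi⟩
  choose z hz using hex
  obtain ⟨i, hi, j, hj, hij, h⟩ := Finset.exists_ne_map_eq_of_card_lt_of_maps_to
    (s := Finset.range (k + 1)) (t := Y) (by simp; omega) (f := z) fun i hi => (hz i hi).1
  have h1 := (hz i hi).2
  have h2 := (hz j hj).2
  rw [h] at h1
  have h3 := dist_triangle_right (x + ((i : ℝ) / k) • (y - x)) (x + ((j : ℝ) / k) • (y - x)) (z j)
  rw [dist_add_left, dist_eq_norm, ← sub_smul, norm_smul, ← sub_div, norm_div, Real.norm_eq_abs,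
    Real.norm_of_nonneg hk0.le] at h3
  have h4 : (1 : ℝ) ≤ |(i : ℝ) - j| := by
    have : (1 : ℤ) ≤ |(i : ℤ) - j| := Int.one_le_abs (by omega)
    exact_mod_cast this
  have h5 : 1 / k * ‖y - x‖ ≤ |(i : ℝ) - j| / k * ‖y - x‖ := by gcongr
  have h6 : 1 / k * ‖y - x‖ ≤ 2 * r := by linarith
  rw [div_mul_eq_mul_div, one_mul, div_le_iff₀ hk0] at h6
  linarith

lemma mass_ball {Ω : Set (ES d)} (hc : Convex ℝ Ω) (hb : Bornology.IsBounded Ω) {x₀ : ES d}
    (hx₀ : x₀ ∈ Ω) {s t : ℝ} (ht0 : 0 < t) (ht1 : t ≤ 1) (h : ∀ x ∈ Ω, t * ‖x - x₀‖ < s) :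
    t ^ d * volume.real Ω ≤ volume.real (Ω ∩ ball x₀ s) := by
  have h1 : AffineMap.homothety x₀ t '' Ω ⊆ Ω ∩ ball x₀ s := by
    rintro _ ⟨x, hx, rfl⟩
    rw [AffineMap.homothety_apply, vsub_eq_sub, vadd_eq_add, add_comm]
    refine ⟨hc.add_smul_sub_mem hx₀ hx ⟨ht0.le, ht1⟩, ?_⟩
    rw [mem_ball, dist_eq_norm, add_sub_cancel_left, norm_smul, Real.norm_of_nonneg ht0.le]
    exact h x hx
  have h2 := measureReal_mono (μ := volume) h1 (hb.subset inter_subset_left).measure_lt_top.ne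
  rwa [measureReal_def, Measure.addHaar_image_homothety, ENNReal.toReal_mul,
    ENNReal.toReal_ofReal (abs_nonneg _), finrank_euclideanSpace_fin,
    abs_of_pos (pow_pos ht0 d)] at h2

lemma doubling (ν : Measure (ES d)) [IsFiniteMeasure ν] (x₀ : ES d) {r s : ℝ} (hs : 0 < s)
    (h0 : ν (ball x₀ (r - s / 2)) ≠ 0) (h : ν univ ≤ 2 * ν (ball x₀ (r - s / 2))) :
    ∃ y ∈ ball x₀ r, ν (ball y (s / 2)) ≠ 0 ∧ ν (ball y s) ≤ 2 ^ (d + 2) * ν (ball y (s / 2)) := by
  by_contra hcon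
  push Not at hcon
  have hT : ∀ ρ : ℝ, MeasurableSet {p : ES d × ES d | dist p.2 p.1 < ρ} := fun ρ =>
    (isOpen_lt (by fun_prop) continuous_const).measurableSet
  have swap : ∀ ρ : ℝ, ∫⁻ y in ball x₀ r, ν (ball y ρ) =
      ∫⁻ x, (volume.restrict (ball x₀ r)) (ball x ρ) ∂ν := by
    intro ρ
    have h1 := Measure.prod_apply (μ := volume.restrict (ball x₀ r)) (ν := ν) (hT ρ)
    have h2 := Measure.prod_apply_symm (μ := volume.restrict (ball x₀ r)) (ν := ν) (hT ρ)
    rw [h1] at h2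
    refine h2.trans (lintegral_congr fun x => ?_)
    congr 1
    ext y
    simp [dist_comm]
  set β := volume (ball (0 : ES d) (s / 2)) with hβ
  have hβ0 : β ≠ 0 := (measure_ball_pos volume _ (half_pos hs)).ne'
  have hβ1 : β ≠ ⊤ := measure_ball_lt_top.ne
  have h1 : ∫⁻ y in ball x₀ r, ν (ball y s) ≤ 2 ^ d * β * ν univ := by
    rw [swap, ← lintegral_const]
    refine lintegral_mono fun x => (Measure.restrict_apply_le _ _).trans (le_of_eq ?_)
    have e : s = 2 * (s / 2) := by ring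
    rw [e, Measure.addHaar_ball_mul_of_pos volume x two_pos, finrank_euclideanSpace_fin,
      ENNReal.ofReal_pow zero_le_two]
    simp [hβ]
  have h2 : β * ν (ball x₀ (r - s / 2)) ≤ ∫⁻ y in ball x₀ r, ν (ball y (s / 2)) := by
    rw [swap, ← setLIntegral_const]
    refine le_trans (setLIntegral_mono' measurableSet_ball fun x hx => ?_)
      (setLIntegral_le_lintegral _ _)
    rw [Measure.restrict_apply measurableSet_ball, inter_eq_left.mpr,
      Measure.addHaar_ball_center]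
    intro z hz
    rw [mem_ball] at hx hz ⊢
    linarith [dist_triangle z x x₀]
  have h3 : 2 ^ (d + 2) * ∫⁻ y in ball x₀ r, ν (ball y (s / 2)) ≤
      ∫⁻ y in ball x₀ r, ν (ball y s) := by
    rw [← lintegral_const_mul' _ _ (by simp)]
    refine setLIntegral_mono' measurableSet_ball fun y hy => ?_
    by_cases h4 : ν (ball y (s / 2)) = 0
    · simp [h4]
    · exact (hcon y hy h4).le
  have h4 : 2 * (2 ^ (d + 1) * (β * ν (ball x₀ (r - s / 2)))) ≤
      1 * (2 ^ (d + 1) * (β * ν (ball x₀ (r - s / 2)))) := by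
    calc 2 * (2 ^ (d + 1) * (β * ν (ball x₀ (r - s / 2))))
        = 2 ^ (d + 2) * (β * ν (ball x₀ (r - s / 2))) := by ring
      _ ≤ 2 ^ d * β * ν univ := (mul_le_mul_right h2 _).trans (h3.trans h1)
      _ ≤ 2 ^ d * β * (2 * ν (ball x₀ (r - s / 2))) := mul_le_mul_right h _
      _ = 1 * (2 ^ (d + 1) * (β * ν (ball x₀ (r - s / 2)))) := by ring
  rw [ENNReal.mul_le_mul_iff_left (mul_ne_zero (by simp) (mul_ne_zero hβ0 h0))
    (ENNReal.mul_ne_top (by simp) (ENNReal.mul_ne_top hβ1 (measure_ne_top _ _)))] at h4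
  norm_num at h4

lemma greedy {P : ES d → Prop} {k : ℕ} {s : ℝ} (hs : 0 < s)
    (h : ∀ Y : Finset (ES d), Y.card ≤ k → ∃ y, P y ∧ ∀ y' ∈ Y, s ≤ dist y y') :
    ∃ y : Fin (k + 1) → ES d, (∀ i, P (y i)) ∧ ∀ i j, i ≠ j → s ≤ dist (y i) (y j) := by
  classical
  have key : ∀ j ≤ k + 1, ∃ Y : Finset (ES d), Y.card = j ∧ (∀ y ∈ Y, P y) ∧
      ∀ y ∈ Y, ∀ y' ∈ Y, y ≠ y' → s ≤ dist y y' := by
    intro j
    induction j with
    | zero => exact fun _ => ⟨∅, by simp⟩
    | succ j ih =>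
      intro hj
      obtain ⟨Y, h1, h2, h3⟩ := ih (by omega)
      obtain ⟨y, h4, h5⟩ := h Y (by omega)
      have h6 : y ∉ Y := fun hy => by
        have := h5 y hy
        rw [dist_self] at this
        linarith
      refine ⟨insert y Y, by rw [Finset.card_insert_of_notMem h6, h1], ?_, ?_⟩
      · intro z hz
        rcases Finset.mem_insert.mp hz with rfl | hz
        · exact h4
        · exact h2 z hz
      · intro z hz z' hz' hne
        rcases Finset.mem_insert.mp hz with rfl | hz1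
        · exact h5 z' ((Finset.mem_insert.mp hz').resolve_left hne.symm)
        · rcases Finset.mem_insert.mp hz' with rfl | hz2
          · rw [dist_comm]; exact h5 z hz1
          · exact h3 z hz1 z' hz2 hne
  obtain ⟨Y, h1, h2, h3⟩ := key (k + 1) le_rfl
  let e := (Finset.equivFinOfCardEq h1).symm
  exact ⟨fun i => (e i).1, fun i => h2 _ (e i).2, fun i j hij =>
    h3 _ (e i).2 _ (e j).2 fun h => hij (e.injective (Subtype.ext h))⟩

end Pool.Agent.Lib.NV46
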