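import Pool.Agent.Lib.NV46.Low1

/-! Test functions with exponential decay cut off near a doubling point. -/

set_option autoImplicit false

open MeasureTheory Set Filter Topology Metric
open scoped ContDiff NNReal ENNReal

namespace Pool.Agent.Lib.NV46

open Pool.Agent.Lib.MP_770ffc_an

variable {d : ℕ}

lemma cutoff (d : ℕ) : ∃ C : ℝ, ∀ (y : ES d) (s : ℝ), 0 < s → ∃ χ : ES d → ℝ, ContDiff ℝ 1 χ ∧
    (∀ x, 0 ≤ χ x) ∧ (∀ x ∈ ball y (s / 2), χ x = 1) ∧
    (∀ x, s ≤ dist x y → χ x = 0 ∧ fderiv ℝ χ x = 0) ∧ ∀ x, ‖fderiv ℝ χ x‖ ≤ C / s := by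
  let φ : ContDiffBump (0 : ES d) := ⟨1 / 2, 3 / 4, by norm_num, by norm_num⟩
  obtain ⟨C, hC⟩ := ContDiff.lipschitzWith_of_hasCompactSupport (𝕂 := ℝ) φ.hasCompactSupport
    (φ.contDiff (n := 1)) (by simp)
  refine ⟨C, fun y s hs => ⟨fun x => φ (s⁻¹ • (x - y)), ?_, fun x => φ.nonneg, fun x hx => ?_,
    fun x hx => ?_, fun x => ?_⟩⟩
  · exact (φ.contDiff (n := 1)).comp (by fun_prop)
  · apply φ.one_of_mem_closedBall
    rw [mem_ball, dist_eq_norm] at hx
    rw [mem_closedBall, dist_zero_right, norm_smul, norm_inv, Real.norm_of_nonneg hs.le,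
      inv_mul_le_iff₀ hs]
    simp only [φ]
    linarith
  · have h1 : (fun x => φ (s⁻¹ • (x - y))) =ᶠ[𝓝 x] fun _ => 0 := by
      have h2 : ∀ᶠ z in 𝓝 x, 3 / 4 * s < dist z y :=
        (continuous_id.dist continuous_const).continuousAt.eventually
          (lt_mem_nhds (by simp only [id]; linarith))
      filter_upwards [h2] with z hz
      apply φ.zero_of_le_dist
      rw [dist_eq_norm] at hz
      rw [dist_zero_right, norm_smul, norm_inv, Real.norm_of_nonneg hs.le, le_inv_mul_iff₀ hs]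
      simp only [φ]
      linarith
    exact ⟨h1.self_of_nhds, by rw [h1.fderiv_eq]; simp⟩
  · refine norm_fderiv_le_of_lip' ℝ (by positivity) (Eventually.of_forall fun z => ?_)
    have h1 := hC.dist_le_mul (s⁻¹ • (z - y)) (s⁻¹ • (x - y))
    rw [dist_eq_norm, dist_eq_norm, ← smul_sub, sub_sub_sub_cancel_right, norm_smul, norm_inv,
      Real.norm_of_nonneg hs.le] at h1
    rw [div_eq_mul_inv, mul_assoc]
    exact h1

lemma decay (x₀ : ES d) {s b : ℝ} (hs : 0 < s) (hb : 0 ≤ b) : ∃ u : ES d → ℝ, ContDiff ℝ 1 u ∧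
    (∀ x, 0 ≤ u x) ∧ (∀ x, ‖fderiv ℝ u x‖ ≤ b * u x) ∧
    (∀ x, u x ^ 2 ≤ Real.exp (-(2 * b * dist x x₀))) ∧
    ∀ x ∈ ball x₀ s, Real.exp (-(4 * b * s)) ≤ u x ^ 2 := by
  set ψ : ES d → ℝ := fun x => √(s ^ 2 + ‖x - x₀‖ ^ 2) with hψ
  have hψc : ContDiff ℝ 1 ψ :=
    (contDiff_const.add ((contDiff_id.sub contDiff_const).norm_sq ℝ)).sqrt fun x => by positivity
  have hge : ∀ x, ‖x - x₀‖ ≤ ψ x := fun x =>
    Real.le_sqrt_of_sq_le (by nlinarith [sq_nonneg s])
  have hsq : ∀ x, ψ x ^ 2 = s ^ 2 + ‖x - x₀‖ ^ 2 := fun x => Real.sq_sqrt (by positivity)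
  have hlip : LipschitzWith 1 ψ := by
    refine LipschitzWith.of_le_add fun x y => ?_
    have h1 : ‖x - x₀‖ ≤ ‖y - x₀‖ + dist x y := by
      rw [← dist_eq_norm, ← dist_eq_norm]
      linarith [dist_triangle x y x₀]
    have h2 := pow_le_pow_left₀ (norm_nonneg _) h1 2
    refine Real.sqrt_le_iff.mpr ⟨add_nonneg (Real.sqrt_nonneg _) dist_nonneg, ?_⟩
    nlinarith [hsq y, mul_le_mul_of_nonneg_right (hge y) (dist_nonneg (x := x) (y := y))]
  have hsq2 : ∀ x, Real.exp (-(b * ψ x)) ^ 2 = Real.exp (-(2 * b * ψ x)) := fun x => by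
    rw [← Real.exp_nat_mul]; congr 1; push_cast; ring
  refine ⟨fun x => Real.exp (-(b * ψ x)), (contDiff_const.mul hψc).neg.exp,
    fun x => (Real.exp_pos _).le, fun x => ?_, fun x => ?_, fun x hx => ?_⟩
  · have h1 := (((hψc.differentiable (by simp) x).hasFDerivAt.const_mul b).fun_neg).exp
    have h2 := norm_fderiv_le_of_lipschitz ℝ hlip (x₀ := x)
    rw [HasFDerivAt.fderiv h1, norm_smul, norm_neg, norm_smul, Real.norm_of_nonneg hb,
      Real.norm_of_nonneg (Real.exp_pos _).le, mul_comm]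
    simp only [NNReal.coe_one] at h2
    exact mul_le_mul_of_nonneg_right (mul_le_of_le_one_right hb h2) (Real.exp_pos _).le
  · rw [hsq2, Real.exp_le_exp, dist_eq_norm]
    nlinarith [mul_le_mul_of_nonneg_left (hge x) hb]
  · rw [hsq2, Real.exp_le_exp]
    rw [mem_ball, dist_eq_norm] at hx
    have h1 : ψ x ≤ 2 * s := Real.sqrt_le_iff.mpr ⟨by positivity, by
      nlinarith [pow_le_pow_left₀ (norm_nonneg _) hx.le 2, sq_nonneg s]⟩
    nlinarith [mul_le_mul_of_nonneg_left h1 hb]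

lemma one_step (d : ℕ) : ∃ C : ℝ, 0 ≤ C ∧ ∀ (Ω : Set (ES d)) (x₀ : ES d) (s R b η : ℝ),
    MeasurableSet Ω → Bornology.IsBounded Ω → 0 < s → 4 * s ≤ R → 0 ≤ b → 0 < η →
    0 < volume.real (Ω ∩ ball x₀ s) →
    volume.real Ω ≤ Real.exp (2 * b * (R - 5 * s)) * volume.real (Ω ∩ ball x₀ s) →
    ∃ y, dist y x₀ < R - 2 * s ∧ ∃ f : ES d → ℝ, ContDiff ℝ 1 f ∧
      (∀ x, s ≤ dist x y → f x = 0 ∧ fderiv ℝ f x = 0) ∧ 0 < ∫ x in Ω, f x ^ 2 ∧
      ∫ x in Ω, ‖fderiv ℝ f x‖ ^ 2 ≤
        ((1 + η) * b ^ 2 + (1 + 1 / η) * C / s ^ 2) * ∫ x in Ω, f x ^ 2 := by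
  obtain ⟨C, hC⟩ := cutoff d
  refine ⟨C ^ 2 * 2 ^ (d + 2), by positivity,
    fun Ω x₀ s R b η hΩ hbd hs hR hb hη hpos hvol => ?_⟩
  obtain ⟨u, hu, hu0, hdu, hup, hlow⟩ := decay x₀ hs hb
  have hu2 : Continuous fun x => u x ^ 2 := hu.continuous.pow 2
  have hi : ∀ A : Set (ES d), IntegrableOn (fun x => u x ^ 2) (Ω ∩ A) := fun A =>
    intOn (hbd.subset inter_subset_left) hu2
  set I : Set (ES d) → ℝ := fun A => ∫ x in Ω ∩ A, u x ^ 2 with hI
  have hI0 : ∀ A, 0 ≤ I A := fun A => integral_nonneg fun _ => sq_nonneg _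
  set ν := (volume.restrict Ω).withDensity fun x => ENNReal.ofReal (u x ^ 2) with hν
  have hνI : ∀ A, MeasurableSet A → ν A = ENNReal.ofReal (I A) := fun A hA => by
    rw [hν, withDensity_apply _ hA, Measure.restrict_restrict hA, inter_comm,
      ofReal_integral_eq_lintegral_ofReal (hi A) (Eventually.of_forall fun _ => sq_nonneg _)]
  have : IsFiniteMeasure ν := ⟨by rw [hνI _ MeasurableSet.univ]; exact ENNReal.ofReal_lt_top⟩
  have hfin : ∀ A : Set (ES d), volume (Ω ∩ A) ≠ ⊤ := fun A =>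
    (hbd.subset inter_subset_left).measure_lt_top.ne
  set B := ball x₀ (R - 2 * s - s / 2) with hB
  have h1 : Real.exp (-(4 * b * s)) * volume.real (Ω ∩ ball x₀ s) ≤ I B := by
    calc _ ≤ I (ball x₀ s) :=
          setIntegral_ge_of_const_le_real (hΩ.inter measurableSet_ball) (hfin _)
            (fun x hx => hlow x hx.2) (hi _)
      _ ≤ I B := setIntegral_mono_set (hi _) (Eventually.of_forall fun _ => sq_nonneg _)
          (inter_subset_inter_right _ (ball_subset_ball (by linarith))).eventuallyLE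
  have h2 : I Bᶜ ≤ Real.exp (-(2 * b * (R - 2 * s - s / 2))) * volume.real Ω := by
    have h3 := norm_setIntegral_le_of_norm_le_const (μ := volume) (s := Ω ∩ Bᶜ)
      (f := fun x => u x ^ 2) (C := Real.exp (-(2 * b * (R - 2 * s - s / 2)))) (hfin _).lt_top
      fun x hx => by
        rw [Real.norm_of_nonneg (sq_nonneg _)]
        refine (hup x).trans (Real.exp_le_exp.mpr ?_)
        have h4 : R - 2 * s - s / 2 ≤ dist x x₀ := not_lt.mp hx.2
        nlinarith [mul_le_mul_of_nonneg_left h4 hb]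
    refine (le_abs_self _).trans (h3.trans ?_)
    exact mul_le_mul_of_nonneg_left
      (measureReal_mono inter_subset_left hbd.measure_lt_top.ne) (Real.exp_pos _).le
  have h3 : I Bᶜ ≤ I B := by
    refine h2.trans (le_trans ?_ h1)
    refine (mul_le_mul_of_nonneg_left hvol (Real.exp_pos _).le).trans ?_
    rw [← mul_assoc, ← Real.exp_add]
    exact mul_le_mul_of_nonneg_right (Real.exp_le_exp.mpr (by nlinarith [mul_nonneg hb hs.le]))
      hpos.le
  have hB0 : 0 < I B := lt_of_lt_of_le (mul_pos (Real.exp_pos _) hpos) h1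
  obtain ⟨y, hy, hy0, hy1⟩ := doubling ν x₀ (r := R - 2 * s) hs
    (by rw [hνI _ measurableSet_ball]; simpa using hB0) (by
      rw [← hB, ← measure_add_measure_compl (s := B) measurableSet_ball,
        two_mul, hνI _ measurableSet_ball.compl, hνI _ measurableSet_ball]
      exact add_le_add_right (ENNReal.ofReal_le_ofReal h3) _)
  rw [hνI _ measurableSet_ball] at hy0
  rw [hνI _ measurableSet_ball, hνI _ measurableSet_ball] at hy1
  have hy2 : 0 < I (ball y (s / 2)) := by simpa using hy0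
  have hy3 : I (ball y s) ≤ 2 ^ (d + 2) * I (ball y (s / 2)) := by
    rw [← ENNReal.ofReal_le_ofReal_iff (by positivity), ENNReal.ofReal_mul (by positivity),
      ENNReal.ofReal_pow zero_le_two]
    simpa using hy1
  obtain ⟨χ, hχ, hχ0, hχ1, hχ2, hχ3⟩ := hC y s hs
  have hf : ContDiff ℝ 1 fun x => χ x * u x := hχ.mul hu
  have hdf : ∀ x, fderiv ℝ (fun x => χ x * u x) x = χ x • fderiv ℝ u x + u x • fderiv ℝ χ x :=
    fun x => fderiv_fun_mul (hχ.differentiable (by simp) x) (hu.differentiable (by simp) x)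
  have hif : IntegrableOn (fun x => (χ x * u x) ^ 2) Ω := intOn hbd (hf.continuous.pow 2)
  have h4 : I (ball y (s / 2)) ≤ ∫ x in Ω, (χ x * u x) ^ 2 := by
    refine le_trans (le_of_eq (setIntegral_congr_fun (hΩ.inter measurableSet_ball)
      fun x hx => ?_)) (setIntegral_mono_set hif (Eventually.of_forall fun _ => sq_nonneg _)
        inter_subset_left.eventuallyLE)
    simp only [hχ1 x hx.2, one_mul]
  refine ⟨y, hy, _, hf, fun x hx => ?_, hy2.trans_le h4, ?_⟩
  · rw [hdf, (hχ2 x hx).1, (hχ2 x hx).2]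
    simp
  · have hind : IntegrableOn ((ball y s).indicator fun x => u x ^ 2) Ω :=
      (intOn hbd hu2).indicator measurableSet_ball
    have h5 : ∀ x, ‖fderiv ℝ (fun x => χ x * u x) x‖ ^ 2 ≤ (1 + η) * b ^ 2 * (χ x * u x) ^ 2 +
        (1 + 1 / η) * (C / s) ^ 2 * (ball y s).indicator (fun x => u x ^ 2) x := by
      intro x
      by_cases hx : x ∈ ball y s
      · have h6 : ‖fderiv ℝ (fun x => χ x * u x) x‖ ≤ b * (χ x * u x) + C / s * u x := by
          rw [hdf]
          refine (norm_add_le _ _).trans ?_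
          rw [norm_smul, norm_smul, Real.norm_of_nonneg (hχ0 x), Real.norm_of_nonneg (hu0 x)]
          nlinarith [mul_le_mul_of_nonneg_left (hdu x) (hχ0 x),
            mul_le_mul_of_nonneg_left (hχ3 x) (hu0 x)]
        refine (pow_le_pow_left₀ (norm_nonneg _) h6 2).trans ?_
        rw [indicator_of_mem hx]
        generalize χ x * u x = p
        have h7 : 0 ≤ 1 / η * (η * (b * p) - C / s * u x) ^ 2 := by positivity
        have h8 : 1 / η * (η * (b * p) - C / s * u x) ^ 2 = η * (b * p) ^ 2 -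
          2 * (b * p) * (C / s * u x) + 1 / η * (C / s * u x) ^ 2 := by field_simp; ring
        nlinarith
      · rw [indicator_of_notMem hx, hdf, (hχ2 x (not_lt.mp hx)).1, (hχ2 x (not_lt.mp hx)).2]
        simp
    have h6 := setIntegral_mono_on (intOn hbd ((hf.continuous_fderiv (by simp)).norm.pow 2))
      ((hif.const_mul _).add (hind.const_mul _)) hΩ fun x _ => h5 x
    refine h6.trans ?_
    simp only [Pi.add_apply]
    rw [integral_add (hif.const_mul _) (hind.const_mul _), integral_const_mul, integral_const_mul,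
      setIntegral_indicator measurableSet_ball, add_mul ((1 + η) * b ^ 2)]
    have h7 : (1 + 1 / η) * (C / s) ^ 2 * I (ball y s) ≤
        (1 + 1 / η) * (C / s) ^ 2 * (2 ^ (d + 2) * ∫ x in Ω, (χ x * u x) ^ 2) :=
      mul_le_mul_of_nonneg_left (hy3.trans (mul_le_mul_of_nonneg_left h4 (by positivity)))
        (by positivity)
    refine add_le_add_right (h7.trans (le_of_eq ?_)) _
    ring

end Pool.Agent.Lib.NV46
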