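import Pool.Agent.Lib.NV46.Low2

/-! The lower bound for the ratio of Neumann eigenvalues. -/

set_option autoImplicit false

open MeasureTheory Set Filter Topology Metric
open scoped ContDiff NNReal ENNReal

namespace Pool.Agent.Lib.NV46

open Pool.Agent.Lib.MP_770ffc_an

variable {d : ℕ}

lemma pack (d : ℕ) : ∃ C : ℝ, 0 ≤ C ∧ ∀ (Ω₁ Ω₂ : Set (ES d)) (k : ℕ) (s R b η : ℝ),
    MeasurableSet Ω₂ → Bornology.IsBounded Ω₂ → 0 < s → 4 * s ≤ R → 0 ≤ b → 0 < η →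
    ¬ Cov Ω₁ k R → (∀ x₀ ∈ Ω₁, 0 < volume.real (Ω₂ ∩ ball x₀ s) ∧
      volume.real Ω₂ ≤ Real.exp (2 * b * (R - 5 * s)) * volume.real (Ω₂ ∩ ball x₀ s)) →
    (1 + η) * b ^ 2 + (1 + 1 / η) * C / s ^ 2 ∈ Adm Ω₂ k := by
  obtain ⟨C, hC0, hC⟩ := one_step d
  refine ⟨C, hC0, fun Ω₁ Ω₂ k s R b η hm hbd hs hR hb hη hcov h => ?_⟩
  obtain ⟨y, hy, hsep⟩ := greedy (k := k) (s := 2 * s) (by positivity)
    (P := fun y : ES d => ∃ f : ES d → ℝ, ContDiff ℝ 1 f ∧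
      (∀ x, s ≤ dist x y → f x = 0 ∧ fderiv ℝ f x = 0) ∧ 0 < ∫ x in Ω₂, f x ^ 2 ∧
      ∫ x in Ω₂, ‖fderiv ℝ f x‖ ^ 2 ≤
        ((1 + η) * b ^ 2 + (1 + 1 / η) * C / s ^ 2) * ∫ x in Ω₂, f x ^ 2) fun Y hY => by
      have h1 : ∃ x₀ ∈ Ω₁, ∀ y ∈ Y, R ≤ dist x₀ y := by
        by_contra h2
        push Not at h2
        exact hcov ⟨Y, hY, h2⟩
      obtain ⟨x₀, hx₀, h1⟩ := h1
      obtain ⟨y, h2, h3⟩ := hC Ω₂ x₀ s R b η hm hbd hs hR hb hη (h x₀ hx₀).1 (h x₀ hx₀).2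
      exact ⟨y, h3, fun y' hy' => by linarith [h1 y' hy', dist_triangle_left x₀ y' y]⟩
  choose f hf hz hpos hle using hy
  refine adm_of_disjoint hm hbd f hf (fun x i j hij => ?_) hpos hle
  by_cases h1 : s ≤ dist x (y i)
  · exact Or.inl (hz i x h1)
  · exact Or.inr (hz j x (by linarith [hsep i j hij, dist_triangle_left (y i) (y j) x]))

lemma core {k : ℕ} (hk : 1 ≤ k) (hd : 0 < d) {η : ℝ} (hη : 0 < η) (hη1 : η ≤ 1 / 10) :
    ∃ L B : ℝ, 0 ≤ L ∧ 0 ≤ B ∧ ∀ V : ℝ, 1 ≤ V → ∀ Ω₁ Ω₂ : Set (ES d), IsOpen Ω₁ → Convex ℝ Ω₁ →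
      Ω₁.Nonempty → MeasurableSet Ω₂ → Bornology.IsBounded Ω₂ → Ω₁ ⊆ Ω₂ →
      volume.real Ω₂ ≤ V * volume.real Ω₁ → ∃ R : ℝ, 0 < R ∧
        (∀ t ∈ Adm Ω₁ k, Real.pi ^ 2 / (4 * (1 + η) ^ 5 * R ^ 2) ≤ t) ∧
        ((1 + η) * ((Real.log V + L) / (2 * (1 - 5 * η))) ^ 2 + B) / R ^ 2 ∈ Adm Ω₂ k := by
  obtain ⟨C, hC0, hC⟩ := pack d
  have hk0 : (1 : ℝ) ≤ k := by exact_mod_cast hk
  set t : ℝ := η / (4 * k) with ht
  have ht0 : 0 < t := by positivity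
  have ht1 : t ≤ 1 := by rw [ht, div_le_one (by positivity)]; linarith
  have hc0 : 0 < t ^ d := by positivity
  refine ⟨-Real.log (t ^ d), (1 + 1 / η) * C / η ^ 2,
    neg_nonneg.mpr (Real.log_nonpos hc0.le (pow_le_one₀ ht0.le ht1)), by positivity,
    fun V hV Ω₁ Ω₂ ho hc hne hm hbd hsub hvol => ?_⟩
  have hb1 := hbd.subset hsub
  obtain ⟨x₁, hx₁⟩ := hne
  have : Nontrivial (ES d) := Module.nontrivial_of_finrank_pos (R := ℝ) (by simpa using hd)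
  obtain ⟨x₂, hx₂, hx₁₂⟩ : ∃ x₂ ∈ Ω₁, x₂ ≠ x₁ := by
    obtain ⟨x, h1, h2⟩ := ((eventually_nhdsWithin_of_eventually_nhds (s := {x₁}ᶜ)
      (ho.mem_nhds hx₁)).and self_mem_nhdsWithin).exists
    exact ⟨x, h1, h2⟩
  have hδ : 0 < ‖x₂ - x₁‖ / (2 * k) := div_pos (norm_pos_iff.mpr (sub_ne_zero.mpr hx₁₂))
    (by positivity)
  have hlb : ∀ r ∈ {r | Cov Ω₁ k r}, ‖x₂ - x₁‖ / (2 * k) ≤ r := fun r hr => by
    rw [div_le_iff₀ (by positivity)]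
    linarith [diam_of_cov hc hk hr hx₁ hx₂]
  have hSne : {r | Cov Ω₁ k r}.Nonempty := by
    obtain ⟨r, hr⟩ := hb1.subset_ball x₁
    exact ⟨r, {x₁}, by simpa using hk, fun x hx => ⟨x₁, by simp, hr hx⟩⟩
  set ρ := sInf {r | Cov Ω₁ k r} with hρ
  have hρ0 : 0 < ρ := hδ.trans_le (le_csInf hSne hlb)
  set R := ρ / (1 + η) with hR
  have hR0 : 0 < R := by positivity
  have hRρ : ρ = (1 + η) * R := by rw [hR]; field_simp
  obtain ⟨r, hr, hr'⟩ := exists_lt_of_csInf_lt hSne (show ρ < (1 + η) * ρ by nlinarith)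
  have hr0 : 0 < r := hδ.trans_le (hlb r hr)
  have hnc : ¬ Cov Ω₁ k R := fun h => by
    have := csInf_le ⟨_, hlb⟩ (show R ∈ {r | Cov Ω₁ k r} from h)
    nlinarith
  have h5 : 0 < 1 - 5 * η := by linarith
  have hL : 0 ≤ Real.log V - Real.log (t ^ d) :=
    sub_nonneg.mpr (Real.log_le_log hc0 ((pow_le_one₀ ht0.le ht1).trans hV))
  refine ⟨R, hR0, fun τ hτ => ?_, ?_⟩
  · have h1 := voronoi hd ho hc hb1 hr (κ := 4 * (1 + η) ^ 5 * R ^ 2 / Real.pi ^ 2) ?_ hτ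
    · rwa [one_div_div] at h1
    · refine div_lt_div_of_pos_right ?_ (by positivity)
      have h2 : r ^ 2 < ((1 + η) * ((1 + η) * R)) ^ 2 :=
        pow_lt_pow_left₀ (by rwa [← hRρ]) hr0.le two_ne_zero
      have h3 : 0 < η * ((1 + η) * ((1 + η) * R)) ^ 2 := by positivity
      nlinarith
  · have h1 := hC Ω₁ Ω₂ k (η * R) R ((Real.log V - Real.log (t ^ d)) / (2 * R * (1 - 5 * η))) η hm
      hbd (by positivity) (by nlinarith) (by positivity) hη hnc fun x₀ hx₀ => ?_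
    · convert h1 using 1
      field_simp
      ring
    have h2 := mass_ball hc hb1 hx₀ ht0 ht1 (s := η * R) fun x hx => by
      have h3 := diam_of_cov hc hk hr hx₀ hx
      have h4 : r < 2 * R := by
        rw [hRρ] at hr'
        nlinarith [mul_pos hR0 (show 0 < 2 - (1 + η) * (1 + η) by nlinarith)]
      rw [ht, div_mul_eq_mul_div, div_lt_iff₀ (by positivity)]
      have h6 : ‖x - x₀‖ < R * (4 * k) := by nlinarith
      nlinarith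
    have h3 : volume.real (Ω₁ ∩ ball x₀ (η * R)) ≤ volume.real (Ω₂ ∩ ball x₀ (η * R)) :=
      measureReal_mono (inter_subset_inter_left _ hsub)
        (hbd.subset inter_subset_left).measure_lt_top.ne
    have h4 : 0 < volume.real Ω₁ :=
      ENNReal.toReal_pos (ho.measure_pos volume ⟨x₁, hx₁⟩).ne' hb1.measure_lt_top.ne
    refine ⟨lt_of_lt_of_le (by positivity) (h2.trans h3), hvol.trans ?_⟩
    have e : 2 * ((Real.log V - Real.log (t ^ d)) / (2 * R * (1 - 5 * η))) * (R - 5 * (η * R)) =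
        Real.log V - Real.log (t ^ d) := by field_simp
    rw [e, Real.exp_sub, Real.exp_log hc0, Real.exp_log (by linarith), div_mul_eq_mul_div,
      mul_div_assoc]
    refine mul_le_mul_of_nonneg_left ?_ (by linarith)
    rw [le_div_iff₀ hc0]
    linarith

theorem lower {k : ℕ} (hk : 1 ≤ k) (hd : 0 < d) {ε : ℝ} (hε : 0 < ε) :
    ∃ V₀ : ℝ, ∀ V ≥ V₀, ∀ Ω₁ Ω₂ : Set (ES d), IsOpen Ω₁ → Convex ℝ Ω₁ → Ω₁.Nonempty →
      MeasurableSet Ω₂ → Bornology.IsBounded Ω₂ → Ω₁ ⊆ Ω₂ →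
      volume.real Ω₂ ≤ V * volume.real Ω₁ →
      (Real.pi ^ 2 - ε) * neumannEig Ω₂ k ≤ Real.log V ^ 2 * neumannEig Ω₁ k := by
  rcases le_or_gt (Real.pi ^ 2 - ε) 0 with ha | ha
  · exact ⟨0, fun V _ Ω₁ Ω₂ _ _ _ _ _ _ _ => (mul_nonpos_of_nonpos_of_nonneg ha
      (eig_nonneg _ _)).trans (mul_nonneg (sq_nonneg _) (eig_nonneg _ _))⟩
  set a := Real.pi ^ 2 - ε with ha'
  obtain ⟨η, hA, hη, hη1⟩ : ∃ η : ℝ, a * ((1 + η) ^ 6 / (1 - 5 * η) ^ 2) < Real.pi ^ 2 ∧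
      η ∈ Ioc (0 : ℝ) (1 / 10) := by
    have h1 : ContinuousAt (fun η : ℝ => a * ((1 + η) ^ 6 / (1 - 5 * η) ^ 2)) 0 := by
      fun_prop (disch := norm_num)
    have h2 := h1.eventually (gt_mem_nhds (show _ < Real.pi ^ 2 by simp [ha', hε]))
    exact ((eventually_nhdsWithin_of_eventually_nhds h2).and
      (Ioc_mem_nhdsGT (by norm_num))).exists
  obtain ⟨L, B, hL, hB, h⟩ := core hk hd hη hη1
  set A := (1 + η) ^ 6 / (1 - 5 * η) ^ 2 with hA'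
  have h5 : 0 < 1 - 5 * η := by linarith
  have hA0 : 0 < A := by positivity
  set M := a * (A * (2 * L + L ^ 2) + 4 * (1 + η) ^ 5 * B) with hM
  refine ⟨Real.exp (max 1 (M / (Real.pi ^ 2 - a * A))),
    fun V hV Ω₁ Ω₂ ho hc hne hm hbd hsub hvol => ?_⟩
  have hl := (Real.le_log_iff_exp_le ((Real.exp_pos _).trans_le hV)).mpr hV
  rw [max_le_iff, div_le_iff₀ (by linarith)] at hl
  have hV1 : 1 ≤ V := (Real.one_le_exp (zero_le_one.trans (le_max_left _ _))).trans hV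
  obtain ⟨R, hR, h1, h2⟩ := h V hV1 Ω₁ Ω₂ ho hc hne hm hbd hsub hvol
  obtain ⟨R', -, -, h3⟩ := h 1 le_rfl Ω₁ Ω₁ ho hc hne ho.measurableSet (hbd.subset hsub)
    subset_rfl (by simp)
  have h4 : _ ≤ neumannEig Ω₁ k := le_csInf ⟨_, h3⟩ h1
  set l := Real.log V
  refine (mul_le_mul_of_nonneg_left (eig_le h2) ha.le).trans
    (le_trans ?_ (mul_le_mul_of_nonneg_left h4 (sq_nonneg _)))
  have e : a * (((1 + η) * ((l + L) / (2 * (1 - 5 * η))) ^ 2 + B) / R ^ 2) =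
      a * (A * (l + L) ^ 2 + 4 * (1 + η) ^ 5 * B) / (4 * (1 + η) ^ 5 * R ^ 2) := by
    rw [hA']; field_simp; ring
  rw [e, ← mul_div_assoc]
  refine div_le_div_of_nonneg_right ?_ (by positivity)
  have h6 : 0 ≤ a * (A * L ^ 2 + 4 * (1 + η) ^ 5 * B) * (l - 1) :=
    mul_nonneg (by positivity) (by linarith [hl.1])
  nlinarith [mul_le_mul_of_nonneg_right hl.2 (show 0 ≤ l by linarith [hl.1])]

end Pool.Agent.Lib.NV46
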