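import Mathlib

/-! The discrete Payne-Weinberger inequality for log-concave weights. -/

set_option autoImplicit false

open Finset Filter Topology

namespace Pool.Agent.Lib.NV46

lemma site_ineq {p a b x y : ℝ} (hp : 0 < p) (ha : 0 < a) (hab : 1 ≤ a * b * p ^ 2) :
    (1 / p - a) * x ^ 2 + (1 / p - b) * y ^ 2 ≤ (y - x) ^ 2 / p := by
  have h1 : (y - x) ^ 2 / p - ((1 / p - a) * x ^ 2 + (1 / p - b) * y ^ 2) =
      ((a * p * x - y) ^ 2 + (a * b * p ^ 2 - 1) * y ^ 2) / (a * p ^ 2) := by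
    field_simp
    ring
  have h2 : 0 ≤ ((a * p * x - y) ^ 2 + (a * b * p ^ 2 - 1) * y ^ 2) / (a * p ^ 2) :=
    div_nonneg (add_nonneg (sq_nonneg _) (mul_nonneg (by linarith) (sq_nonneg _))) (by positivity)
  linarith

lemma dual_hardy (N : ℕ) (p φ : ℕ → ℝ) (hp : ∀ j ≤ N, 0 < p j)
    (hlc : ∀ j, j + 2 ≤ N → p j * p (j + 2) ≤ p (j + 1) ^ 2) (h0 : φ 0 = 0) (hN : φ (N + 1) = 0) :
    (2 - 2 * Real.cos (Real.pi / (N + 1))) * ∑ j ∈ range N, φ (j + 1) ^ 2 / √(p j * p (j + 1)) ≤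
      ∑ j ∈ range (N + 1), (φ (j + 1) - φ j) ^ 2 / p j := by
  set θ := Real.pi / (N + 1) with hθ
  have hN1 : (0 : ℝ) < N + 1 := by positivity
  have hθ0 : 0 < θ := div_pos Real.pi_pos hN1
  have hθN : (N + 1) * θ = Real.pi := by rw [hθ]; field_simp
  set s : ℕ → ℝ := fun j => Real.sin (j * θ) with hs
  have hs0 : ∀ j ≤ N + 1, 0 ≤ s j := by
    intro j hj
    have : (j : ℝ) ≤ N + 1 := by exact_mod_cast hj
    exact Real.sin_nonneg_of_nonneg_of_le_pi (by positivity) (by nlinarith)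
  have hs1 : ∀ j < N, 0 < s (j + 1) := by
    intro j hj
    have : (j : ℝ) + 1 ≤ N := by exact_mod_cast hj
    refine Real.sin_pos_of_pos_of_lt_pi (by positivity) ?_
    push_cast
    nlinarith
  have hrec : ∀ j, s j + s (j + 2) = 2 * Real.cos θ * s (j + 1) := by
    intro j
    simp only [hs]
    push_cast
    have e1 : (j : ℝ) * θ = (j + 1) * θ - θ := by ring
    have e2 : ((j : ℝ) + 2) * θ = (j + 1) * θ + θ := by ring
    rw [e1, e2, Real.sin_sub, Real.sin_add]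
    ring
  set c : ℕ → ℝ := fun j => √(p j * p (j + 1)) with hc
  have hc0 : ∀ j < N, 0 < c j := fun j hj =>
    Real.sqrt_pos.mpr (mul_pos (hp j hj.le) (hp _ hj))
  have hc2 : ∀ j < N, c j ^ 2 = p j * p (j + 1) := fun j hj =>
    Real.sq_sqrt (mul_pos (hp j hj.le) (hp _ hj)).le
  set a : ℕ → ℝ := fun j => s (j + 2) / s (j + 1) / c j with ha
  set b : ℕ → ℝ := fun j => s j / s (j + 1) / c j with hb
  have e1 : ∑ j ∈ range N, (1 / p j - b j) * φ (j + 1) ^ 2 =
      ∑ j ∈ range N, (1 / p (j + 1) - b (j + 1)) * φ (j + 1 + 1) ^ 2 +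
        (1 / p 0 - b 0) * φ (0 + 1) ^ 2 := by
    rw [← sum_range_succ' (fun j => (1 / p j - b j) * φ (j + 1) ^ 2), sum_range_succ, hN]
    ring
  have e2 : ∑ j ∈ range N, ((1 / p (j + 1) - a j) * φ (j + 1) ^ 2 +
      (1 / p j - b j) * φ (j + 1) ^ 2) ≤ ∑ j ∈ range (N + 1), (φ (j + 1) - φ j) ^ 2 / p j := by
    rw [sum_add_distrib, e1, ← add_assoc, ← sum_add_distrib, sum_range_succ']
    refine add_le_add (sum_le_sum fun j hj => ?_) (le_of_eq ?_)
    · have hj' := mem_range.mp hj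
      rcases Nat.lt_or_ge (j + 1) N with h | h
      · refine site_ineq (hp _ hj') (div_pos (div_pos (hs1 _ h) (hs1 _ hj')) (hc0 _ hj')) ?_
        have h1 := hs1 _ h
        have h2 := hs1 _ hj'
        have h3 := hc0 _ h
        have h4 := hc0 _ hj'
        have h5 : a j * b (j + 1) = 1 / (c j * c (j + 1)) := by
          simp only [ha, hb]
          field_simp
        rw [h5, div_mul_eq_mul_div, one_mul, le_div_iff₀ (mul_pos h4 h3), one_mul]
        refine abs_le_of_sq_le_sq' ?_ (sq_nonneg _) |>.2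
        rw [mul_pow, hc2 _ hj', hc2 _ h]
        have h6 := hlc j h
        have h7 := hp _ hj'
        nlinarith [mul_le_mul_of_nonneg_left h6 (sq_nonneg (p (j + 1)))]
      · have hjN : j + 1 = N := le_antisymm hj' h
        have h1 : φ (j + 1 + 1) = 0 := by rw [hjN, hN]
        have h2 : 0 ≤ a j := div_nonneg (div_nonneg (hs0 _ (by omega)) (hs1 _ hj').le) (hc0 _ hj').le
        rw [h1]
        have h3 : (0 - φ (j + 1)) ^ 2 / p (j + 1) = 1 / p (j + 1) * φ (j + 1) ^ 2 := by ring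
        rw [h3]
        nlinarith [mul_nonneg h2 (sq_nonneg (φ (j + 1)))]
    · have : b 0 = 0 := by simp [hb, hs]
      rw [this, h0]
      ring
  refine le_trans ?_ e2
  rw [mul_sum]
  refine sum_le_sum fun j hj => ?_
  have hj' := mem_range.mp hj
  have h2 := hs1 _ hj'
  have h4 := hc0 _ hj'
  have h5 : a j + b j = 2 * Real.cos θ / c j := by
    simp only [ha, hb]
    rw [← add_div, ← add_div, add_comm, hrec]
    field_simp
  have h6 : 2 / c j ≤ 1 / p (j + 1) + 1 / p j := by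
    have h7 := hp j hj'.le
    have h8 := hp _ hj'
    rw [div_add_div _ _ h8.ne' h7.ne', div_le_div_iff₀ h4 (mul_pos h8 h7)]
    have h9 := hc2 j hj'
    have h10 : 2 * c j ≤ p j + p (j + 1) := by
      refine abs_le_of_sq_le_sq' ?_ (by positivity) |>.2
      nlinarith [sq_nonneg (p j - p (j + 1))]
    nlinarith
  have h11 : (2 - 2 * Real.cos θ) * (φ (j + 1) ^ 2 / c j) =
      (2 / c j - (a j + b j)) * φ (j + 1) ^ 2 := by rw [h5]; ring
  change (2 - 2 * Real.cos θ) * (φ (j + 1) ^ 2 / c j) ≤ _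
  rw [h11]
  nlinarith [mul_le_mul_of_nonneg_right h6 (sq_nonneg (φ (j + 1)))]

lemma abel0 (N : ℕ) (φ w : ℕ → ℝ) : ∑ j ∈ range (N + 1), (φ (j + 1) - φ j) * w j =
    φ (N + 1) * w N - φ 0 * w 0 - ∑ j ∈ range N, φ (j + 1) * (w (j + 1) - w j) := by
  induction N with
  | zero => simp; ring
  | succ N ih => rw [sum_range_succ, ih, sum_range_succ]; ring

/-- The discrete inequality on a path with `N + 1` sites. -/
theorem discrete_pw (N : ℕ) (hN : 1 ≤ N) (p v : ℕ → ℝ) (hp : ∀ j ≤ N, 0 < p j)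
    (hlc : ∀ j, j + 2 ≤ N → p j * p (j + 2) ≤ p (j + 1) ^ 2) :
    ∃ m : ℝ, (2 - 2 * Real.cos (Real.pi / (N + 1))) * ∑ j ∈ range (N + 1), p j * (v j - m) ^ 2 ≤
      ∑ j ∈ range N, (p j + p (j + 1)) / 2 * (v (j + 1) - v j) ^ 2 := by
  set l := 2 - 2 * Real.cos (Real.pi / (N + 1)) with hl
  have hl0 : 0 < l := by
    have hN1 : (1 : ℝ) ≤ N := by exact_mod_cast hN
    have h1 : Real.cos (Real.pi / (N + 1)) < Real.cos 0 := by
      refine Real.cos_lt_cos_of_nonneg_of_le_pi le_rfl ?_ (div_pos Real.pi_pos (by linarith))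
      exact div_le_self Real.pi_pos.le (by linarith)
    rw [Real.cos_zero] at h1
    linarith
  have hP : 0 < ∑ j ∈ range (N + 1), p j :=
    sum_pos (fun j hj => hp j (Nat.lt_succ_iff.mp (mem_range.mp hj))) ⟨0, by simp⟩
  set m := (∑ j ∈ range (N + 1), p j * v j) / ∑ j ∈ range (N + 1), p j with hm
  refine ⟨m, ?_⟩
  set φ : ℕ → ℝ := fun j => ∑ i ∈ range j, p i * (v i - m) with hφ
  have h0 : φ 0 = 0 := by simp [hφ]
  have hN' : φ (N + 1) = 0 := by
    simp only [hφ, mul_sub, sum_sub_distrib, ← sum_mul]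
    rw [hm]
    field_simp
    ring
  have hd : ∀ j, φ (j + 1) - φ j = p j * (v j - m) := fun j => by
    simp only [hφ, sum_range_succ]; ring
  have h1 := dual_hardy N p φ hp hlc h0 hN'
  have h2 : ∑ j ∈ range (N + 1), (φ (j + 1) - φ j) ^ 2 / p j =
      ∑ j ∈ range (N + 1), p j * (v j - m) ^ 2 := by
    refine sum_congr rfl fun j hj => ?_
    have := hp j (Nat.lt_succ_iff.mp (mem_range.mp hj))
    rw [hd]
    field_simp
  have h3 := abel0 N φ fun j => v j - m
  have h4 : ∑ j ∈ range (N + 1), (φ (j + 1) - φ j) * (v j - m) =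
      ∑ j ∈ range (N + 1), p j * (v j - m) ^ 2 := sum_congr rfl fun j _ => by rw [hd]; ring
  rw [h4, h0, hN'] at h3
  rw [h2, ← hl] at h1
  set A := ∑ j ∈ range (N + 1), p j * (v j - m) ^ 2
  have h5 : 2 * l * -(∑ j ∈ range N, φ (j + 1) * (v (j + 1) - m - (v j - m))) ≤
      l * (l * ∑ j ∈ range N, φ (j + 1) ^ 2 / √(p j * p (j + 1))) +
        ∑ j ∈ range N, (p j + p (j + 1)) / 2 * (v (j + 1) - v j) ^ 2 := by
    rw [← sum_neg_distrib, mul_sum, mul_sum, mul_sum, ← sum_add_distrib]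
    refine sum_le_sum fun j hj => ?_
    have hj' := mem_range.mp hj
    have h7 := hp j hj'.le
    have h8 := hp _ hj'
    have hc0 : 0 < √(p j * p (j + 1)) := Real.sqrt_pos.mpr (mul_pos h7 h8)
    have hc2 := Real.sq_sqrt (mul_pos h7 h8).le
    set c := √(p j * p (j + 1))
    have h10 : 2 * c ≤ p j + p (j + 1) := by
      refine abs_le_of_sq_le_sq' ?_ (by positivity) |>.2
      nlinarith [sq_nonneg (p j - p (j + 1))]
    set d := v (j + 1) - v j with hd'
    have e : v (j + 1) - m - (v j - m) = d := by rw [hd']; ring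
    rw [e]
    have h11 : l * (l * (φ (j + 1) ^ 2 / c)) + c * d ^ 2 - 2 * l * -(φ (j + 1) * d) =
        (l * φ (j + 1) + c * d) ^ 2 / c := by
      field_simp
      ring
    have h12 : 0 ≤ (l * φ (j + 1) + c * d) ^ 2 / c := by positivity
    nlinarith [mul_le_mul_of_nonneg_right h10 (sq_nonneg d)]
  have h6 := mul_le_mul_of_nonneg_left h1 hl0.le
  have h7 : A = -(∑ j ∈ range N, φ (j + 1) * (v (j + 1) - m - (v j - m))) := by linarith
  rw [← h7] at h5
  linarith

/-- The constant of the discrete inequality tends to `π²`. -/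
lemma const_lim {κ : ℝ} (hκ : κ < Real.pi ^ 2) : ∀ᶠ N : ℕ in atTop,
    κ ≤ ((N : ℝ) + 1) ^ 2 * (2 - 2 * Real.cos (Real.pi / (N + 1))) := by
  have h1 : Tendsto (fun N : ℕ => Real.pi ^ 2 * (1 - (Real.pi / 2 * (1 / ((N : ℝ) + 1))) ^ 2 / 4) ^ 2)
      atTop (𝓝 (Real.pi ^ 2 * (1 - (Real.pi / 2 * 0) ^ 2 / 4) ^ 2)) :=
    (((((tendsto_one_div_add_atTop_nhds_zero_nat.const_mul _).pow 2).div_const 4).const_sub
      1).pow 2).const_mul _
  have h2 : κ < Real.pi ^ 2 * (1 - (Real.pi / 2 * 0) ^ 2 / 4) ^ 2 := by simpa using hκ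
  filter_upwards [h1.eventually (lt_mem_nhds h2), eventually_ge_atTop 1] with N h3 h4
  refine h3.le.trans ?_
  have hN1 : (1 : ℝ) ≤ N := by exact_mod_cast h4
  set y := Real.pi / 2 * (1 / ((N : ℝ) + 1)) with hy
  have hy0 : 0 < y := by have := Real.pi_pos; positivity
  have hy1 : y ≤ 1 := by
    rw [hy, mul_one_div, div_le_one (by linarith)]
    linarith [Real.pi_le_four]
  have e1 : Real.pi / (N + 1) = 2 * y := by rw [hy]; field_simp
  have e2 : Real.pi = 2 * y * (N + 1) := by rw [hy]; field_simp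
  have h5 : y - y ^ 3 / 4 < Real.sin y := by
    have := Real.sin_gt_sub_cube hy0
    nlinarith [pow_pos hy0 3]
  have h6 : 0 ≤ y - y ^ 3 / 4 := by nlinarith [mul_pos hy0 hy0]
  have h7 := pow_le_pow_left₀ h6 h5.le 2
  rw [e1, Real.cos_two_mul, Real.cos_sq']
  have e3 : Real.pi ^ 2 * (1 - y ^ 2 / 4) ^ 2 = ((N : ℝ) + 1) ^ 2 * (4 * (y - y ^ 3 / 4) ^ 2) := by
    rw [e2]; ring
  rw [e3]
  refine mul_le_mul_of_nonneg_left ?_ (sq_nonneg _)
  linarith

end Pool.Agent.Lib.NV46
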