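import Pool.Agent.Lib.NV46.Base

/-! Cutting a convex body into needles. -/

set_option autoImplicit false

open MeasureTheory Set Filter Topology Metric
open scoped ContDiff NNReal ENNReal

namespace Pool.Agent.Lib.NV46

open Pool.Agent.Lib.MP_770ffc_an

variable {d : ℕ}

lemma intOn {K : Set (ES d)} (hK : Bornology.IsBounded K) {F : ES d → ℝ} (hF : Continuous F) :
    IntegrableOn F K :=
  (hF.continuousOn.integrableOn_compact hK.isCompact_closure).mono_set subset_closure

/-- An open convex piece on which `f` has mean zero and `Φ` has positive mean. -/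
structure Good (f Φ : ES d → ℝ) (K : Set (ES d)) : Prop where
  op : IsOpen K
  cv : Convex ℝ K
  bd : Bornology.IsBounded K
  mean : ∫ x in K, f x = 0
  pos : 0 < ∫ x in K, Φ x

lemma bisect {f Φ : ES d → ℝ} (hf : Continuous f) (hΦ : Continuous Φ) {K : Set (ES d)}
    (hK : Good f Φ K) {i j : Fin d} (hij : i ≠ j) (α β : ℝ) :
    ∃ K' ⊆ K, Good f Φ K' ∧ ∀ x ∈ K', ¬(x i = α ∧ x j = β) := by
  set l : ℝ → ES d → ℝ := fun θ x => Real.cos θ * (x i - α) + Real.sin θ * (x j - β) with hl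
  set H : ℝ → Set (ES d) := fun θ => {x | 0 < l θ x} with hH
  have hlc : ∀ θ, Continuous (l θ) := fun θ => by simp only [hl]; fun_prop
  have hHo : ∀ θ, IsOpen (H θ) := fun θ => isOpen_lt continuous_const (hlc θ)
  have hHc : ∀ θ, Convex ℝ (H θ) := by
    intro θ x hx y hy s t hs ht hst
    have e : l θ (s • x + t • y) = s * l θ x + t * l θ y := by
      have : t = 1 - s := by linarith
      simp only [hl, PiLp.add_apply, PiLp.smul_apply, smul_eq_mul, this]
      ring
    change 0 < l θ (s • x + t • y)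
    rw [e]
    exact convex_Ioi (0 : ℝ) hx hy hs ht hst
  have hnull : ∀ θ, ∀ᵐ x : ES d, l θ x ≠ 0 := by
    intro θ
    set n : ES d := Real.cos θ • EuclideanSpace.single i 1 + Real.sin θ • EuclideanSpace.single j 1
      with hn
    have hn0 : n ≠ 0 := by
      intro h
      have h1 : n i = 0 := by rw [h]; rfl
      have h2 : n j = 0 := by rw [h]; rfl
      simp [hn, hij, hij.symm] at h1 h2
      have := Real.cos_sq_add_sin_sq θ
      rw [h1, h2] at this
      norm_num at this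
    filter_upwards [null_hyper hn0 (Real.cos θ * α + Real.sin θ * β)] with x hx h
    apply hx
    simp only [hn, inner_add_left, real_inner_smul_left, EuclideanSpace.inner_single_left]
    simp only [hl] at h
    simp
    linarith
  have hsplit : ∀ (F : ES d → ℝ), Continuous F → ∀ θ,
      (∫ x in K ∩ H θ, F x) + ∫ x in K ∩ H (θ + Real.pi), F x = ∫ x in K, F x := by
    intro F hF θ
    rw [← integral_inter_add_sdiff (hHo θ).measurableSet (intOn hK.bd hF)]
    congr 1
    refine setIntegral_congr_set ?_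
    filter_upwards [hnull θ] with x hx
    have e : l (θ + Real.pi) x = -l θ x := by
      simp only [hl, Real.cos_add_pi, Real.sin_add_pi]; ring
    refine propext ?_
    change x ∈ K ∧ 0 < l (θ + Real.pi) x ↔ x ∈ K ∧ ¬0 < l θ x
    rw [e]
    refine and_congr_right fun _ => ⟨fun h => by linarith, fun h => ?_⟩
    have := lt_of_le_of_ne (not_lt.mp h) hx
    linarith
  have hcont : Continuous fun θ => ∫ x in K ∩ H θ, f x := by
    have e : (fun θ => ∫ x in K ∩ H θ, f x) = fun θ => ∫ x in K, (H θ).indicator f x := by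
      ext θ
      rw [setIntegral_indicator (hHo θ).measurableSet]
    rw [e, continuous_iff_continuousAt]
    intro θ₀
    refine continuousAt_of_dominated (bound := fun x => ‖f x‖)
      (Eventually.of_forall fun θ =>
        (hf.measurable.indicator (hHo θ).measurableSet).aestronglyMeasurable)
      (Eventually.of_forall fun θ => Eventually.of_forall fun x => norm_indicator_le_norm_self _ _)
      (intOn hK.bd hf.norm) ?_
    filter_upwards [ae_restrict_of_ae (hnull θ₀)] with x hx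
    have hc : Continuous fun θ => l θ x := by simp only [hl]; fun_prop
    rcases lt_or_gt_of_ne hx with h | h
    · refine (continuousAt_const (y := 0)).congr ?_
      filter_upwards [hc.continuousAt.eventually (gt_mem_nhds h)] with θ hθ
      rw [indicator_of_notMem (show x ∉ H θ from fun h' : 0 < l θ x => lt_asymm h' hθ)]
    · refine (continuousAt_const (y := f x)).congr ?_
      filter_upwards [hc.continuousAt.eventually (lt_mem_nhds h)] with θ hθ
      rw [indicator_of_mem (show x ∈ H θ from hθ)]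
  obtain ⟨θ, -, hθ⟩ : (0 : ℝ) ∈ (fun θ => ∫ x in K ∩ H θ, f x) '' uIcc 0 (0 + Real.pi) := by
    refine intermediate_value_uIcc hcont.continuousOn ?_
    have h1 := hsplit f hf 0
    rw [hK.mean] at h1
    rw [mem_uIcc]
    rcases le_total 0 (∫ x in K ∩ H 0, f x) with h | h
    · right; constructor <;> linarith
    · left; constructor <;> linarith
  have hmiss : ∀ θ, ∀ x ∈ K ∩ H θ, ¬(x i = α ∧ x j = β) := by
    rintro θ x hx ⟨h1, h2⟩
    have h3 : 0 < l θ x := hx.2
    simp [hl, h1, h2] at h3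
  have h1 := hsplit f hf θ
  have h2 := hsplit Φ hΦ θ
  simp only at hθ
  rw [hK.mean, hθ, zero_add] at h1
  have hp := hK.pos
  by_cases h3 : 0 < ∫ x in K ∩ H θ, Φ x
  · exact ⟨_, inter_subset_left, ⟨hK.op.inter (hHo _), hK.cv.inter (hHc _),
      hK.bd.subset inter_subset_left, hθ, h3⟩, hmiss _⟩
  · exact ⟨_, inter_subset_left, ⟨hK.op.inter (hHo _), hK.cv.inter (hHc _),
      hK.bd.subset inter_subset_left, h1, by linarith⟩, hmiss _⟩

lemma cut_all {f Φ : ES d → ℝ} (hf : Continuous f) (hΦ : Continuous Φ) {K : Set (ES d)}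
    (hK : Good f Φ K) {ε : ℝ} (hε : 0 < ε) :
    ∃ K' ⊆ K, Good f Φ K' ∧ ∀ i j : Fin d, i ≠ j → ∀ a b : ℤ, ∀ x ∈ K',
      ¬(x i = ε * a ∧ x j = ε * b) := by
  have key : ∀ T : Finset (Fin d × Fin d × ℤ × ℤ), ∃ K' ⊆ K, Good f Φ K' ∧ ∀ q ∈ T,
      q.1 ≠ q.2.1 → ∀ x ∈ K', ¬(x q.1 = ε * q.2.2.1 ∧ x q.2.1 = ε * q.2.2.2) := by
    intro T
    induction T using Finset.induction_on with
    | empty => exact ⟨K, subset_rfl, hK, by simp⟩
    | insert q T _ ih =>
      obtain ⟨K', h1, h2, h3⟩ := ih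
      by_cases hq : q.1 = q.2.1
      · refine ⟨K', h1, h2, fun q' hq' => ?_⟩
        rcases Finset.mem_insert.mp hq' with rfl | h
        · exact fun h => absurd hq h
        · exact h3 q' h
      · obtain ⟨K'', h4, h5, h6⟩ := bisect hf hΦ h2 hq (ε * q.2.2.1) (ε * q.2.2.2)
        refine ⟨K'', h4.trans h1, h5, fun q' hq' => ?_⟩
        rcases Finset.mem_insert.mp hq' with rfl | h
        · exact fun _ => h6
        · exact fun h' x hx => h3 q' h h' x (h4 hx)
  obtain ⟨R, hR⟩ := hK.bd.exists_norm_le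
  obtain ⟨M, hM⟩ := exists_nat_ge (R / ε)
  obtain ⟨K', h1, h2, h3⟩ := key (Finset.univ ×ˢ Finset.univ ×ˢ Finset.Icc (-(M : ℤ)) M ×ˢ
    Finset.Icc (-(M : ℤ)) M)
  refine ⟨K', h1, h2, fun i j hij a b x hx h => ?_⟩
  have hb : ∀ (i : Fin d) (a : ℤ), x i = ε * a → a ∈ Finset.Icc (-(M : ℤ)) M := by
    intro i a ha
    have h4 : |x i| ≤ R := (PiLp.norm_apply_le x i).trans (hR x (h1 hx))
    rw [ha, abs_mul, abs_of_pos hε] at h4
    rw [div_le_iff₀ hε] at hM
    have h5 : |(a : ℝ)| ≤ M := by nlinarith [abs_nonneg (a : ℝ)]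
    rw [Finset.mem_Icc, ← abs_le]
    exact_mod_cast h5
  exact h3 (i, j, a, b) (by simp only [Finset.mem_product, Finset.mem_univ, true_and]
                            exact ⟨hb i a h.1, hb j b h.2⟩) hij x hx h

lemma norm_le_max (x : ES d) {s : ℝ} (hs : 0 ≤ s) (h : ∀ i, |x i| ≤ s) : ‖x‖ ≤ d * s := by
  refine abs_le_of_sq_le_sq' ?_ (by positivity) |>.2
  rw [EuclideanSpace.norm_sq_eq]
  refine (Finset.sum_le_card_nsmul _ _ (s ^ 2) fun i _ => ?_).trans ?_
  · exact pow_le_pow_left₀ (norm_nonneg _) (h i) 2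
  · simp only [Finset.card_univ, Fintype.card_fin, nsmul_eq_mul]
    have h1 : (d : ℝ) ≤ (d : ℝ) ^ 2 := by exact_mod_cast Nat.le_self_pow two_ne_zero d
    nlinarith [sq_nonneg s]

lemma grid_near {ε : ℝ} (hε : 0 < ε) (z : ℝ) : ∃ a : ℤ, |ε * a - z| ≤ ε := by
  refine ⟨⌊z / ε⌋, ?_⟩
  have h1 := Int.floor_le (z / ε)
  have h2 := Int.lt_floor_add_one (z / ε)
  rw [le_div_iff₀ hε] at h1
  rw [div_lt_iff₀ hε] at h2
  rw [abs_le]
  constructor <;> nlinarith

/-- A convex set that misses the grid is close to a line. -/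
lemma thin (hd : 0 < d) {K : Set (ES d)} (ho : IsOpen K) (hc : Convex ℝ K)
    (hb : Bornology.IsBounded K) (hne : K.Nonempty) {ε : ℝ} (hε : 0 < ε)
    (h : ∀ i j : Fin d, i ≠ j → ∀ a b : ℤ, ∀ x ∈ K, ¬(x i = ε * a ∧ x j = ε * b)) :
    ∃ a e : ES d, ‖e‖ = 1 ∧ ∀ x ∈ K, ∃ t : ℝ, ‖x - (a + t • e)‖ ≤ 48 * d ^ 2 * ε := by
  have : Nonempty (Fin d) := ⟨⟨0, hd⟩⟩
  have hd1 : (1 : ℝ) ≤ d := by exact_mod_cast hd
  have hl : 0 < diam K := by
    obtain ⟨x, hx⟩ := hne
    obtain ⟨δ, hδ, hδ'⟩ := Metric.isOpen_iff.mp ho x hx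
    have hy : dist (x + EuclideanSpace.single (⟨0, hd⟩ : Fin d) (δ / 2)) x = δ / 2 := by
      rw [dist_eq_norm, add_sub_cancel_left]
      simp [abs_of_pos hδ]
    have h1 := hδ' (show _ ∈ ball x δ by rw [mem_ball, hy]; linarith)
    have h2 := dist_le_diam_of_mem hb h1 hx
    rw [hy] at h2
    linarith
  obtain ⟨a, ha, b, hb', hab⟩ : ∃ a ∈ K, ∃ b ∈ K, diam K / 2 < dist b a := by
    by_contra hcon
    push Not at hcon
    have := diam_le_of_forall_dist_le (C := diam K / 2) (by linarith)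
      fun x hx y hy => hcon y hy x hx
    linarith
  rw [dist_eq_norm] at hab
  set p := b - a with hp
  obtain ⟨i, hi⟩ := Finite.exists_max fun i => |p i|
  have hP := norm_le_max p (abs_nonneg _) hi
  have hp0 : 0 < ‖p‖ := by linarith
  have hPi : 0 < |p i| := by
    by_contra h0
    have : |p i| = 0 := le_antisymm (not_lt.mp h0) (abs_nonneg _)
    rw [this] at hP
    linarith
  have hpi : p i ≠ 0 := abs_pos.mp hPi
  refine ⟨a, ‖p‖⁻¹ • p, by rw [norm_smul, norm_inv, norm_norm, inv_mul_cancel₀ hp0.ne'],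
    fun x hx => ?_⟩
  set q := x - a with hq
  set ρ := q i / p i with hρ
  have hqn : ∀ j, |q j| ≤ 2 * d * |p i| := by
    intro j
    have h1 : |q j| ≤ ‖q‖ := PiLp.norm_apply_le q j
    have h2 := dist_le_diam_of_mem hb hx ha
    rw [dist_eq_norm] at h2
    linarith
  have hρ2 : |ρ| ≤ 2 * d := by
    rw [hρ, abs_div, div_le_iff₀ hPi]
    exact hqn i
  set q' := q - ρ • p with hq'
  refine ⟨ρ * ‖p‖, ?_⟩
  have e0 : x - (a + (ρ * ‖p‖) • ‖p‖⁻¹ • p) = q' := by
    rw [smul_smul, mul_assoc, mul_inv_cancel₀ hp0.ne', mul_one, hq', hq]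
    abel
  rw [e0]
  obtain ⟨j, hj⟩ := Finite.exists_max fun j => |q' j|
  have hQ := norm_le_max q' (abs_nonneg _) hj
  suffices hs : |q' j| ≤ 48 * d * ε by nlinarith
  by_contra hcon
  push Not at hcon
  have hQ0 : 0 < |q' j| := lt_of_le_of_lt (by positivity) hcon
  have hqj : q' j ≠ 0 := abs_pos.mp hQ0
  have hq'j : q' j = q j - ρ * p j := by simp [hq']
  have hij : i ≠ j := by
    rintro rfl
    apply hqj
    rw [hq'j, hρ]
    field_simp
    ring
  have hQP : |q' j| ≤ 4 * d * |p i| := by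
    rw [hq'j]
    refine (abs_sub _ _).trans ?_
    rw [abs_mul]
    have := mul_le_mul hρ2 (hi j) (abs_nonneg _) (by positivity)
    linarith [hqn j]
  have hP12 : 12 * ε < |p i| := by nlinarith
  obtain ⟨α, hα⟩ := grid_near hε (a i + (1 + ρ) / 3 * p i)
  set δ₁ := (ε * α - (a i + (1 + ρ) / 3 * p i)) / p i with hδ₁
  have h1 : |δ₁| ≤ 1 / 12 := by
    rw [hδ₁, abs_div, div_le_iff₀ hPi]
    linarith
  obtain ⟨β, hβ⟩ := grid_near hε (a j + ((1 + ρ) / 3 + δ₁) * p j + q' j / 3)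
  set δ₂ := (ε * β - (a j + ((1 + ρ) / 3 + δ₁) * p j + q' j / 3)) / q' j with hδ₂
  have h2 : |δ₂| * (48 * d) ≤ 1 := by
    rw [hδ₂, abs_div, div_mul_eq_mul_div, div_le_one hQ0]
    nlinarith
  have h3 : |δ₂ * ρ| ≤ 1 / 24 := by
    rw [abs_mul]
    nlinarith [mul_le_mul_of_nonneg_left hρ2 (abs_nonneg δ₂)]
  have h4 : |δ₂| ≤ 1 / 48 := by nlinarith [abs_nonneg δ₂]
  rw [abs_le] at h1 h3 h4
  have m1 := hc.add_smul_sub_mem ha hb' (t := 2 * (1 / 3 + δ₁ - δ₂ * ρ))
    ⟨by linarith, by linarith⟩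
  have m2 := hc.add_smul_sub_mem ha hx (t := 2 * (1 / 3 + δ₂)) ⟨by linarith, by linarith⟩
  have m3 := hc m1 m2 (a := 1 / 2) (b := 1 / 2) (by norm_num) (by norm_num) (by norm_num)
  rw [← hp, ← hq] at m3
  refine h i j hij α β _ m3 ⟨?_, ?_⟩
  · have e1 : q i = ρ * p i := by rw [hρ]; field_simp
    have e2 : δ₁ * p i = ε * α - (a i + (1 + ρ) / 3 * p i) := by rw [hδ₁]; field_simp
    simp only [PiLp.add_apply, PiLp.smul_apply, smul_eq_mul, e1]
    linarith
  · have e1 : q j = q' j + ρ * p j := by rw [hq'j]; ring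
    have e2 : δ₂ * q' j = ε * β - (a j + ((1 + ρ) / 3 + δ₁) * p j + q' j / 3) := by
      rw [hδ₂]; field_simp
    simp only [PiLp.add_apply, PiLp.smul_apply, smul_eq_mul, e1]
    linarith

end Pool.Agent.Lib.NV46
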