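import Pool.Agent.Lib.NV46.PW1
import Pool.Agent.Lib.NV46.PW2
import Pool.Agent.Lib.MP_229ad9_gt.PL

/-! The Payne-Weinberger inequality. -/

set_option autoImplicit false

open MeasureTheory Set Filter Topology Metric
open scoped ContDiff NNReal ENNReal

namespace Pool.Agent.Lib.NV46

open Pool.Agent.Lib.MP_770ffc_an

variable {d : ℕ}

lemma slab_logconcave {A B C : Set (ES d)} (hA : MeasurableSet A) (hB : MeasurableSet B)
    (hC : MeasurableSet C) (hC1 : volume C ≠ ⊤)
    (h : ∀ x ∈ A, ∀ y ∈ B, (1 / 2 : ℝ) • (x + y) ∈ C) :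
    volume.real A * volume.real B ≤ volume.real C ^ 2 := by
  have h1 := Pool.Agent.Lib.MP_229ad9_gt.prekopa (f := A.indicator 1) (g := B.indicator 1)
    (H := C.indicator 1) (measurable_one.indicator hA) (measurable_one.indicator hB)
    (measurable_one.indicator hC) (fun x => indicator_nonneg (fun _ _ => zero_le_one) x)
    (fun x => indicator_nonneg (fun _ _ => zero_le_one) x)
    (fun x => indicator_nonneg (fun _ _ => zero_le_one) x)
    ((integrable_indicator_iff hC).mpr (integrableOn_const hC1)) (by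
      intro x y
      by_cases hx : x ∈ A
      · by_cases hy : y ∈ B
        · rw [indicator_of_mem hx, indicator_of_mem hy, indicator_of_mem (h x hx y hy)]
          simp
        · rw [indicator_of_notMem hy, mul_zero]
          exact sq_nonneg _
      · rw [indicator_of_notMem hx, zero_mul]
        exact sq_nonneg _)
  rwa [integral_indicator_one hA, integral_indicator_one hB, integral_indicator_one hC] at h1

lemma needle {K : Set (ES d)} (ho : IsOpen K) (hc : Convex ℝ K) (hb : Bornology.IsBounded K)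
    (hne : K.Nonempty) {D : ℝ} (hD : ∀ x ∈ K, ∀ y ∈ K, ‖x - y‖ ≤ D) {a e : ES d} (he : ‖e‖ = 1)
    {r r₀ η η₁ : ℝ} (hthin : ∀ x ∈ K, ∃ t : ℝ, ‖x - (a + t • e)‖ ≤ r) {N : ℕ} (hN : 1 ≤ N)
    (hr : 2 * r + 2 * (D / (N + 1)) ≤ r₀) (hη : 0 ≤ η) (hη₁ : 0 < η₁) {U : ES d → ℝ}
    (hU : ContDiff ℝ 1 U) (hmod : ∀ x ∈ K, ∀ y, ‖x - y‖ ≤ r₀ →
      |U x - U y| ≤ η ∧ ‖fderiv ℝ U y‖ ^ 2 ≤ ‖fderiv ℝ U x‖ ^ 2 + η) :
    ∃ m : ℝ, (2 - 2 * Real.cos (Real.pi / (N + 1))) * ∫ x in K, (U x - m) ^ 2 ≤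
      (1 + η₁) * (D / (N + 1)) ^ 2 * ((∫ x in K, ‖fderiv ℝ U x‖ ^ 2) + η * volume.real K) +
        (2 - 2 * Real.cos (Real.pi / (N + 1))) * ((1 + 1 / η₁) * η ^ 2 * volume.real K) := by
  set τ : ES d → ℝ := fun x => inner ℝ e x with hτ
  have hτc : Continuous τ := by simp only [hτ]; fun_prop
  have hee : inner ℝ e e = (1 : ℝ) := by rw [real_inner_self_eq_norm_sq, he]; norm_num
  have hτl : ∀ x, |τ x| ≤ ‖x‖ := fun x => by simpa [he] using abs_real_inner_le_norm e x
  have hτsub : ∀ x y, τ (x - y) = τ x - τ y := fun x y => inner_sub_right _ _ _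
  have hτadd : ∀ x (t : ℝ), τ (x + t • e) = τ x + t := fun x t => by
    simp only [hτ, inner_add_right, real_inner_smul_right, hee, mul_one]
  have hτD : ∀ x ∈ K, ∀ y ∈ K, τ x - τ y ≤ D := fun x hx y hy => by
    rw [← hτsub]
    exact (le_abs_self _).trans ((hτl _).trans (hD x hx y hy))
  obtain ⟨x₀, hx₀⟩ := hne
  have hne' : (τ '' K).Nonempty := ⟨_, x₀, hx₀, rfl⟩
  have hba : BddAbove (τ '' K) := ⟨D + τ x₀, by
    rintro _ ⟨x, hx, rfl⟩; linarith [hτD x hx x₀ hx₀]⟩
  have hbb : BddBelow (τ '' K) := ⟨τ x₀ - D, by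
    rintro _ ⟨x, hx, rfl⟩; linarith [hτD x₀ hx₀ x hx]⟩
  set t₀ := sInf (τ '' K) with ht₀
  set t₁ := sSup (τ '' K) with ht₁
  have hin : ∀ x ∈ K, t₀ < τ x ∧ τ x < t₁ := by
    intro x hx
    obtain ⟨δ, hδ, hδ'⟩ := Metric.isOpen_iff.mp ho x hx
    have h1 : ∀ t : ℝ, |t| < δ → x + t • e ∈ K := fun t ht => hδ' (by
      rw [mem_ball, dist_eq_norm, add_sub_cancel_left, norm_smul, he, mul_one]; exact ht)
    have h2 := csInf_le hbb ⟨_, h1 (-(δ / 2)) (by rw [abs_neg, abs_of_pos] <;> linarith), rfl⟩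
    have h3 := le_csSup hba ⟨_, h1 (δ / 2) (by rw [abs_of_pos] <;> linarith), rfl⟩
    rw [hτadd] at h2 h3
    constructor <;> linarith
  have hlen : t₁ - t₀ ≤ D := by
    have h1 : t₁ ≤ t₀ + D := by
      refine csSup_le hne' ?_
      rintro _ ⟨x, hx, rfl⟩
      have : τ x - D ≤ t₀ := le_csInf hne' (by
        rintro _ ⟨y, hy, rfl⟩; linarith [hτD x hx y hy])
      linarith
    linarith
  have hN1 : (0 : ℝ) < N + 1 := by positivity
  set h := (t₁ - t₀) / (N + 1) with hh
  have hh0 : 0 < h := div_pos (by linarith [hin x₀ hx₀]) hN1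
  have hhD : h ≤ D / (N + 1) := div_le_div_of_nonneg_right hlen hN1.le
  have hhN : (N + 1) * h = t₁ - t₀ := by rw [hh]; field_simp
  set S : ℕ → Set (ES d) := fun j => K ∩ τ ⁻¹' Ico (t₀ + j * h) (t₀ + (j + 1) * h) with hS
  have hSm : ∀ j, MeasurableSet (S j) := fun j =>
    ho.measurableSet.inter (measurableSet_Ico.preimage hτc.measurable)
  have hSb : ∀ j, Bornology.IsBounded (S j) := fun j => hb.subset inter_subset_left
  have hS1 : ∀ j, volume (S j) ≠ ⊤ := fun j => (hSb j).measure_lt_top.ne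
  set p : ℕ → ℝ := fun j => volume.real (S j) with hp
  have hp0 : ∀ j ≤ N, 0 < p j := by
    intro j hj
    have hj' : (j : ℝ) ≤ N := by exact_mod_cast hj
    have hj0 : (0 : ℝ) ≤ j := Nat.cast_nonneg j
    obtain ⟨_, ⟨x, hx, rfl⟩, h1⟩ := exists_lt_of_csInf_lt hne'
      (show t₀ < t₀ + (j + 1 / 2) * h by nlinarith)
    obtain ⟨_, ⟨y, hy, rfl⟩, h2⟩ := exists_lt_of_lt_csSup hne'
      (show t₀ + (j + 1 / 2) * h < t₁ by nlinarith)
    obtain ⟨z, hz, h3⟩ := (hc.isPreconnected.intermediate_value hx hy hτc.continuousOn)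
      ⟨h1.le, h2.le⟩
    have hop : IsOpen (K ∩ τ ⁻¹' Ioo (t₀ + j * h) (t₀ + (j + 1) * h)) :=
      ho.inter (isOpen_Ioo.preimage hτc)
    have h4 := hop.measure_pos volume ⟨z, hz, by
      rw [mem_preimage, h3]; constructor <;> nlinarith⟩
    exact ENNReal.toReal_pos (h4.trans_le (measure_mono
      (inter_subset_inter_right _ (preimage_mono Ioo_subset_Ico_self)))).ne' (hS1 j)
  have hlc : ∀ j, j + 2 ≤ N → p j * p (j + 2) ≤ p (j + 1) ^ 2 := by
    intro j _
    refine slab_logconcave (hSm _) (hSm _) (hSm _) (hS1 _) fun x hx y hy => ⟨?_, ?_⟩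
    · rw [smul_add]
      exact hc hx.1 hy.1 (by norm_num) (by norm_num) (by norm_num)
    · have e1 : τ ((1 / 2 : ℝ) • (x + y)) = (τ x + τ y) / 2 := by
        simp only [hτ, real_inner_smul_right, inner_add_right]; ring
      have h1 := hx.2
      have h2 := hy.2
      rw [mem_preimage, mem_Ico] at h1 h2 ⊢
      rw [e1]
      push_cast at h1 h2 ⊢
      constructor <;> linarith [h1.1, h1.2, h2.1, h2.2]
  have hsum : ∀ F : ES d → ℝ, Continuous F →
      ∫ x in K, F x = ∑ j ∈ Finset.range (N + 1), ∫ x in S j, F x := by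
    intro F hF
    rw [← integral_biUnion_finset _ (fun j _ => hSm j) ?_ fun j _ => intOn (hSb j) hF]
    · congr 2
      refine Subset.antisymm (fun x hx => ?_) (iUnion₂_subset fun j _ => inter_subset_left)
      obtain ⟨h1, h2⟩ := hin x hx
      have h3 : 0 ≤ (τ x - t₀) / h := div_nonneg (by linarith) hh0.le
      have h4 := Nat.floor_le h3
      have h5 := Nat.lt_floor_add_one ((τ x - t₀) / h)
      rw [le_div_iff₀ hh0] at h4
      rw [div_lt_iff₀ hh0] at h5
      refine mem_iUnion₂.mpr ⟨⌊(τ x - t₀) / h⌋₊, ?_, hx, by linarith, by linarith⟩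
      rw [Finset.mem_range, Nat.floor_lt h3, div_lt_iff₀ hh0]
      push_cast
      linarith
    · intro i _ j _ hij
      rw [Function.onFun, Set.disjoint_left]
      rintro x ⟨-, h1, h2⟩ ⟨-, h3, h4⟩
      rcases lt_or_gt_of_ne hij with h | h
      · have : (i : ℝ) + 1 ≤ j := by exact_mod_cast h
        nlinarith
      · have : (j : ℝ) + 1 ≤ i := by exact_mod_cast h
        nlinarith
  have hnear : ∀ x ∈ K, ∀ s : ℝ, |s - τ x| ≤ 2 * h → ‖x - (a + (s - τ a) • e)‖ ≤ r₀ := by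
    intro x hx s hs
    obtain ⟨t, ht⟩ := hthin x hx
    have h1 := (hτl _).trans ht
    rw [hτsub, hτadd] at h1
    have e1 : x - (a + (s - τ a) • e) = (x - (a + t • e)) + (t - (s - τ a)) • e := by module
    rw [e1]
    refine (norm_add_le _ _).trans ?_
    rw [norm_smul, he, mul_one, Real.norm_eq_abs]
    have h2 : |t - (s - τ a)| ≤ r + 2 * h := by
      rw [abs_le] at h1 hs ⊢
      constructor <;> linarith [h1.1, h1.2, hs.1, hs.2]
    linarith
  set y : ℕ → ES d := fun j => a + (t₀ + j * h - τ a) • e with hy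
  set v : ℕ → ℝ := fun j => U (y j) with hv
  obtain ⟨m, hm⟩ := discrete_pw N hN p v hp0 hlc
  refine ⟨m, ?_⟩
  set l := 2 - 2 * Real.cos (Real.pi / (N + 1)) with hl
  have hl0 : 0 ≤ l := by linarith [Real.cos_le_one (Real.pi / (N + 1))]
  have hgc : Continuous fun x => ‖fderiv ℝ U x‖ ^ 2 :=
    (hU.continuous_fderiv (by simp)).norm.pow 2
  have hfin : ∀ j, IsFiniteMeasure (volume.restrict (S j)) := fun j =>
    isFiniteMeasure_restrict.mpr (hS1 j)
  have hconst : ∀ j (c : ℝ), ∫ _ in S j, c = p j * c := fun j c => by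
    rw [setIntegral_const, smul_eq_mul]
  have h1 : ∀ j, ∫ x in S j, (U x - m) ^ 2 ≤
      (1 + η₁) * (p j * (v j - m) ^ 2) + (1 + 1 / η₁) * η ^ 2 * p j := by
    intro j
    have := hfin j
    have h2 : ∫ x in S j, (U x - m) ^ 2 ≤
        ∫ _ in S j, ((1 + η₁) * (v j - m) ^ 2 + (1 + 1 / η₁) * η ^ 2) := by
      refine setIntegral_mono_on (intOn (hSb j) ((hU.continuous.sub continuous_const).pow 2))
        (integrable_const _) (hSm j) fun x hx => ?_
      have h3 := (hmod x hx.1 (y j) (hnear x hx.1 _ (by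
        have := hx.2.1; have := hx.2.2; rw [abs_le]; constructor <;> linarith))).1
      have h4 : (U x - v j) ^ 2 ≤ η ^ 2 := sq_le_sq' (abs_le.mp h3).1 (abs_le.mp h3).2
      have h5 : (1 + η₁) * (v j - m) ^ 2 + (1 + 1 / η₁) * (U x - v j) ^ 2 - (U x - m) ^ 2 =
          (η₁ * (v j - m) - (U x - v j)) ^ 2 / η₁ := by
        field_simp
        ring
      have h6 : 0 ≤ (η₁ * (v j - m) - (U x - v j)) ^ 2 / η₁ := by positivity
      have h7 := mul_le_mul_of_nonneg_left h4 (show 0 ≤ 1 + 1 / η₁ by positivity)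
      linarith
    rw [hconst] at h2
    linarith
  set I : ℕ → ℝ := fun j => ∫ x in S j, (‖fderiv ℝ U x‖ ^ 2 + η) with hI
  have hI0 : ∀ j, 0 ≤ I j := fun j => integral_nonneg fun x => by positivity
  have h2 : ∀ j i : ℕ, (i = j ∨ i = j + 1) → p i * (v (j + 1) - v j) ^ 2 ≤ h ^ 2 * I i := by
    intro j i hi
    have := hfin i
    rw [← hconst, hI, ← integral_const_mul]
    refine setIntegral_mono_on (integrable_const _)
      (intOn (hSb i) (continuous_const.mul (hgc.add continuous_const))) (hSm i) fun x hx => ?_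
    have e1 : y (j + 1) = y j + h • e := by
      simp only [hy]
      push_cast
      module
    have h3 := seg_sq_le hU (G := fun _ => ‖fderiv ℝ U x‖ ^ 2 + η) continuous_const
      (x := y j) (v := h • e) fun t ht => by
        have e2 : y j + t • h • e = a + (t₀ + j * h + t * h - τ a) • e := by
          simp only [hy]
          module
        rw [e2]
        refine (hmod x hx.1 _ (hnear x hx.1 _ ?_)).2
        have h4 := hx.2.1
        have h5 := hx.2.2
        have h6 := mul_le_mul_of_nonneg_right ht.2 hh0.le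
        have h7 := mul_nonneg ht.1 hh0.le
        rw [abs_le]
        rcases hi with rfl | rfl
        · constructor <;> linarith
        · push_cast at h4 h5
          constructor <;> linarith
    rw [← e1, norm_smul, he, mul_one, Real.norm_eq_abs, sq_abs] at h3
    simpa using h3
  have h3 : ∑ j ∈ Finset.range N, (p j + p (j + 1)) / 2 * (v (j + 1) - v j) ^ 2 ≤
      h ^ 2 * ∑ j ∈ Finset.range (N + 1), I j := by
    have h4 : ∑ j ∈ Finset.range N, (p j + p (j + 1)) / 2 * (v (j + 1) - v j) ^ 2 ≤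
        ∑ j ∈ Finset.range N, h ^ 2 / 2 * (I j + I (j + 1)) :=
      Finset.sum_le_sum fun j _ => by linarith [h2 j j (Or.inl rfl), h2 j (j + 1) (Or.inr rfl)]
    rw [← Finset.mul_sum, Finset.sum_add_distrib] at h4
    have h5 := Finset.sum_range_succ I N
    have h6 := Finset.sum_range_succ' I N
    have h7 : ∑ j ∈ Finset.range N, I j + ∑ j ∈ Finset.range N, I (j + 1) ≤
        2 * ∑ j ∈ Finset.range (N + 1), I j := by linarith [hI0 N, hI0 0]
    nlinarith [mul_le_mul_of_nonneg_left h7 (sq_nonneg h)]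
  have hK1 : IsFiniteMeasure (volume.restrict K) := isFiniteMeasure_restrict.mpr hb.measure_lt_top.ne
  have h4 : ∑ j ∈ Finset.range (N + 1), I j =
      (∫ x in K, ‖fderiv ℝ U x‖ ^ 2) + η * volume.real K := by
    rw [← hsum (fun x => ‖fderiv ℝ U x‖ ^ 2 + η) (hgc.add continuous_const), integral_add (intOn hb hgc) (integrable_const _),
      setIntegral_const, smul_eq_mul, mul_comm]
  have h5 : ∑ j ∈ Finset.range (N + 1), p j = volume.real K := by
    have := hsum (fun _ => 1) continuous_const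
    simp only [hconst, mul_one] at this
    rw [← this, setIntegral_const, smul_eq_mul, mul_one]
  have h6 : ∫ x in K, (U x - m) ^ 2 ≤ (1 + η₁) * ∑ j ∈ Finset.range (N + 1), p j * (v j - m) ^ 2 +
      (1 + 1 / η₁) * η ^ 2 * volume.real K := by
    rw [hsum (fun x => (U x - m) ^ 2) ((hU.continuous.sub continuous_const).pow 2), ← h5, Finset.mul_sum, Finset.mul_sum,
      ← Finset.sum_add_distrib]
    exact Finset.sum_le_sum fun j _ => h1 j
  have h7 : h ^ 2 * ∑ j ∈ Finset.range (N + 1), I j ≤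
      (D / (N + 1)) ^ 2 * ∑ j ∈ Finset.range (N + 1), I j :=
    mul_le_mul_of_nonneg_right (pow_le_pow_left₀ hh0.le hhD 2) (Finset.sum_nonneg fun j _ => hI0 j)
  have h8 := mul_le_mul_of_nonneg_left (hm.trans (h3.trans h7)) (show 0 ≤ 1 + η₁ by positivity)
  have h9 := mul_le_mul_of_nonneg_left h6 hl0
  rw [h4] at h8
  nlinarith

lemma smooth_pw (hd : 0 < d) {K : Set (ES d)} (ho : IsOpen K) (hc : Convex ℝ K)
    (hb : Bornology.IsBounded K) {D κ : ℝ} (hD : ∀ x ∈ K, ∀ y ∈ K, ‖x - y‖ ≤ D)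
    (hκ : D ^ 2 / Real.pi ^ 2 < κ) {U : ES d → ℝ} (hU : ContDiff ℝ 1 U) :
    ∃ c : ℝ, ∫ x in K, (U x - c) ^ 2 ≤ κ * ∫ x in K, ‖fderiv ℝ U x‖ ^ 2 := by
  have hK1 : IsFiniteMeasure (volume.restrict K) := isFiniteMeasure_restrict.mpr hb.measure_lt_top.ne
  refine ⟨⨍ x in K, U x, ?_⟩
  have h0 : ∫ x in K, (U x - ⨍ y in K, U y) = 0 := integral_sub_average _ U
  set c := ⨍ x in K, U x
  by_contra hcon
  push Not at hcon
  have hπ : 0 < Real.pi ^ 2 := by have := Real.pi_pos; positivity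
  have hκ0 : 0 < κ := lt_of_le_of_lt (by positivity) hκ
  have hgc : Continuous fun x => ‖fderiv ℝ U x‖ ^ 2 :=
    (hU.continuous_fderiv (by simp)).norm.pow 2
  have hfc : Continuous fun x => U x - c := hU.continuous.sub continuous_const
  have hexp : ∀ (K' : Set (ES d)), Bornology.IsBounded K' → ∀ δ : ℝ,
      ∫ x in K', ((U x - c) ^ 2 - κ * ‖fderiv ℝ U x‖ ^ 2 - δ) =
        (∫ x in K', (U x - c) ^ 2) - κ * (∫ x in K', ‖fderiv ℝ U x‖ ^ 2) - δ * volume.real K' := by
    intro K' hK' δ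
    have : IsFiniteMeasure (volume.restrict K') :=
      isFiniteMeasure_restrict.mpr hK'.measure_lt_top.ne
    have i1 : IntegrableOn (fun x => (U x - c) ^ 2) K' := intOn hK' (hfc.pow 2)
    have i2 : IntegrableOn (fun x => κ * ‖fderiv ℝ U x‖ ^ 2) K' :=
      intOn hK' (continuous_const.mul hgc)
    have i3 : IntegrableOn (fun x => (U x - c) ^ 2 - κ * ‖fderiv ℝ U x‖ ^ 2) K' := i1.sub i2
    rw [integral_sub i3 (integrable_const _), integral_sub i1 i2, integral_const_mul,
      setIntegral_const, smul_eq_mul, mul_comm (volume.real K')]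
  set gap := (∫ x in K, (U x - c) ^ 2) - κ * ∫ x in K, ‖fderiv ℝ U x‖ ^ 2 with hgap
  have hgap0 : 0 < gap := by linarith
  have hV0 : 0 ≤ volume.real K := measureReal_nonneg
  set δ := gap / (volume.real K + 1) with hδ
  have hδ0 : 0 < δ := by positivity
  have hgood : Good (fun x => U x - c) (fun x => (U x - c) ^ 2 - κ * ‖fderiv ℝ U x‖ ^ 2 - δ) K := by
    refine ⟨ho, hc, hb, h0, ?_⟩
    rw [hexp K hb]
    have : δ * (volume.real K + 1) = gap := by rw [hδ]; field_simp
    linarith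
  obtain ⟨κ₁, hκ₁, hκ₂⟩ := exists_between hκ
  have hκ₁0 : 0 < κ₁ := lt_of_le_of_lt (by positivity) hκ₁
  set η₁ := κ / κ₁ - 1 with hη₁
  have hη₁0 : 0 < η₁ := by rw [hη₁, sub_pos, lt_div_iff₀ hκ₁0]; linarith
  have hη₁κ : (1 + η₁) * κ₁ = κ := by rw [hη₁]; field_simp; ring
  obtain ⟨η, hη0, hη⟩ : ∃ η : ℝ, 0 < η ∧ κ * η + (1 + 1 / η₁) * η ^ 2 ≤ δ := by
    have h1 : Tendsto (fun η : ℝ => κ * η + (1 + 1 / η₁) * η ^ 2) (𝓝[>] 0)
        (𝓝 (κ * 0 + (1 + 1 / η₁) * 0 ^ 2)) :=
      tendsto_nhdsWithin_of_tendsto_nhds (Continuous.tendsto (by fun_prop) _)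
    obtain ⟨η, h2, h3⟩ := ((h1.eventually (gt_mem_nhds (by simpa using hδ0))).and
      self_mem_nhdsWithin).exists
    exact ⟨η, h3, h2.le⟩
  obtain ⟨r₀, hr₀, hmod⟩ : ∃ r₀ : ℝ, 0 < r₀ ∧ ∀ x ∈ K, ∀ y, ‖x - y‖ ≤ r₀ →
      |U x - U y| ≤ η ∧ ‖fderiv ℝ U y‖ ^ 2 ≤ ‖fderiv ℝ U x‖ ^ 2 + η := by
    have hcp : IsCompact (cthickening 1 K) := hb.cthickening.isCompact_closure.of_isClosed_subset
      isClosed_cthickening subset_closure
    obtain ⟨δ₁, h1, h2⟩ := Metric.uniformContinuousOn_iff_le.mp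
      (hcp.uniformContinuousOn_of_continuous hU.continuous.continuousOn) η hη0
    obtain ⟨δ₂, h3, h4⟩ := Metric.uniformContinuousOn_iff_le.mp
      (hcp.uniformContinuousOn_of_continuous hgc.continuousOn) η hη0
    refine ⟨min 1 (min δ₁ δ₂), by positivity, fun x hx y hy => ?_⟩
    rw [← dist_eq_norm, le_min_iff, le_min_iff] at hy
    have h5 : y ∈ cthickening 1 K :=
      mem_cthickening_of_dist_le y x 1 K hx (by rw [dist_comm]; exact hy.1)
    have h6 := self_subset_cthickening (δ := 1) K hx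
    have h7 := h4 x h6 y h5 hy.2.2
    rw [Real.dist_eq, abs_le] at h7
    exact ⟨h2 x h6 y h5 hy.2.1, by linarith [h7.1]⟩
  have hl1 := const_lim (κ := D ^ 2 / κ₁) (by
    rw [div_lt_iff₀ hκ₁0]; rw [div_lt_iff₀ hπ] at hκ₁; linarith)
  have hl2 : ∀ᶠ N : ℕ in atTop, D * (1 / ((N : ℝ) + 1)) < r₀ / 4 := by
    have := tendsto_one_div_add_atTop_nhds_zero_nat (𝕜 := ℝ).const_mul D
    exact this.eventually (gt_mem_nhds (by simpa using hr₀))
  obtain ⟨N, hN1, hN2, hN3⟩ := (hl1.and (hl2.and (eventually_ge_atTop 1))).exists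
  have hd1 : (0 : ℝ) < d := by exact_mod_cast hd
  set ε := r₀ / 4 / (48 * d ^ 2) with hε
  have hε0 : 0 < ε := by positivity
  have hΦc : Continuous fun x => (U x - c) ^ 2 - κ * ‖fderiv ℝ U x‖ ^ 2 - δ :=
    ((hfc.pow 2).sub (continuous_const.mul hgc)).sub continuous_const
  obtain ⟨K', hK', hG, hmiss⟩ := cut_all hfc hΦc hgood hε0
  have hne : K'.Nonempty := by
    by_contra h
    have h1 := hG.pos
    rw [not_nonempty_iff_eq_empty.mp h] at h1
    simp at h1
  obtain ⟨a, e, he, hthin⟩ := thin hd hG.op hG.cv hG.bd hne hε0 hmiss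
  have e1 : 48 * (d : ℝ) ^ 2 * ε = r₀ / 4 := by rw [hε]; field_simp
  rw [e1] at hthin
  obtain ⟨m, hm⟩ := needle hG.op hG.cv hG.bd hne (fun x hx y hy => hD x (hK' hx) y (hK' hy)) he
    hthin hN3 (r₀ := r₀) (by rw [mul_one_div] at hN2; linarith) hη0.le hη₁0 hU
    fun x hx => hmod x (hK' hx)
  set l := 2 - 2 * Real.cos (Real.pi / (N + 1)) with hl
  have hl0 : 0 < l := by
    have hN1 : (1 : ℝ) ≤ N := by exact_mod_cast hN3
    have h1 : Real.cos (Real.pi / (N + 1)) < Real.cos 0 := by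
      refine Real.cos_lt_cos_of_nonneg_of_le_pi le_rfl ?_ (div_pos Real.pi_pos (by linarith))
      exact div_le_self Real.pi_pos.le (by linarith)
    rw [Real.cos_zero] at h1
    linarith
  have h1 : (D / (N + 1)) ^ 2 ≤ κ₁ * l := by
    rw [div_pow, div_le_iff₀ (by positivity)]
    rw [div_le_iff₀ hκ₁0] at hN1
    linarith
  have hV : 0 ≤ volume.real K' := measureReal_nonneg
  have hE : 0 ≤ ∫ x in K', ‖fderiv ℝ U x‖ ^ 2 := integral_nonneg fun _ => sq_nonneg _
  have h2 : ∫ x in K', (U x - m) ^ 2 ≤ κ * ((∫ x in K', ‖fderiv ℝ U x‖ ^ 2) + η * volume.real K') +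
      (1 + 1 / η₁) * η ^ 2 * volume.real K' := by
    refine le_of_mul_le_mul_left (hm.trans ?_) hl0
    have h3 := mul_le_mul_of_nonneg_right
      (mul_le_mul_of_nonneg_left h1 (show 0 ≤ 1 + η₁ by positivity))
      (show 0 ≤ (∫ x in K', ‖fderiv ℝ U x‖ ^ 2) + η * volume.real K' by positivity)
    rw [← mul_assoc, hη₁κ] at h3
    linarith
  have h3 : ∫ x in K', (U x - c) ^ 2 ≤ ∫ x in K', (U x - m) ^ 2 := by
    have i1 : IntegrableOn (fun x => (U x - c) ^ 2) K' := intOn hG.bd (hfc.pow 2)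
    have i2 : IntegrableOn (fun x => 2 * (c - m) * (U x - c)) K' :=
      intOn hG.bd (continuous_const.mul hfc)
    have h4 : ∫ x in K', ((U x - c) ^ 2 + 2 * (c - m) * (U x - c)) ≤ ∫ x in K', (U x - m) ^ 2 :=
      integral_mono (i1.add i2) (intOn hG.bd ((hU.continuous.sub continuous_const).pow 2))
        fun x => by simp only; nlinarith [sq_nonneg (c - m)]
    rw [integral_add i1 i2, integral_const_mul, hG.mean] at h4
    linarith
  have h4 := hG.pos
  rw [hexp K' hG.bd] at h4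
  nlinarith [mul_le_mul_of_nonneg_right hη hV]

/-- The Payne-Weinberger inequality for `H¹` functions on a convex domain. -/
theorem payne_weinberger (hd : 0 < d) {Ω : Set (ES d)} (ho : IsOpen Ω) (hc : Convex ℝ Ω)
    (hb : Bornology.IsBounded Ω) {D κ : ℝ} (hD : ∀ x ∈ Ω, ∀ y ∈ Ω, ‖x - y‖ ≤ D)
    (hκ : D ^ 2 / Real.pi ^ 2 < κ) : Poin Ω κ := by
  intro u g h
  obtain ⟨U, G, r, hr, hU, hG, hG0, hGi, hUG, hlim⟩ := approx ho h
  have hκ0 : 0 < κ := lt_of_le_of_lt (by positivity) hκ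
  have : IsFiniteMeasure (volume.restrict Ω) := isFiniteMeasure_restrict.mpr hb.measure_lt_top.ne
  set K : ℕ → Set (ES d) := fun n => Ω ∩ interior {z | closedBall z (r n) ⊆ Ω} with hK
  have hKo : ∀ n, IsOpen (K n) := fun n => ho.inter isOpen_interior
  have hKb : ∀ n, Bornology.IsBounded (K n) := fun n => hb.subset inter_subset_left
  have hKc : ∀ n, Convex ℝ (K n) := by
    intro n
    refine hc.inter (Convex.interior ?_)
    intro x hx y hy s t hs ht hst w hw
    have h1 : ∀ z : ES d, z + (w - (s • x + t • y)) ∈ closedBall z (r n) := fun z => by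
      rw [mem_closedBall, dist_eq_norm] at hw ⊢
      rwa [add_sub_cancel_left]
    have h2 := hc (hx (h1 x)) (hy (h1 y)) hs ht hst
    have e : s • (x + (w - (s • x + t • y))) + t • (y + (w - (s • x + t • y))) = w := by
      have : t = 1 - s := by linarith
      rw [this]
      module
    rwa [e] at h2
  have hex : ∀ n, ∃ c : ℝ, ∫ x in K n, (U n x - c) ^ 2 ≤ κ * ∫ x in Ω, ‖g x‖ ^ 2 := by
    intro n
    obtain ⟨c, hc'⟩ := smooth_pw hd (hKo n) (hKc n) (hKb n)
      (fun x hx y hy => hD x hx.1 y hy.1) hκ (hU n)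
    refine ⟨c, hc'.trans (mul_le_mul_of_nonneg_left ?_ hκ0.le)⟩
    rw [← (hGi n).2]
    refine le_trans (setIntegral_mono_on (intOn (hKb n)
      (((hU n).continuous_fderiv (by simp)).norm.pow 2)) (hGi n).1.integrableOn
      (hKo n).measurableSet fun x hx => hUG n x (interior_subset hx.2)) ?_
    exact setIntegral_le_integral (hGi n).1 (Eventually.of_forall (hG0 n))
  choose c hc' using hex
  refine var_limit (volume.restrict Ω) h.1 U (fun n => (hU n).continuous.measurable) K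
    (fun n => (hKo n).measurableSet) ?_
    (mul_nonneg hκ0.le (integral_nonneg fun _ => sq_nonneg _)) c fun n => ?_
  · filter_upwards [ae_restrict_mem ho.measurableSet, ae_restrict_of_ae hlim] with x hx h1
    refine ⟨?_, h1 hx⟩
    obtain ⟨δ, hδ, hδ'⟩ := Metric.isOpen_iff.mp ho x hx
    filter_upwards [hr.eventually (gt_mem_nhds (half_pos hδ))] with n hn
    refine ⟨hx, mem_interior.mpr ⟨ball x (δ / 2), fun z hz w hw => hδ' ?_, isOpen_ball,
      mem_ball_self (half_pos hδ)⟩⟩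
    rw [mem_closedBall] at hw
    rw [mem_ball] at hz ⊢
    linarith [dist_triangle w z x]
  · rw [Measure.restrict_restrict (hKo n).measurableSet, inter_eq_left.mpr inter_subset_left,
      ← ofReal_integral_eq_lintegral_ofReal (f := fun x => (U n x - c n) ^ 2)
        (intOn (hKb n) (((hU n).continuous.sub continuous_const).pow 2))
        (Eventually.of_forall fun _ => sq_nonneg _)]
    exact ENNReal.ofReal_le_ofReal (hc' n)

end Pool.Agent.Lib.NV46
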