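import Pool.Agent.Lib.NV46.Base

/-! Comparison of an `H¹` function with its transport along volume expanding maps. -/

set_option autoImplicit false

open MeasureTheory Set Filter Topology Metric
open scoped ContDiff NNReal ENNReal

namespace Pool.Agent.Lib.NV46

open Pool.Agent.Lib.MP_770ffc_an

variable {E : Type} [NormedAddCommGroup E] [InnerProductSpace ℝ E] [FiniteDimensional ℝ E]
  [MeasurableSpace E] [BorelSpace E]

lemma transport {Ω A : Set E} (hΩ : IsOpen Ω) (hA : MeasurableSet A) {u : E → ℝ} {g : E → E}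
    (h : IsH1 Ω u g) {v : E → E} (hv : Continuous v)
    (hmap : ∀ t ∈ Icc (0 : ℝ) 1, Measure.map (fun x => x + t • v x) volume ≤ volume) {L : ℝ}
    (hL0 : 0 ≤ L) (hL : ∀ x ∈ A, ‖v x‖ ^ 2 ≤ L)
    (hseg : ∀ x ∈ A, ∀ t ∈ Icc (0 : ℝ) 1, x + t • v x ∈ Ω) :
    ∫⁻ x in A, ENNReal.ofReal ((u (x + v x) - u x) ^ 2) ≤
      ENNReal.ofReal (L * ∫ x in Ω, ‖g x‖ ^ 2) := by
  obtain ⟨U, G, r, hr, hU, hG, hG0, hGi, hUG, hlim⟩ := approx hΩ h
  have hq : Measure.QuasiMeasurePreserving (fun x => x + v x) volume volume :=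
    ⟨by fun_prop, Measure.absolutelyContinuous_of_le (by simpa using hmap 1 (by simp))⟩
  have hlim' : ∀ᵐ x, x + v x ∈ Ω → Tendsto (fun n => U n (x + v x)) atTop (𝓝 (u (x + v x))) :=
    hq.ae hlim
  let W : ℕ → E → ℝ≥0∞ := fun n x =>
    ENNReal.ofReal L * ∫⁻ t in Ioc (0 : ℝ) 1, ENNReal.ofReal (G n (x + t • v x))
  have hcm : ∀ n, Measurable fun p : E × ℝ => ENNReal.ofReal (G n (p.1 + p.2 • v p.1)) := fun n =>
    ENNReal.measurable_ofReal.comp ((hG n).comp (by fun_prop)).measurable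
  have hWm : ∀ n, Measurable (W n) := fun n =>
    (Measurable.lintegral_prod_right (f := fun (x : E) (t : ℝ) =>
      ENNReal.ofReal (G n (x + t • v x))) (hcm n)).const_mul _
  have hpt : ∀ᵐ x ∂(volume.restrict A), ENNReal.ofReal ((u (x + v x) - u x) ^ 2) ≤
      liminf (fun n => W n x) atTop := by
    filter_upwards [ae_restrict_mem hA, ae_restrict_of_ae hlim, ae_restrict_of_ae hlim']
      with x hx h1 h2
    have h3 : Tendsto (fun n => ENNReal.ofReal ((U n (x + v x) - U n x) ^ 2)) atTop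
        (𝓝 (ENNReal.ofReal ((u (x + v x) - u x) ^ 2))) :=
      (ENNReal.continuous_ofReal.tendsto _).comp
        (((h2 (by simpa using hseg x hx 1 (by simp))).sub
          (h1 (by simpa using hseg x hx 0 (by simp)))).pow 2)
    rw [← h3.liminf_eq]
    refine liminf_le_liminf ?_
    have hK : IsCompact ((fun t : ℝ => x + t • v x) '' Icc 0 1) :=
      isCompact_Icc.image (by fun_prop)
    obtain ⟨δ, hδ, hδ'⟩ := hK.exists_cthickening_subset_open hΩ
      (by rintro _ ⟨t, ht, rfl⟩; exact hseg x hx t ht)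
    filter_upwards [hr.eventually (gt_mem_nhds hδ)] with n hn
    have h4 := seg_sq_le (hU n) (hG n) (x := x) (v := v x) fun t ht => hUG n _
      (((closedBall_subset_closedBall hn.le).trans
        (closedBall_subset_cthickening (mem_image_of_mem _ ht) δ)).trans hδ')
    have h5 := mul_le_mul_of_nonneg_right (hL x hx) (intervalIntegral.integral_nonneg (μ := volume)
      (f := fun t : ℝ => G n (x + t • v x)) zero_le_one fun t _ => hG0 _ _)
    refine (ENNReal.ofReal_le_ofReal (h4.trans h5)).trans (le_of_eq ?_)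
    have hc : Continuous fun t : ℝ => G n (x + t • v x) := (hG n).comp (by fun_prop)
    rw [ENNReal.ofReal_mul hL0, intervalIntegral.integral_of_le (by norm_num),
      ofReal_integral_eq_lintegral_ofReal (hc.integrableOn_Icc.mono_set Ioc_subset_Icc_self)
        (Eventually.of_forall fun t => hG0 _ _)]
  refine (lintegral_mono_ae hpt).trans ((lintegral_liminf_le hWm).trans ?_)
  refine liminf_le_of_frequently_le' (Frequently.of_forall fun n => ?_)
  refine (setLIntegral_le_lintegral _ _).trans ?_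
  have h5 : ∀ t ∈ Ioc (0 : ℝ) 1, ∫⁻ x, ENNReal.ofReal (G n (x + t • v x)) ≤
      ENNReal.ofReal (∫ x in Ω, ‖g x‖ ^ 2) := by
    intro t ht
    rw [← (hGi n).2, ofReal_integral_eq_lintegral_ofReal (hGi n).1 (Eventually.of_forall (hG0 n)),
      ← lintegral_map (f := fun x => ENNReal.ofReal (G n x)) (g := fun x => x + t • v x)
        (hG n).measurable.ennreal_ofReal (by fun_prop)]
    exact lintegral_mono' (hmap t (Ioc_subset_Icc_self ht)) le_rfl
  simp only [W]
  rw [lintegral_const_mul' _ _ ENNReal.ofReal_ne_top, lintegral_lintegral_swap (hcm n).aemeasurable,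
    ENNReal.ofReal_mul hL0]
  refine mul_le_mul_right ((setLIntegral_mono' measurableSet_Ioc h5).trans (le_of_eq ?_)) _
  simp

lemma step {Ω A A' : Set E} (hΩ : IsOpen Ω) (hΩ1 : volume Ω ≠ ⊤) (hA : MeasurableSet A)
    (hA' : MeasurableSet A') (hA'Ω : A' ⊆ Ω) {u : E → ℝ} {g : E → E}
    (h : IsH1 Ω u g) {v : E → E} (hv : Continuous v)
    (hmap : ∀ t ∈ Icc (0 : ℝ) 1, Measure.map (fun x => x + t • v x) volume ≤ volume) {L : ℝ}
    (hL0 : 0 ≤ L) (hL : ∀ x ∈ A, ‖v x‖ ^ 2 ≤ L)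
    (hseg : ∀ x ∈ A, ∀ t ∈ Icc (0 : ℝ) 1, x + t • v x ∈ Ω) {J θ : ℝ} (hJ : 0 ≤ J)
    (hθ : 0 < θ) (hθ1 : θ < 1)
    (hJm : Measure.map (fun x => x + v x) volume ≤ ENNReal.ofReal J • volume)
    (hto : ∀ x ∈ A, x + v x ∈ A') (c : ℝ) :
    ∫ x in A, (u x - c) ^ 2 ≤
      1 / (1 - θ) * (L * ∫ x in Ω, ‖g x‖ ^ 2) + 1 / θ * (J * ∫ x in A', (u x - c) ^ 2) := by
  have : IsFiniteMeasure (volume.restrict Ω) := isFiniteMeasure_restrict.mpr hΩ1
  have hi : IntegrableOn (fun x => (u x - c) ^ 2) Ω := (h.1.sub (memLp_const c)).integrable_sq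
  have hAΩ : A ⊆ Ω := fun x hx => by simpa using hseg x hx 0 (by simp)
  have hΦ : Measurable fun x => x + v x := by fun_prop
  have hle : Measure.map (fun x => x + v x) (volume.restrict A) ≤
      ENNReal.ofReal J • volume.restrict A' := by
    refine Measure.le_iff.mpr fun s hs => ?_
    have h1 := hJm (s ∩ A')
    rw [Measure.map_apply hΦ (hs.inter hA')] at h1
    rw [Measure.map_apply hΦ hs, Measure.restrict_apply (hΦ hs), Measure.smul_apply,
      Measure.restrict_apply hs]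
    refine le_trans (measure_mono fun x hx => ?_) h1
    exact ⟨hx.1, hto x hx.2⟩
  have hF : AEMeasurable (fun x => ENNReal.ofReal ((u x - c) ^ 2))
      (Measure.map (fun x => x + v x) (volume.restrict A)) :=
    ((hi.mono_set hA'Ω).aemeasurable.ennreal_ofReal.smul_measure _).mono_measure hle
  have h1 : ∫⁻ x in A, ENNReal.ofReal ((u (x + v x) - c) ^ 2) ≤
      ENNReal.ofReal (J * ∫ x in A', (u x - c) ^ 2) := by
    rw [← lintegral_map' hF hΦ.aemeasurable, ENNReal.ofReal_mul hJ,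
      ofReal_integral_eq_lintegral_ofReal (hi.mono_set hA'Ω)
        (Eventually.of_forall fun _ => sq_nonneg _), ← smul_eq_mul, ← lintegral_smul_measure]
    exact lintegral_mono' hle le_rfl
  have h2 := transport hΩ hA h hv hmap hL0 hL hseg
  have h3 : 0 < 1 - θ := by linarith
  have h4 : 0 ≤ L * ∫ x in Ω, ‖g x‖ ^ 2 := mul_nonneg hL0 (integral_nonneg fun _ => sq_nonneg _)
  have h5 : 0 ≤ J * ∫ x in A', (u x - c) ^ 2 :=
    mul_nonneg hJ (integral_nonneg fun _ => sq_nonneg _)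
  rw [← ENNReal.ofReal_le_ofReal_iff (by positivity), ofReal_integral_eq_lintegral_ofReal
    (hi.mono_set hAΩ) (Eventually.of_forall fun _ => sq_nonneg _),
    ENNReal.ofReal_add (by positivity) (by positivity), ENNReal.ofReal_mul (by positivity),
    ENNReal.ofReal_mul (p := 1 / θ) (by positivity)]
  refine le_trans ?_ (add_le_add (mul_le_mul_right h2 _) (mul_le_mul_right h1 _))
  have hF' : AEMeasurable (fun x => ENNReal.ofReal ((u (x + v x) - c) ^ 2)) (volume.restrict A) :=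
    hF.comp_measurable hΦ
  rw [← lintegral_const_mul' _ _ ENNReal.ofReal_ne_top,
    ← lintegral_const_mul' _ _ ENNReal.ofReal_ne_top, ← lintegral_add_right' _ (hF'.const_mul _)]
  refine lintegral_mono fun x => ?_
  rw [← ENNReal.ofReal_mul (by positivity), ← ENNReal.ofReal_mul (by positivity),
    ← ENNReal.ofReal_add (by positivity) (by positivity)]
  refine ENNReal.ofReal_le_ofReal ?_
  generalize u (x + v x) = p
  have h6 : 1 / (1 - θ) * (p - u x) ^ 2 + 1 / θ * (p - c) ^ 2 - (u x - c) ^ 2 =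
      (θ * (p - u x) + (1 - θ) * (p - c)) ^ 2 / (θ * (1 - θ)) := by field_simp; ring
  have h7 : 0 ≤ (θ * (p - u x) + (1 - θ) * (p - c)) ^ 2 / (θ * (1 - θ)) := by positivity
  linarith

lemma bracket_poin {Ω : Set E} (hΩ : MeasurableSet Ω) (hΩ1 : volume Ω ≠ ⊤) {k : ℕ}
    (C : ℕ → Set E) (hCm : ∀ i, MeasurableSet (C i)) (hC : ∀ i < k, C i ⊆ Ω)
    (hd : Pairwise (Function.onFun Disjoint C)) (hcov : ∀ᵐ x, x ∈ Ω → ∃ i < k, x ∈ C i) {κ : ℝ}
    (hκ : 0 < κ) (h : ∀ i < k, Poin (C i) κ) {t : ℝ} (ht : t ∈ Adm Ω k) : 1 / κ ≤ t := by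
  refine bracket hΩ hΩ1 (Finset.range k) (by simp) C hCm (by simpa using hC) (by simpa using hcov)
    hκ (fun u g hu => ?_) ht
  have hex : ∀ i, ∃ c : ℝ, i < k → ∫ x in C i, (u x - c) ^ 2 ≤ κ * ∫ x in C i, ‖g x‖ ^ 2 := by
    intro i
    by_cases hi : i < k
    · obtain ⟨c, hc⟩ := h i hi u g (h1_mono (hC i hi) hΩ hu)
      exact ⟨c, fun _ => hc⟩
    · exact ⟨0, fun h => absurd h hi⟩
  choose c hc using hex
  refine ⟨c, (Finset.sum_le_sum fun i hi => hc i (Finset.mem_range.mp hi)).trans ?_⟩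
  rw [← Finset.mul_sum]
  refine mul_le_mul_of_nonneg_left ?_ hκ.le
  have hi : IntegrableOn (fun x => ‖g x‖ ^ 2) Ω := hu.int_sq
  rw [← integral_biUnion_finset _ (fun i _ => hCm i) (fun i _ j _ hij => hd hij)
    fun i hi' => hi.mono_set (hC i (Finset.mem_range.mp hi'))]
  exact setIntegral_mono_set hi (Eventually.of_forall fun _ => sq_nonneg _)
    (iUnion₂_subset fun i hi' => hC i (Finset.mem_range.mp hi')).eventuallyLE

end Pool.Agent.Lib.NV46
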