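import Pool.Agent.Lib.NV46.Up1

/-! Regions below a profile, the expanding maps, and the cosine test functions on a box. -/

set_option autoImplicit false

open MeasureTheory Set Filter Topology Metric
open scoped ContDiff NNReal ENNReal

namespace Pool.Agent.Lib.NV46

open Pool.Agent.Lib.MP_770ffc_an

variable {m : ℕ}

/-- The region below the profile `W` over the interval `(α, β)`. -/
def Horn (m : ℕ) (W : ℝ → ℝ) (α β : ℝ) : Set (ES (m + 1)) :=
  {x | (α < x 0 ∧ x 0 < β) ∧ ∀ i : Fin m, 0 < x i.succ ∧ x i.succ < W (x 0)}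

lemma isOpen_Horn {W : ℝ → ℝ} (hW : Continuous W) (α β : ℝ) : IsOpen (Horn m W α β) := by
  simp only [Horn, ofPred_and, ofPred_forall]
  exact ((isOpen_lt continuous_const (by fun_prop)).inter
    (isOpen_lt (by fun_prop) continuous_const)).inter (isOpen_iInter_of_finite fun i =>
      (isOpen_lt continuous_const (by fun_prop)).inter (isOpen_lt (by fun_prop) (by fun_prop)))

lemma Horn_subset {W : ℝ → ℝ} {M : ℝ} (h : ∀ t, W t ≤ M) (α β : ℝ) :
    Horn m W α β ⊆ Box (sd α 0) (sd β M) := fun _ hx =>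
  mem_Box_sd.mpr ⟨hx.1, fun i => ⟨(hx.2 i).1, (hx.2 i).2.trans_le (h _)⟩⟩

lemma lip_Horn {W : ℝ → ℝ} (hW : Continuous W) {L δ M : ℝ} (hL : 0 < L) (hδ : 0 < δ)
    (h1 : ∀ t, 0 < t → t < L → δ ≤ W t) (h2 : ∀ t, W t ≤ M)
    (h3 : ∀ s t, W s ≤ W t + |s - t| / 2) : IsLipschitzDomain (Horn m W 0 L) := by
  have hopen := isOpen_Horn (m := m) hW 0 L
  have hB : Box (sd 0 0) (sd L δ) ⊆ Horn m W 0 L := fun x hx => by
    rw [mem_Box_sd] at hx
    exact ⟨hx.1, fun i => ⟨(hx.2 i).1, (hx.2 i).2.trans_le (h1 _ hx.1.1 hx.1.2)⟩⟩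
  have hp : ∀ t, 0 < t → t < L →
      (WithLp.toLp 2 (sd t (δ / 2)) : ES (m + 1)) ∈ Box (sd 0 0) (sd L δ) := fun t h4 h5 => by
    rw [mem_Box_sd]
    simp only [sd_zero, sd_succ]
    exact ⟨⟨h4, h5⟩, fun _ => ⟨by linarith, by linarith⟩⟩
  have hz := hp (L / 2) (by linarith) (by linarith)
  refine ⟨hopen, ⟨⟨_, hB hz⟩, isPreconnected_of_forall
    (WithLp.toLp 2 (sd (L / 2) (δ / 2))) fun y hy => ?_⟩,
    (isBounded_Box _ _).subset (Horn_subset h2 _ _), fun x₀ hx₀ => ?_⟩
  · set S : Set (ES (m + 1)) :=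
      {x | x 0 = y 0 ∧ ∀ i : Fin m, 0 < x i.succ ∧ x i.succ < W (y 0)} with hS
    have hSc : Convex ℝ S := fun a ha b hb s t hs ht hst =>
      ⟨convex_singleton (y 0) ha.1 hb.1 hs ht hst,
        fun i => convex_Ioo 0 (W (y 0)) (ha.2 i) (hb.2 i) hs ht hst⟩
    refine ⟨Box (sd 0 0) (sd L δ) ∪ S, union_subset hB fun x hx => ?_, Or.inl hz,
      Or.inr ⟨rfl, hy.2⟩, IsPreconnected.union _ (hp _ hy.1.1 hy.1.2) ?_
        (convex_Box _ _).isPreconnected hSc.isPreconnected⟩
    · exact ⟨hx.1 ▸ hy.1, hx.1 ▸ hx.2⟩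
    · simp only [hS, mem_ofPred_eq, sd_zero, sd_succ, true_and]
      exact fun _ => ⟨by linarith, by linarith [h1 _ hy.1.1 hy.1.2]⟩
  have hcl := frontier_subset_closure hx₀
  have hnn : ∀ i, 0 ≤ x₀ i := by
    intro i
    refine closure_minimal (t := {x : ES (m + 1) | 0 ≤ x i}) (fun y hy => ?_)
      (isClosed_le continuous_const (by fun_prop)) hcl
    cases i using Fin.cases with
    | zero => exact hy.1.1.le
    | succ i => exact (hy.2 i).1.le
  obtain ⟨r, hr, hrδ, hrL, hr'⟩ : ∃ r : ℝ, 0 < r ∧ r < δ ∧ r < L ∧ ∀ i, x₀ i ≠ 0 → r < x₀ i := by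
    have h1 : ∀ᶠ r in 𝓝[>] (0 : ℝ), r < δ ∧ r < L ∧ ∀ i, x₀ i ≠ 0 → r < x₀ i := by
      refine nhdsWithin_le_nhds ((gt_mem_nhds hδ).and ((gt_mem_nhds hL).and
        (eventually_all.mpr fun i => ?_)))
      by_cases hi : x₀ i = 0
      · simp [hi]
      · filter_upwards [gt_mem_nhds (lt_of_le_of_ne (hnn i) (Ne.symm hi))] with r hr _ using hr
    obtain ⟨r, h2, h3⟩ := (h1.and self_mem_nhdsWithin).exists
    exact ⟨r, h3, h2⟩
  set q : ℝ := √((m + 1 : ℕ) : ℝ) with hq
  have hsd : 0 < q := Real.sqrt_pos.mpr (by positivity)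
  set v : ES (m + 1) := WithLp.toLp 2 fun i => (if x₀ i = 0 then -1 else 1) / q with hv
  have hv1 : ‖v‖ = 1 := by
    rw [← sq_eq_sq₀ (norm_nonneg _) zero_le_one, EuclideanSpace.norm_sq_eq]
    have : ∀ i, ‖v i‖ ^ 2 = 1 / (m + 1 : ℕ) := by
      intro i
      simp only [hv, hq, Real.norm_eq_abs, sq_abs, div_pow, Real.sq_sqrt (Nat.cast_nonneg _)]
      split_ifs <;> norm_num
    simp only [this, Finset.sum_const, Finset.card_univ, Fintype.card_fin, nsmul_eq_mul]
    field_simp
  obtain ⟨K, γ, h4, h5, h6⟩ := graph_of_cone hopen hcl hr hv1 (L := 3 * q) (by positivity) (by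
    rintro x hx y ⟨hy, hy'⟩ hlt
    have h5 : inner ℝ (x - y) v = -inner ℝ (y - x) v := by
      rw [← inner_neg_left, neg_sub]
    set t := inner ℝ (y - x) v
    have key : ∀ i, (0 < x i ∧ x i < r ∨ r < x₀ i ∧ 0 < x i ∧ x i < y i - 2 / 3 * (t / q)) ∧
        |y i - x i| < 4 / 3 * (t / q) := by
      intro i
      have h4 : |((x - y) - inner ℝ (x - y) v • v) i| ≤ ‖(x - y) - inner ℝ (x - y) v • v‖ :=
        PiLp.norm_apply_le ((x - y) - inner ℝ (x - y) v • v) i
      have h6 : |x i - y i + t * v i| < t / q / 3 := by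
        rw [div_div, lt_div_iff₀ (by positivity)]
        refine lt_of_le_of_lt ?_ hlt
        rw [mul_comm, mul_comm q]
        refine mul_le_mul_of_nonneg_left (le_of_eq_of_le ?_ h4) (by positivity)
        rw [h5]; simp
      have h7 : |x i - x₀ i| < r :=
        lt_of_le_of_lt (PiLp.norm_apply_le (x - x₀) i) (by rwa [mem_ball, dist_eq_norm] at hx)
      have h8 : 0 < y i := by
        cases i using Fin.cases with
        | zero => exact hy.1.1
        | succ i => exact (hy.2 i).1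
      have h9 := (abs_nonneg _).trans_lt h6
      rw [abs_lt] at h6 h7 ⊢
      by_cases hi : x₀ i = 0
      · have : t * v i = -(t / q) := by simp only [hv, hi, if_true]; ring
        rw [this] at h6
        exact ⟨Or.inl ⟨by linarith [h6.1], by linarith [h7.2]⟩, by linarith [h6.2],
          by linarith [h6.1]⟩
      · have : t * v i = t / q := by simp only [hv, hi, if_false]; ring
        rw [this] at h6
        exact ⟨Or.inr ⟨hr' i hi, by linarith [h7.1, hr' i hi], by linarith [h6.2]⟩,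
          by linarith [h6.2], by linarith [h6.1]⟩
    have h9 := (abs_nonneg _).trans_lt (key 0).2
    have h0 : 0 < x 0 ∧ x 0 < L := by
      rcases (key 0).1 with h | h
      · exact ⟨h.1, h.2.trans hrL⟩
      · exact ⟨h.2.1, by linarith [h.2.2, hy.1.2]⟩
    refine ⟨h0, fun i => ?_⟩
    rcases (key i.succ).1 with h | h
    · exact ⟨h.1, by linarith [h.2, h1 _ h0.1 h0.2]⟩
    · exact ⟨h.2.1, by linarith [h.2.2, (hy.2 i).2, h3 (y 0) (x 0), (key 0).2]⟩)
  exact ⟨r, v, K, γ, hr, hv1, h4, h5, h6⟩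

/-- Shift by `α` along the axis and dilation by `β` across it. -/
noncomputable def vf (m : ℕ) (α β : ℝ) (x : ES (m + 1)) : ES (m + 1) :=
  WithLp.toLp 2 fun i => if i = 0 then α else β * x i

lemma vf_zero (α β t : ℝ) (x : ES (m + 1)) : (x + t • vf m α β x) 0 = x 0 + t * α := by
  simp [vf]

lemma vf_succ (α β t : ℝ) (x : ES (m + 1)) (i : Fin m) :
    (x + t • vf m α β x) i.succ = (1 + t * β) * x i.succ := by
  simp [vf]; ring

lemma continuous_vf (α β : ℝ) : Continuous (vf m α β) := by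
  refine (PiLp.continuous_toLp 2 _).comp (continuous_pi fun i => ?_)
  split_ifs <;> fun_prop

lemma map_vf (α : ℝ) {β t : ℝ} (h : 0 < 1 + t * β) :
    Measure.map (fun x => x + t • vf m α β x) volume =
      ENNReal.ofReal ((1 + t * β) ^ m)⁻¹ • volume := by
  set T : ES (m + 1) →ₗ[ℝ] ES (m + 1) :=
    Matrix.toLpLin 2 2 (Matrix.diagonal (sd (m := m) 1 (1 + t * β))) with hT
  have hdet : LinearMap.det T = (1 + t * β) ^ m := by
    rw [hT, LinearMap.det_toLpLin, Matrix.det_diagonal, Fin.prod_univ_succ]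
    simp [sd_zero, sd_succ]
  have e : (fun x => x + t • vf m α β x) =
      (fun y => y + EuclideanSpace.single 0 (t * α)) ∘ T := by
    ext x i
    cases i using Fin.cases with
    | zero => rw [vf_zero]; simp [hT, Matrix.mulVec_diagonal, sd_zero]
    | succ i => rw [vf_succ]; simp [hT, Matrix.mulVec_diagonal, sd_succ]
  rw [e, ← Measure.map_map (by fun_prop) T.continuous_of_finiteDimensional.measurable,
    Measure.map_linearMap_addHaar_eq_smul_addHaar _ (by rw [hdet]; positivity), Measure.map_smul,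
    map_add_right_eq_self, hdet, abs_of_pos (by positivity)]

lemma map_vf_le (α : ℝ) {β : ℝ} (hβ : 0 ≤ β) :
    ∀ t ∈ Icc (0 : ℝ) 1, Measure.map (fun x => x + t • vf m α β x) volume ≤ volume := by
  intro t ht
  have h1 : 1 ≤ 1 + t * β := by nlinarith [ht.1]
  rw [map_vf α (by linarith)]
  intro s
  rw [Measure.smul_apply, smul_eq_mul]
  exact mul_le_of_le_one_left' (ENNReal.ofReal_le_one.mpr (inv_le_one_of_one_le₀ (one_le_pow₀ h1)))

lemma norm_vf (α β : ℝ) {w : ℝ} {x : ES (m + 1)} (hx : ∀ i : Fin m, 0 < x i.succ ∧ x i.succ < w) :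
    ‖vf m α β x‖ ^ 2 ≤ α ^ 2 + m * (β * w) ^ 2 := by
  rw [EuclideanSpace.norm_sq_eq, Fin.sum_univ_succ]
  refine add_le_add (by simp [vf]) ((Finset.sum_le_card_nsmul _ _ ((β * w) ^ 2)
    fun i _ => ?_).trans (by simp))
  simp only [vf, Fin.succ_ne_zero, if_false, Real.norm_eq_abs, sq_abs, mul_pow]
  exact mul_le_mul_of_nonneg_left (pow_le_pow_left₀ (hx i).1.le (hx i).2.le 2) (sq_nonneg _)

lemma box_int {L w : ℝ} (hL : 0 ≤ L) (hw : 0 ≤ w) (F : ℝ → ℝ) :
    ∫ x in Box (sd (m := m) 0 0) (sd L w), F (x 0) = w ^ m * ∫ t in (0 : ℝ)..L, F t := by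
  have h1 := (PiLp.volume_preserving_ofLp (Fin (m + 1))).setIntegral_preimage_emb
    (MeasurableEquiv.toLp 2 (Fin (m + 1) → ℝ)).symm.measurableEmbedding
    (fun x => ∏ i, (if i = 0 then F (x i) else 1))
    (Set.pi univ fun i => Ioo (sd (m := m) 0 0 i) (sd L w i))
  rw [volume_pi, Measure.restrict_pi_pi,
    integral_fintype_prod_eq_prod (fun i t => if i = 0 then F t else 1), ← Box_eq] at h1
  simp only [Fin.prod_univ_succ, if_true, Fin.succ_ne_zero, if_false, Finset.prod_const_one,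
    mul_one, sd_zero, sd_succ] at h1
  rw [h1, intervalIntegral.integral_of_le hL, integral_Ioc_eq_integral_Ioo, mul_comm]
  simp [hw]

lemma adm_box {k : ℕ} (hk : 1 ≤ k) {w : ℝ} (hw : 0 < w) :
    Real.pi ^ 2 / 4 ∈ Adm (Box (sd (m := m) 0 0) (sd (2 * k) w)) k := by
  have hk0 : (0 : ℝ) < k := by exact_mod_cast hk
  set ν := Real.pi / (2 * k) with hν
  have hν0 : 0 < ν := by positivity
  have hI : ∀ n : ℤ, ∫ t in (0 : ℝ)..2 * k, Real.cos (n * ν * t) =
      if n = 0 then 2 * (k : ℝ) else 0 := by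
    intro n
    split_ifs with h
    · simp [h]
    · rw [intervalIntegral.integral_comp_mul_left _ (mul_ne_zero (by exact_mod_cast h) hν0.ne'),
        integral_cos, show n * ν * (2 * k) = n * Real.pi by rw [hν]; field_simp]
      simp
  have hS : ∀ (c : Fin (k + 1) → ℝ) (σ : ℝ) (F : ℝ → ℝ),
      (∀ a b, F a * F b = (Real.cos (a - b) + σ * Real.cos (a + b)) / 2) →
      ∫ t in (0 : ℝ)..2 * k, (∑ i, c i * F ((i : ℕ) * ν * t)) ^ 2 =
        k * ∑ i, c i ^ 2 + σ * (k * c 0 ^ 2) := by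
    intro c σ F hF
    have e : ∀ t, (∑ i, c i * F ((i : ℕ) * ν * t)) ^ 2 = ∑ i, ∑ j, (c i * c j / 2 *
        Real.cos (((i : ℕ) - (j : ℕ) : ℤ) * ν * t) + σ * (c i * c j / 2) *
        Real.cos (((i : ℕ) + (j : ℕ) : ℤ) * ν * t)) := by
      intro t
      rw [sq, Finset.sum_mul_sum]
      refine Finset.sum_congr rfl fun i _ => Finset.sum_congr rfl fun j _ => ?_
      rw [mul_mul_mul_comm, hF]
      push_cast
      rw [sub_mul, sub_mul, add_mul, add_mul]
      ring
    simp only [e]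
    rw [intervalIntegral.integral_finsetSum fun i _ => Continuous.intervalIntegrable
      (by fun_prop) _ _]
    have e2 : ∀ i : Fin (k + 1), ∫ t in (0 : ℝ)..2 * k, ∑ j, (c i * c j / 2 *
        Real.cos (((i : ℕ) - (j : ℕ) : ℤ) * ν * t) + σ * (c i * c j / 2) *
        Real.cos (((i : ℕ) + (j : ℕ) : ℤ) * ν * t)) =
        k * c i ^ 2 + if i = 0 then σ * (k * c 0 ^ 2) else 0 := by
      intro i
      rw [intervalIntegral.integral_finsetSum fun i _ => Continuous.intervalIntegrable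
        (by fun_prop) _ _]
      have e3 : ∀ j : Fin (k + 1), ∫ t in (0 : ℝ)..2 * k, (c i * c j / 2 *
          Real.cos (((i : ℕ) - (j : ℕ) : ℤ) * ν * t) + σ * (c i * c j / 2) *
          Real.cos (((i : ℕ) + (j : ℕ) : ℤ) * ν * t)) = (if i = j then k * c i ^ 2 else 0) +
          if 0 = j then (if i = 0 then σ * (k * c 0 ^ 2) else 0) else 0 := by
        intro j
        rw [intervalIntegral.integral_add (Continuous.intervalIntegrable (by fun_prop) _ _)
          (Continuous.intervalIntegrable (by fun_prop) _ _), intervalIntegral.integral_const_mul,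
          intervalIntegral.integral_const_mul, hI, hI]
        congr 1
        · by_cases h : i = j
          · subst h; simp; ring
          · rw [if_neg h, if_neg (by have := Fin.val_ne_of_ne h; omega), mul_zero]
        · by_cases h : 0 = j ∧ i = 0
          · obtain ⟨rfl, rfl⟩ := h
            simp; ring
          · rw [if_neg fun h' => h ⟨Fin.ext (by rw [Fin.val_zero]; omega),
              Fin.ext (by rw [Fin.val_zero]; omega)⟩, mul_zero]
            split_ifs with h1 h2
            · exact absurd ⟨h1, h2⟩ h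
            · rfl
            · rfl
      simp only [e3, Finset.sum_add_distrib, Finset.sum_ite_eq, Finset.mem_univ, if_true]
    simp only [e2]
    simp only [Finset.sum_add_distrib, Finset.sum_ite_eq', Finset.mem_univ, if_true, Finset.mul_sum]
  have hcos := fun c => hS c 1 Real.cos fun a b => by rw [Real.cos_sub, Real.cos_add]; ring
  have hsin := fun c => hS c (-1) Real.sin fun a b => by rw [Real.cos_sub, Real.cos_add]; ring
  have hwm : 0 < w ^ m := by positivity
  refine adm_of_family (isOpen_Box _ _).measurableSet (isBounded_Box _ _)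
    (fun i x => Real.cos ((i : ℕ) * ν * x 0)) (fun i => by fun_prop) (fun c hc => ?_) fun c => ?_
  · rw [box_int (by positivity) hw.le fun t => (∑ i, c i * Real.cos ((i : ℕ) * ν * t)) ^ 2, hcos]
    obtain ⟨j, hj⟩ := Function.ne_iff.mp hc
    have := Finset.sum_pos' (fun i _ => sq_nonneg (c i))
      ⟨j, Finset.mem_univ _, sq_pos_of_ne_zero hj⟩
    positivity
  · have hd : ∀ x : ES (m + 1), ‖∑ i, c i • fderiv ℝ (fun x : ES (m + 1) =>
        Real.cos ((i : ℕ) * ν * x 0)) x‖ ^ 2 ≤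
        (∑ i : Fin (k + 1), c i * ((i : ℕ) * ν) * Real.sin ((i : ℕ) * ν * x 0)) ^ 2 := by
      intro x
      have h1 : ∀ i : Fin (k + 1), fderiv ℝ (fun x : ES (m + 1) => Real.cos ((i : ℕ) * ν * x 0)) x =
          (-((i : ℕ) * ν * Real.sin ((i : ℕ) * ν * x 0))) •
            EuclideanSpace.proj (𝕜 := ℝ) (0 : Fin (m + 1)) := fun i => by
        have h2 := ((EuclideanSpace.proj (𝕜 := ℝ) (0 : Fin (m + 1))).hasFDerivAt (x := x)).const_mul
          (((i : ℕ) : ℝ) * ν)
        refine (HasFDerivAt.fderiv h2.cos).trans ?_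
        rw [smul_smul]
        congr 1
        simp
        ring
      simp only [h1, smul_smul]
      rw [← Finset.sum_smul, ← sq_abs (∑ i : Fin (k + 1), _)]
      refine pow_le_pow_left₀ (norm_nonneg _) (ContinuousLinearMap.opNorm_le_bound _ (abs_nonneg _)
        fun y => ?_) 2
      rw [smul_apply, norm_smul, Real.norm_eq_abs]
      refine mul_le_mul (le_of_eq ?_) (PiLp.norm_apply_le y 0) (norm_nonneg _) (abs_nonneg _)
      rw [← abs_neg, ← Finset.sum_neg_distrib]
      congr 1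
      exact Finset.sum_congr rfl fun i _ => by ring
    refine (integral_mono_of_nonneg (Eventually.of_forall fun _ => sq_nonneg _)
      (((Continuous.continuousOn (by fun_prop)).integrableOn_compact
        (isBounded_Box _ _).isCompact_closure).mono_set subset_closure)
      (Eventually.of_forall hd)).trans ?_
    rw [box_int (by positivity) hw.le fun t => (∑ i, c i * Real.cos ((i : ℕ) * ν * t)) ^ 2, hcos,
      box_int (by positivity) hw.le fun t =>
        (∑ i : Fin (k + 1), c i * ((i : ℕ) * ν) * Real.sin ((i : ℕ) * ν * t)) ^ 2, hsin,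
      mul_left_comm (Real.pi ^ 2 / 4)]
    refine mul_le_mul_of_nonneg_left ?_ hwm.le
    have h2 : ∑ i : Fin (k + 1), (c i * ((i : ℕ) * ν)) ^ 2 ≤ Real.pi ^ 2 / 4 * ∑ i, c i ^ 2 := by
      rw [Finset.mul_sum]
      refine Finset.sum_le_sum fun i _ => ?_
      have h3 : ((i : ℕ) : ℝ) ≤ k := by exact_mod_cast Nat.lt_succ_iff.mp i.2
      have h4 : (i : ℕ) * ν ≤ Real.pi / 2 :=
        (mul_le_mul_of_nonneg_right h3 hν0.le).trans (le_of_eq (by rw [hν]; field_simp))
      have h5 := pow_le_pow_left₀ (by positivity) h4 2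
      nlinarith [sq_nonneg (c i)]
    have h3 : 0 ≤ Real.pi ^ 2 / 4 * (k * c 0 ^ 2) := by positivity
    have h4 : 0 ≤ k * (c 0 * (((0 : Fin (k + 1)) : ℕ) * ν)) ^ 2 := by positivity
    nlinarith [mul_le_mul_of_nonneg_left h2 hk0.le]

end Pool.Agent.Lib.NV46
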