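import Pool.Agent.Lib.NV46.Up2

/-! A chain of exponential horns around a thin box. -/

set_option autoImplicit false

open MeasureTheory Set Filter Topology Metric
open scoped ContDiff NNReal ENNReal

namespace Pool.Agent.Lib.NV46

open Pool.Agent.Lib.MP_770ffc_an

variable {m : ℕ}

lemma poin_cell {W : ℝ → ℝ} (hWc : Continuous W) {p H b y κ : ℝ} (hH : 0 < H) (hH1 : H ≤ 1)
    (hb : 0 ≤ b) (hW : ∀ t, |t - p| < 1 → W t = H * Real.exp (-(b * max 0 (|t - p| - H))))
    (hM : ∀ t, W t ≤ H) (hy : 0 < y) (hy1 : y < 1) (hJ : ((1 + b * H) ^ m)⁻¹ ≤ (1 - y) ^ 2)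
    {P : ℝ} (hP : P = 4 * ((m + 1 : ℕ) * (2 * H) ^ 2) * 2 ^ Module.finrank ℝ (ES (m + 1)))
    (hκ : (H ^ 2 + m * (b * H * H) ^ 2) / y ^ 2 + P + (4 * H ^ 2 + 4 * P) / y ≤ κ) :
    Poin (Horn m W (p - 1) (p + 1)) κ := by
  intro u g h
  set C := Horn m W (p - 1) (p + 1) with hC
  have hCo : IsOpen C := isOpen_Horn hWc _ _
  have hC1 : volume C ≠ ⊤ := ((isBounded_Box _ _).subset (Horn_subset hM _ _)).measure_lt_top.ne
  have hCa : ∀ x ∈ C, |x 0 - p| < 1 := fun x hx =>
    abs_lt.mpr ⟨by linarith [hx.1.1], by linarith [hx.1.2]⟩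
  have hCw : ∀ x ∈ C, ∀ i : Fin m, 0 < x i.succ ∧ x i.succ < H := fun x hx i =>
    ⟨(hx.2 i).1, (hx.2 i).2.trans_le (hM _)⟩
  set F : Set (ES (m + 1)) := Box (sd (p - H) 0) (sd (p + H) H) with hF
  have hFm : MeasurableSet F := (isOpen_Box _ _).measurableSet
  have hFC : F ⊆ C := fun x hx => by
    rw [hF, mem_Box_sd] at hx
    have h1 : |x 0 - p| < H := abs_lt.mpr ⟨by linarith [hx.1.1], by linarith [hx.1.2]⟩
    refine ⟨⟨by linarith [hx.1.1], by linarith [hx.1.2]⟩, fun i => ⟨(hx.2 i).1, ?_⟩⟩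
    rw [hW _ (by linarith), max_eq_left (by linarith)]
    simpa using (hx.2 i).2
  obtain ⟨c, hc⟩ := poincare_convex hCo (convex_Box _ _) hFm hFC
    (volume_sd_ne_zero (by linarith) hH) (isBounded_Box _ _).measure_lt_top.ne
    (fun x hx z hz => norm_sq_le_of_Box (s := 2 * H)
      (fun i => by unfold sd; split_ifs <;> linarith) hx hz) h
  rw [← hP] at hc
  refine ⟨c, ?_⟩
  have : IsFiniteMeasure (volume.restrict C) := isFiniteMeasure_restrict.mpr hC1
  have hi : IntegrableOn (fun x => (u x - c) ^ 2) C := (h.1.sub (memLp_const c)).integrable_sq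
  have hg : IntegrableOn (fun x => ‖g x‖ ^ 2) C := h.int_sq
  have hS : ∀ σ r : ℝ, MeasurableSet {x : ES (m + 1) | r ≤ σ * (x 0 - p)} := fun σ r =>
    (isClosed_le continuous_const (by fun_prop)).measurableSet
  have hO : ∀ σ : ℝ, IsOpen {x : ES (m + 1) | 0 < σ * (x 0 - p)} := fun σ =>
    isOpen_lt continuous_const (by fun_prop)
  have half : ∀ σ : ℝ, σ = 1 ∨ σ = -1 → y * ∫ x in C ∩ {x | H ≤ σ * (x 0 - p)}, (u x - c) ^ 2 ≤
      (H ^ 2 + m * (b * H * H) ^ 2) / y * (∫ x in C ∩ {x | 0 < σ * (x 0 - p)}, ‖g x‖ ^ 2) +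
        (2 * H ^ 2 + 2 * P) * ∫ x in C, ‖g x‖ ^ 2 := by
    intro σ hσ
    have hσ2 : (-σ * H) ^ 2 = H ^ 2 := by rcases hσ with rfl | rfl <;> ring
    have habs : ∀ s : ℝ, 0 ≤ σ * s → |s| = σ * s := fun s hs => by
      rw [← abs_of_nonneg hs, abs_mul]
      rcases hσ with rfl | rfl <;> simp
    have hl : ∀ (β t : ℝ) (x : ES (m + 1)),
        σ * ((x + t • vf m (-σ * H) β x) 0 - p) = σ * (x 0 - p) - t * H := fun β t x => by
      rw [vf_zero]
      rcases hσ with rfl | rfl <;> ring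
    have hz : ∀ x ∈ C, ∀ t ∈ Icc (0 : ℝ) 1, ∀ β, H ≤ σ * (x 0 - p) →
        (β = 0 ∨ β = b * H ∧ 2 * H ≤ σ * (x 0 - p)) → x + t • vf m (-σ * H) β x ∈ C := by
      intro x hx t ht β h1 h2
      have h3 : t * H ≤ H := by nlinarith [ht.2]
      have h4 : 0 ≤ t * H := mul_nonneg ht.1 hH.le
      have h5 := habs (x 0 - p) (by linarith)
      have h6 := habs ((x + t • vf m (-σ * H) β x) 0 - p) (by rw [hl]; linarith)
      rw [hl] at h6
      have h7 : |(x + t • vf m (-σ * H) β x) 0 - p| < 1 := by linarith [hCa x hx]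
      have h8 : 0 ≤ t * β := mul_nonneg ht.1 (by rcases h2 with rfl | ⟨rfl, -⟩ <;> positivity)
      refine ⟨⟨by linarith [(abs_lt.mp h7).1], by linarith [(abs_lt.mp h7).2]⟩, fun i => ?_⟩
      rw [vf_succ, hW _ h7, h6]
      have h9 := (hx.2 i).2
      rw [hW _ (hCa x hx), h5, max_eq_right (by linarith)] at h9
      refine ⟨mul_pos (by linarith) (hx.2 i).1, (mul_lt_mul_of_pos_left h9 (by linarith)).trans_le ?_⟩
      rw [mul_left_comm]
      refine mul_le_mul_of_nonneg_left ((mul_le_mul_of_nonneg_right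
        ((add_comm _ _).trans_le (Real.add_one_le_exp _)) (Real.exp_pos _).le).trans ?_) hH.le
      rw [← Real.exp_add, Real.exp_le_exp]
      rcases h2 with rfl | ⟨rfl, h2⟩
      · nlinarith [mul_le_mul_of_nonneg_left (max_le (show 0 ≤ σ * (x 0 - p) - H by linarith)
          (show σ * (x 0 - p) - t * H - H ≤ σ * (x 0 - p) - H by linarith)) hb]
      · rw [max_eq_right (by linarith)]
        linarith
    set A := C ∩ {x | H ≤ σ * (x 0 - p)} with hA
    have hAm : MeasurableSet A := hCo.measurableSet.inter (hS _ _)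
    have h1 := step (hCo.inter (hO σ)) (ne_top_of_le_ne_top hC1 (measure_mono inter_subset_left))
      (hAm.inter (hS σ (2 * H))) hAm (fun x hx => ⟨hx.1, hH.trans_le hx.2⟩)
      (h1_mono inter_subset_left hCo.measurableSet h) (continuous_vf (-σ * H) (b * H))
      (map_vf_le _ (by positivity)) (L := H ^ 2 + m * (b * H * H) ^ 2) (by positivity)
      (fun x hx => (norm_vf _ _ (hCw x hx.1.1)).trans_eq (by rw [hσ2]))
      (fun x hx t ht => ⟨hz x hx.1.1 t ht _ hx.1.2 (Or.inr ⟨rfl, hx.2⟩), by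
        have h2 : 2 * H ≤ σ * (x 0 - p) := hx.2
        rw [mem_ofPred_eq, hl]
        nlinarith [ht.2]⟩)
      (J := ((1 + b * H) ^ m)⁻¹) (θ := 1 - y) (by positivity) (by linarith) (by linarith)
      (by simpa using (map_vf (m := m) (-σ * H) (β := b * H) (t := 1) (by positivity)).le)
      (fun x hx => by
        have h2 : 2 * H ≤ σ * (x 0 - p) := hx.2
        have h3 := hz x hx.1.1 1 (by simp) _ hx.1.2 (Or.inr ⟨rfl, h2⟩)
        have h4 := hl (b * H) 1 x
        rw [one_smul] at h3 h4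
        exact ⟨h3, by rw [mem_ofPred_eq, h4]; linarith⟩) c
    have h2 := step hCo hC1 (hAm.diff (hS σ (2 * H))) hFm hFC h (continuous_vf (-σ * H) 0)
      (map_vf_le _ le_rfl) (L := H ^ 2) (by positivity)
      (fun x hx => (norm_vf _ _ (hCw x hx.1.1)).trans_eq (by rw [hσ2]; simp))
      (fun x hx t ht => hz x hx.1.1 t ht _ hx.1.2 (Or.inl rfl))
      (J := 1) (θ := 1 / 2) zero_le_one (by norm_num) (by norm_num)
      (by simpa using map_vf_le (m := m) (-σ * H) le_rfl 1 (by simp))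
      (fun x hx => by
        have h2 : σ * (x 0 - p) < 2 * H := not_le.mp hx.2
        have h3 : H ≤ σ * (x 0 - p) := hx.1.2
        have h4 := habs ((x + (1 : ℝ) • vf m (-σ * H) 0 x) 0 - p) (by rw [hl]; linarith)
        have h5 := vf_succ (-σ * H) 0 1 x
        rw [hl] at h4
        rw [one_smul] at h4 h5
        have h6 := abs_lt.mp (h4.trans_lt (show _ < H by linarith))
        rw [hF, mem_Box_sd]
        exact ⟨⟨by linarith [h6.1], by linarith [h6.2]⟩, fun i => by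
          rw [h5]; simpa using hCw x hx.1.1 i⟩) c
    have h3 := integral_inter_add_sdiff (hS σ (2 * H)) (hi.mono_set (inter_subset_left (t := _)) :
      IntegrableOn (fun x => (u x - c) ^ 2) A)
    have h4 : 0 ≤ ∫ x in A, (u x - c) ^ 2 := integral_nonneg fun _ => sq_nonneg _
    have h5 : 1 / (1 - y) * (((1 + b * H) ^ m)⁻¹ * ∫ x in A, (u x - c) ^ 2) ≤
        (1 - y) * ∫ x in A, (u x - c) ^ 2 := by
      rw [← mul_assoc]
      refine mul_le_mul_of_nonneg_right ?_ h4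
      rw [one_div, inv_mul_le_iff₀ (by linarith), ← sq]
      exact hJ
    rw [sub_sub_cancel, ← mul_assoc, one_div_mul_eq_div] at h1
    norm_num at h2
    linarith
  have h1 := half 1 (Or.inl rfl)
  have h2 := half (-1) (Or.inr rfl)
  have h3 := integral_inter_add_sdiff (hS 1 H) hi
  have h4 := integral_inter_add_sdiff (hS (-1) H) (hi.mono_set (sdiff_subset (t :=
    {x : ES (m + 1) | H ≤ 1 * (x 0 - p)})))
  have h5 := integral_inter_add_sdiff (hO 1).measurableSet hg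
  have h6 : ∫ x in (C \ {x | H ≤ 1 * (x 0 - p)}) ∩ {x | H ≤ -1 * (x 0 - p)}, (u x - c) ^ 2 ≤
      ∫ x in C ∩ {x | H ≤ -1 * (x 0 - p)}, (u x - c) ^ 2 :=
    setIntegral_mono_set (hi.mono_set inter_subset_left)
      (Eventually.of_forall fun _ => sq_nonneg _)
      (inter_subset_inter_left _ sdiff_subset).eventuallyLE
  have h7 : ∫ x in (C \ {x | H ≤ 1 * (x 0 - p)}) \ {x | H ≤ -1 * (x 0 - p)}, (u x - c) ^ 2 ≤
      ∫ x in F, (u x - c) ^ 2 := by
    refine setIntegral_mono_set (hi.mono_set hFC) (Eventually.of_forall fun _ => sq_nonneg _)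
      (LE.le.eventuallyLE fun x hx => ?_)
    have h8 : 1 * (x 0 - p) < H := not_le.mp hx.1.2
    have h9 : -1 * (x 0 - p) < H := not_le.mp hx.2
    exact mem_Box_sd.mpr ⟨⟨by linarith, by linarith⟩, hCw x hx.1.1⟩
  have h8 : ∫ x in C ∩ {x | 0 < -1 * (x 0 - p)}, ‖g x‖ ^ 2 ≤
      ∫ x in C \ {x | 0 < 1 * (x 0 - p)}, ‖g x‖ ^ 2 := by
    refine setIntegral_mono_set (hg.mono_set sdiff_subset)
      (Eventually.of_forall fun _ => sq_nonneg _) (LE.le.eventuallyLE fun x hx => ?_)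
    have h9 : 0 < -1 * (x 0 - p) := hx.2
    exact ⟨hx.1, fun h10 : 0 < 1 * (x 0 - p) => by linarith⟩
  have h9 : 0 ≤ ∫ x in C, ‖g x‖ ^ 2 := integral_nonneg fun _ => sq_nonneg _
  refine le_trans ?_ (mul_le_mul_of_nonneg_right hκ h9)
  have h10 := mul_le_mul_of_nonneg_left h8
    (show 0 ≤ (H ^ 2 + m * (b * H * H) ^ 2) / y by positivity)
  refine le_of_mul_le_mul_left ?_ hy
  have e : y * (((H ^ 2 + m * (b * H * H) ^ 2) / y ^ 2 + P + (4 * H ^ 2 + 4 * P) / y) *
      ∫ x in C, ‖g x‖ ^ 2) = (H ^ 2 + m * (b * H * H) ^ 2) / y * (∫ x in C, ‖g x‖ ^ 2) +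
      y * (P * ∫ x in C, ‖g x‖ ^ 2) + (4 * H ^ 2 + 4 * P) * ∫ x in C, ‖g x‖ ^ 2 := by
    field_simp
  rw [e, ← h3, ← h4]
  nth_rewrite 1 [← h5]
  nlinarith [mul_le_mul_of_nonneg_left (h7.trans hc) hy.le, mul_le_mul_of_nonneg_left h6 hy.le]

theorem upper {k : ℕ} (hk : 1 ≤ k) (hm : 1 ≤ m) {ε V : ℝ} (hε : 0 < ε) (hV : 1 < V) :
    ∃ Ω₁ Ω₂ : Set (ES (m + 1)), IsLipschitzDomain Ω₁ ∧ IsLipschitzDomain Ω₂ ∧ Ω₁ ⊆ Ω₂ ∧
      Convex ℝ Ω₁ ∧ volume.real Ω₂ ≤ V * volume.real Ω₁ ∧ 0 < neumannEig Ω₁ k ∧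
      0 < neumannEig Ω₂ k ∧
      Real.log V ^ 2 * neumannEig Ω₁ k ≤ (Real.pi ^ 2 + ε) * neumannEig Ω₂ k := by
  have hk0 : (1 : ℝ) ≤ k := by exact_mod_cast hk
  have hm0 : (0 : ℝ) < m := by exact_mod_cast hm
  set a := Real.log V with ha
  have ha0 : 0 < a := Real.log_pos hV
  set b := a / m with hb
  have hb0 : 0 < b := by positivity
  set κ := 4 * (Real.pi ^ 2 + ε) / (Real.pi ^ 2 * a ^ 2) with hκ
  set Q : ℝ := 16 * (m + 1 : ℕ) * 2 ^ Module.finrank ℝ (ES (m + 1)) with hQ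
  obtain ⟨H, ⟨hκH, hbH⟩, hH, hH1⟩ : ∃ H : ℝ, ((1 + m * (b * H) ^ 2) * (2 * (1 + a * H) / a) ^ 2 +
      Q * H ^ 2 + (4 + 4 * Q) * H * (2 * (1 + a * H) / a) < κ ∧ b * H < 1 / 2) ∧
      H ∈ Ioc (0 : ℝ) 1 := by
    have h1 : Continuous fun H : ℝ => (1 + m * (b * H) ^ 2) * (2 * (1 + a * H) / a) ^ 2 +
      Q * H ^ 2 + (4 + 4 * Q) * H * (2 * (1 + a * H) / a) := by fun_prop
    have h2 := (h1.continuousAt (x := 0)).eventually (gt_mem_nhds (show _ < κ by
      rw [hκ, lt_div_iff₀ (by positivity)]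
      simp only [mul_zero, add_zero, zero_mul, zero_pow two_ne_zero]
      field_simp
      linarith))
    have h3 : Continuous fun H : ℝ => b * H := by fun_prop
    have h4 := (h3.continuousAt (x := 0)).eventually (gt_mem_nhds (show _ < 1 / 2 by simp))
    exact ((eventually_nhdsWithin_of_eventually_nhds (h2.and h4)).and
      (Ioc_mem_nhdsGT one_pos)).exists
  set P : Set ℝ := range fun i : ℕ => 2 * (i : ℝ) + 1 with hP
  set W : ℝ → ℝ := fun t => H * Real.exp (-(b * max 0 (infDist t P - H))) with hW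
  have hWc : Continuous W := by
    have := continuous_infDist_pt P
    fun_prop
  have hM : ∀ t, W t ≤ H := fun t => mul_le_of_le_one_right hH.le (Real.exp_le_one_iff.mpr
    (neg_nonpos.mpr (mul_nonneg hb0.le (le_max_left _ _))))
  have hfl : ∀ t : ℝ, 0 < t → 2 * (⌊t / 2⌋₊ : ℝ) ≤ t ∧ t < 2 * (⌊t / 2⌋₊ : ℝ) + 2 := fun t ht =>
    ⟨by linarith [Nat.floor_le (show 0 ≤ t / 2 by linarith)],
      by linarith [Nat.lt_floor_add_one (t / 2)]⟩
  have hδ : ∀ t, 0 < t → H * Real.exp (-b) ≤ W t := fun t ht => by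
    have h1 : infDist t P ≤ 1 := (infDist_le_dist_of_mem (mem_range_self ⌊t / 2⌋₊)).trans
      (abs_le.mpr ⟨by linarith [(hfl t ht).1], by linarith [(hfl t ht).2]⟩)
    refine mul_le_mul_of_nonneg_left (Real.exp_le_exp.mpr (neg_le_neg ?_)) hH.le
    exact mul_le_of_le_one_right hb0.le (max_le zero_le_one (by linarith))
  have hlip : ∀ s t, W s ≤ W t + |s - t| / 2 := fun s t => by
    have h1 : max 0 (infDist t P - H) ≤ max 0 (infDist s P - H) + |s - t| := max_le
      (add_nonneg (le_max_left _ _) (abs_nonneg _)) (by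
        have h2 := infDist_le_infDist_add_dist (x := t) (y := s) (s := P)
        rw [dist_comm, Real.dist_eq] at h2
        linarith [le_max_right 0 (infDist s P - H)])
    have h2 : W s * Real.exp (-(b * |s - t|)) ≤ W t := by
      rw [hW, mul_assoc, ← Real.exp_add]
      refine mul_le_mul_of_nonneg_left (Real.exp_le_exp.mpr ?_) hH.le
      nlinarith [mul_le_mul_of_nonneg_left h1 hb0.le]
    have h3 := Real.add_one_le_exp (-(b * |s - t|))
    have h4 : 0 ≤ W s := by positivity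
    have h5 : W s * (b * |s - t|) ≤ H * (b * |s - t|) :=
      mul_le_mul_of_nonneg_right (hM s) (by positivity)
    nlinarith [mul_le_mul_of_nonneg_left h3 h4, abs_nonneg (s - t)]
  have hw : 0 < H * Real.exp (-b) := by positivity
  set Ω₁ : Set (ES (m + 1)) := Box (sd 0 0) (sd (2 * k) (H * Real.exp (-b))) with hΩ₁
  have hL₁ : IsLipschitzDomain Ω₁ := by
    have := isLipschitzDomain_union (d := m + 1) (by omega) (n := 1) one_pos
      (fun _ => sd (2 * (k : ℝ)) (H * Real.exp (-b))) (fun _ => sd_pos (by positivity) hw)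
    simpa [hΩ₁, sd_zero_zero] using this
  have hL₂ : IsLipschitzDomain (Horn m W 0 (2 * k)) :=
    lip_Horn hWc (by positivity) hw (fun t ht _ => hδ t ht) hM hlip
  have hsub : Ω₁ ⊆ Horn m W 0 (2 * k) := fun x hx => by
    rw [hΩ₁, mem_Box_sd] at hx
    exact ⟨hx.1, fun i => ⟨(hx.2 i).1, (hx.2 i).2.trans_le (hδ _ hx.1.1)⟩⟩
  have hA₁ := adm_box (m := m) hk hw
  obtain ⟨M, -, hT⟩ := exists_test k
  have hA₂ := hT m _ (2 * k / (k + 1)) _ (by positivity) hw hL₂.1.measurableSet hL₂.2.2.1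
    (by rwa [mul_div_cancel₀ _ (by positivity)])
  have hP₁ : Poin Ω₁ (4 * (((m + 1 : ℕ) : ℝ) * (2 * k) ^ 2) *
      2 ^ Module.finrank ℝ (ES (m + 1))) := by
    intro u g h
    refine poincare_convex hL₁.1 (convex_Box _ _) hL₁.1.measurableSet subset_rfl
      (volume_sd_ne_zero (by positivity) hw) hL₁.2.2.1.measure_lt_top.ne
      (fun x hx y hy => norm_sq_le_of_Box (fun i => ?_) hx hy) h
    unfold sd
    split_ifs <;> linarith [hδ 1 one_pos, hM 1]
  have h1 : _ ≤ neumannEig Ω₁ k := le_csInf ⟨_, hA₁⟩ fun t ht =>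
    hP₁.le_of_adm hL₁.2.2.1.measure_lt_top.ne (by positivity) hk ht
  have h2 : 1 / κ ≤ neumannEig (Horn m W 0 (2 * k)) k := by
    refine le_csInf ⟨_, hA₂⟩ fun t ht => bracket_poin hL₂.1.measurableSet
      hL₂.2.2.1.measure_lt_top.ne (fun i => Horn m W (2 * i + 1 - 1) (2 * i + 1 + 1))
      (fun i => (isOpen_Horn hWc _ _).measurableSet) (fun i hi x hx => ?_) (fun i j hij => ?_) ?_
      (by positivity) (fun i _ => ?_) ht
    · have h3 : (i : ℝ) + 1 ≤ k := by exact_mod_cast hi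
      exact ⟨⟨by linarith [hx.1.1, Nat.cast_nonneg (α := ℝ) i], by linarith [hx.1.2]⟩, hx.2⟩
    · refine Set.disjoint_left.mpr fun x hx hx' => hij ?_
      have h3 : (i : ℝ) < j + 1 := by linarith [hx.1.1, hx'.1.2]
      have h4 : (j : ℝ) < i + 1 := by linarith [hx'.1.1, hx.1.2]
      have h5 : i < j + 1 := by exact_mod_cast h3
      have h6 : j < i + 1 := by exact_mod_cast h4
      omega
    · have h3 := ae_all_iff.mpr fun i : ℕ => null_hyper
        (n := (EuclideanSpace.single 0 1 : ES (m + 1))) (by simp) (2 * (i : ℝ))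
      filter_upwards [h3] with x hx hxΩ
      have h4 := hfl _ hxΩ.1.1
      have h5 : x 0 ≠ 2 * (⌊x 0 / 2⌋₊ : ℝ) := by
        simpa [EuclideanSpace.inner_single_left] using hx ⌊x 0 / 2⌋₊
      refine ⟨⌊x 0 / 2⌋₊, ?_, ⟨by linarith [lt_of_le_of_ne h4.1 h5.symm], by linarith [h4.2]⟩,
        hxΩ.2⟩
      exact_mod_cast (show (⌊x 0 / 2⌋₊ : ℝ) < k by linarith [h4.1, hxΩ.1.2])
    · have h3 : 0 < a * H := by positivity
      refine poin_cell hWc hH hH1 hb0.le (fun t ht => ?_) hM (y := a * H / (2 * (1 + a * H)))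
        (by positivity) (by rw [div_lt_one (by positivity)]; linarith) ?_ rfl (le_of_eq_of_le ?_ hκH.le)
      · simp only [hW]
        congr 6
        refine le_antisymm (infDist_le_dist_of_mem (mem_range_self i))
          ((le_infDist (range_nonempty _)).mpr ?_)
        rintro _ ⟨j, rfl⟩
        rcases lt_trichotomy i j with h | rfl | h
        · have : (i : ℝ) + 1 ≤ j := by exact_mod_cast h
          exact ht.le.trans (le_abs.mpr (Or.inr (by linarith [(abs_lt.mp ht).2])))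
        · exact le_rfl
        · have : (j : ℝ) + 1 ≤ i := by exact_mod_cast h
          exact ht.le.trans (le_abs.mpr (Or.inl (by linarith [(abs_lt.mp ht).1])))
      · have h4 := one_add_mul_le_pow (show -2 ≤ b * H by linarith [mul_pos hb0 hH]) m
        rw [show m * (b * H) = a * H by rw [hb]; field_simp] at h4
        refine (inv_anti₀ (by positivity) h4).trans ?_
        have e : (1 + a * H)⁻¹ = 1 - 2 * (a * H / (2 * (1 + a * H))) := by field_simp; ring
        rw [e]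
        nlinarith [sq_nonneg (a * H / (2 * (1 + a * H)))]
      · rw [hQ]
        field_simp
        ring
  refine ⟨Ω₁, _, hL₁, hL₂, hsub, convex_Box _ _, ?_, lt_of_lt_of_le (by positivity) h1,
    lt_of_lt_of_le (by positivity) h2, ?_⟩
  · refine (measureReal_mono (Horn_subset hM _ _) (isBounded_Box _ _).measure_lt_top.ne).trans
      (le_of_eq ?_)
    rw [volume_real_sd (by positivity) hH.le, volume_real_sd (by positivity) hw.le, mul_pow,
      ← Real.exp_nat_mul, show m * -b = -a by rw [hb]; field_simp, Real.exp_neg,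
      Real.exp_log (by linarith)]
    field_simp
  · refine (mul_le_mul_of_nonneg_left (eig_le hA₁) (sq_nonneg _)).trans
      (le_trans (le_of_eq ?_) (mul_le_mul_of_nonneg_left h2 (by positivity)))
    rw [hκ]
    field_simp

end Pool.Agent.Lib.NV46
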